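import Mathlib

/-!
Garside lattices with unbounded inefficiency: definitions.
-/

set_option autoImplicit false

namespace Pool.Agent.GNU

/-- A lattice with a cofinal strictly increasing automorphism, finitely many orbits and
chains of at most five elements in every interval `[x, φ x]`. -/
structure Sys where
  P : Type
  [lat : Lattice P]
  φ : P ≃o P
  lt_φ : ∀ x, x < φ x
  cof : ∀ x y, ∃ n : ℕ, y ≤ (φ ^ n) x
  fin : ∃ F : Set P, F.Finite ∧ ∀ x, ∃ n : ℤ, (φ ^ n) x ∈ F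
  ht : ∀ (x : P) (s : Finset P), IsChain (· ≤ ·) (s : Set P) → (∀ a ∈ s, x ≤ a ∧ a ≤ φ x) →
    s.card ≤ 5

attribute [instance] Sys.lat

/-- A good edge: a cover `x ⋖ x'` with something strictly between `x'` and `φ x`. -/
def Sys.Good (S : Sys) (x x' : S.P) : Prop :=
  x ⋖ x' ∧ ∃ y, x' < y ∧ y < S.φ x

/-- `Reach m x y`: there is a path of `m` good edges from `x` to `y`. -/
inductive Sys.Reach (S : Sys) : ℕ → S.P → S.P → Prop
  | refl (x : S.P) : Sys.Reach S 0 x x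
  | step {m : ℕ} {x y z : S.P} : S.Good x y → Sys.Reach S m y z → Sys.Reach S (m + 1) x z

/-- A good closed chain with `n` steps and winding number `k`. -/
def Sys.HasChain (S : Sys) (n k : ℕ) : Prop :=
  ∃ x : S.P, S.Reach n x ((S.φ ^ k) x)

/-! ### Insertion -/

/-- Hypotheses for inserting a new element between `a` and `b` for every pair with `J a b`. -/
structure InsHyp (S : Sys) (J : S.P → S.P → Prop) : Prop where
  lt : ∀ a b, J a b → a < b
  le : ∀ a b, J a b → b ≤ S.φ a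
  inv : ∀ a b, J (S.φ a) (S.φ b) ↔ J a b
  H1 : ∀ x a b, J a b → x ≤ a → b ≤ S.φ x → ∀ s₁ s₂ : Finset S.P,
    IsChain (· ≤ ·) (s₁ : Set S.P) → IsChain (· ≤ ·) (s₂ : Set S.P) →
    (∀ u ∈ s₁, x ≤ u ∧ u ≤ a) → (∀ u ∈ s₂, b ≤ u ∧ u ≤ S.φ x) → s₁.card + s₂.card ≤ 4
  H2 : ∀ x a b c d, J a b → J c d → x ≤ a → b ≤ c → d ≤ S.φ x → False

/-- The system obtained by insertion, through its characteristic properties. -/
structure InsExt (S : Sys) (J : S.P → S.P → Prop) where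
  T : Sys
  inl : S.P → T.P
  mid : ∀ a b, J a b → T.P
  cases : ∀ u, (∃ x, u = inl x) ∨ ∃ a b, ∃ h : J a b, u = mid a b h
  inl_ne_mid : ∀ x a b (h : J a b), inl x ≠ mid a b h
  inl_le_inl : ∀ x y, inl x ≤ inl y ↔ x ≤ y
  inl_le_mid : ∀ x a b (h : J a b), inl x ≤ mid a b h ↔ x ≤ a
  mid_le_inl : ∀ x a b (h : J a b), mid a b h ≤ inl x ↔ b ≤ x
  mid_le_mid : ∀ a b (h : J a b) c d (h' : J c d),
    mid a b h ≤ mid c d h' ↔ (a = c ∧ b = d) ∨ b ≤ c
  φ_inl : ∀ x, T.φ (inl x) = inl (S.φ x)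
  φ_mid : ∀ a b (h : J a b) (h' : J (S.φ a) (S.φ b)), T.φ (mid a b h) = mid (S.φ a) (S.φ b) h'
  sup_irr : ∀ u v a b (h : J a b), u ⊔ v = mid a b h → u ⊔ v = u ∨ u ⊔ v = v
  inf_irr : ∀ u v a b (h : J a b), u ⊓ v = mid a b h → u ⊓ v = u ∨ u ⊓ v = v

/-! ### Equivariant sequences -/

/-- Hypotheses on the set `Z` of elements that may not be repeated. -/
structure SeqHyp (S : Sys) (Z : S.P → Prop) : Prop where
  sup : ∀ u v, Z (u ⊔ v) → u ⊔ v = u ∨ u ⊔ v = v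
  inf : ∀ u v, Z (u ⊓ v) → u ⊓ v = u ∨ u ⊓ v = v
  inv : ∀ u, Z (S.φ u) ↔ Z u

/-- The system of monotone `φ`-equivariant sequences of period `N` in which no element of `Z` is
repeated; its automorphism is the shift. -/
structure SeqExt (S : Sys) (Z : S.P → Prop) (N : ℕ) where
  T : Sys
  ev : T.P → ℤ → S.P
  le : ∀ f g, f ≤ g ↔ ∀ i, ev f i ≤ ev g i
  mono : ∀ f, Monotone (ev f)
  per : ∀ f i, ev f (i + N) = S.φ (ev f i)
  nz : ∀ f i, Z (ev f i) → ev f (i + 1) ≠ ev f i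
  exists_of : ∀ f : ℤ → S.P, Monotone f → (∀ i, f (i + N) = S.φ (f i)) →
    (∀ i, Z (f i) → f (i + 1) ≠ f i) → ∃ g : T.P, ev g = f
  shift : ∀ f i, ev (T.φ f) i = ev f (i + 1)

/-! ### The two index relations of the step -/

/-- Step A: insert between `x'` and `φ x` for every good edge `x ⋖ x'`. -/
def Sys.JA (S : Sys) (a b : S.P) : Prop := ∃ x, S.Good x a ∧ b = S.φ x

/-- The inserted elements of step A. -/
def InsExt.Z {S : Sys} {J : S.P → S.P → Prop} (A : InsExt S J) (u : A.T.P) : Prop :=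
  ∃ a b, ∃ h : J a b, u = A.mid a b h

/-- `f` is, up to an integral shift by `j`, the sequence
`x, …, x, x', …, x', z` (`b` times `x'`) on a window of length `N`. -/
def IsStrip {S : Sys} {J : S.P → S.P → Prop} (A : InsExt S J) (N : ℕ)
    (Q : SeqExt A.T A.Z N) (x x' : S.P) (h : J x' (S.φ x)) (j : ℤ) (b : ℕ) (f : Q.T.P) : Prop :=
  (∀ i : ℕ, i + b + 1 < N → Q.ev f (j + i) = A.inl x) ∧
  (∀ i : ℕ, N ≤ i + b + 1 → i + 1 < N → Q.ev f (j + i) = A.inl x') ∧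
  Q.ev f (j + (N - 1)) = A.mid x' (S.φ x) h

/-- Step D: insert between consecutive strip sequences. -/
def JD {S : Sys} (A : InsExt S S.JA) (N : ℕ) (Q : SeqExt A.T A.Z N) (f g : Q.T.P) : Prop :=
  ∃ x x', S.Good x x' ∧ ∃ h : S.JA x' (S.φ x), ∃ (j : ℤ) (b : ℕ), b + 2 ≤ N ∧
    IsStrip A N Q x x' h j b f ∧ IsStrip A N Q x x' h j (b + 1) g

/-! ### Distances -/

/-- Axioms for the distance `D a b = min {t : (a,0) ≤ (b,t)}` on the set of orbits. -/
structure DistHyp {O : Type} (D : O → O → ℤ) : Prop where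
  self : ∀ a, D a a = 0
  tri : ∀ a b c, D a c ≤ D a b + D b c
  pos : ∀ a b, a ≠ b → 0 < D a b + D b a
  join : ∀ a b (s : ℤ), ∃ q t, (D a q ≤ t ∧ D b q ≤ t - s) ∧
    ∀ c u, D a c ≤ u → D b c ≤ u - s → D q c ≤ u - t
  meet : ∀ a b (s : ℤ), ∃ q t, (D q a ≤ -t ∧ D q b ≤ s - t) ∧
    ∀ c u, D c a ≤ -u → D c b ≤ s - u → D c q ≤ t - u

/-- A system presented by a distance: `P ≃ O × ℤ`. -/
structure Sys.Pres (S : Sys) where
  O : Type
  [fintype : Fintype O]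
  [nonempty : Nonempty O]
  D : O → O → ℤ
  hD : DistHyp D
  e : S.P ≃ O × ℤ
  le_iff : ∀ x y, x ≤ y ↔ D (e x).1 (e y).1 ≤ (e y).2 - (e x).2
  e_φ : ∀ x, e (S.φ x) = ((e x).1, (e x).2 + 1)

attribute [instance] Sys.Pres.fintype Sys.Pres.nonempty

/-! ### The free group of differences -/

/-- Reduced alternating words. -/
def NF {O : Type} (l : List (O × O)) : Prop :=
  (∀ p ∈ l, p.1 ≠ p.2) ∧ l.IsChain (fun p q => p.2 ≠ q.1)

/-- A group generated by symbols `pr a b` with `pr a b * pr b c = pr a c` in which the reduced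
alternating words are unique normal forms. -/
structure FG (O : Type) where
  H : Type
  [grp : Group H]
  pr : O → O → H
  pr_self : ∀ a, pr a a = 1
  pr_mul : ∀ a b c, pr a b * pr b c = pr a c
  nf : H → List (O × O)
  nf_NF : ∀ h, NF (nf h)
  prod_nf : ∀ h, ((nf h).map fun p => pr p.1 p.2).prod = h
  nf_prod : ∀ l, NF l → nf (l.map fun p => pr p.1 p.2).prod = l
  lift : ∀ w : O → ℤ, ∃ χ : H → ℤ, (∀ h k, χ (h * k) = χ h + χ k) ∧
    ∀ a b, χ (pr a b) = w b - w a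

attribute [instance] FG.grp

/-- Cost of a word. -/
def cost {O : Type} (D : O → O → ℤ) (l : List (O × O)) : ℤ := (l.map fun p => D p.1 p.2).sum

/-- The length function. -/
def FG.L {O : Type} (F : FG O) (D : O → O → ℤ) (h : F.H) : ℤ := cost D (F.nf h)

/-- The normal form of `m` does not start with `q`. -/
def FG.Av {O : Type} (F : FG O) (m : F.H) (q : O) : Prop := ∀ p ∈ (F.nf m).head?, p.1 ≠ q

/-! ### Garside monoids -/

/-- The hypotheses of the frozen statement `S02195`. -/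
def IsGarside (M : Type) [Monoid M] (d : M) : Prop :=
  (∀ a b c : M, a * b = a * c → b = c) ∧
  (∀ a b c : M, b * a = c * a → b = c) ∧
  (∃ len : M → ℕ, (∀ a b : M, len a + len b ≤ len (a * b)) ∧
      ∀ a : M, len a = 0 → a = 1) ∧
  (∀ a b : M, ∃ m : M, (∃ c, m = a * c) ∧ (∃ c, m = b * c) ∧
      ∀ x : M, (∃ c, x = a * c) → (∃ c, x = b * c) → ∃ c, x = m * c) ∧
  (∀ a b : M, ∃ g : M, (∃ c, a = g * c) ∧ (∃ c, b = g * c) ∧
      ∀ x : M, (∃ c, a = x * c) → (∃ c, b = x * c) → ∃ c, g = x * c) ∧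
  (∀ a b : M, ∃ m : M, (∃ c, m = c * a) ∧ (∃ c, m = c * b) ∧
      ∀ x : M, (∃ c, x = c * a) → (∃ c, x = c * b) → ∃ c, x = c * m) ∧
  (∀ a b : M, ∃ g : M, (∃ c, a = c * g) ∧ (∃ c, b = c * g) ∧
      ∀ x : M, (∃ c, a = c * x) → (∃ c, b = c * x) → ∃ c, g = c * x) ∧
  (∀ x : M, (∃ c, d = x * c) ↔ (∃ c, d = c * x)) ∧
  Set.Finite {x : M | ∃ c, d = x * c} ∧
  Submonoid.closure {x : M | ∃ c, d = x * c} = ⊤

end Pool.Agent.GNU
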