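import Pool.Agent.Lib_helper58.GNU.Defs

/-!
Block FGR: the free group of differences.
-/

set_option autoImplicit false

namespace Pool.Agent.GNU

namespace FGR

variable {O : Type}

/-- `of(a)⁻¹ * of(b)`. -/
def p0 (a b : O) : FreeGroup O := (FreeGroup.of a)⁻¹ * FreeGroup.of b

theorem p0_self (a : O) : p0 a a = 1 := by simp [p0]

theorem p0_mul (a b c : O) : p0 a b * p0 b c = p0 a c := by simp [p0, mul_assoc]

theorem p0_inv (a b : O) : (p0 a b)⁻¹ = p0 b a := by simp [p0]

/-- The subgroup generated by the differences. -/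
def Hs (O : Type) : Subgroup (FreeGroup O) := Subgroup.closure {x | ∃ a b : O, p0 a b = x}

/-- The underlying word. -/
def flat : List (O × O) → List (O × Bool)
  | [] => []
  | p :: l => (p.1, false) :: (p.2, true) :: flat l

/-- The product. -/
def pl (l : List (O × O)) : FreeGroup O := (l.map fun p => p0 p.1 p.2).prod

theorem mk_flat (l : List (O × O)) : FreeGroup.mk (flat l) = pl l := by
  induction l with
  | nil => rfl
  | cons p l ih =>
    have h1 : pl (p :: l) = p0 p.1 p.2 * pl l := by simp [pl]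
    have h2 : p0 p.1 p.2 = FreeGroup.mk [(p.1, false), (p.2, true)] := by
      simp [p0, FreeGroup.of, FreeGroup.inv_mk, FreeGroup.invRev]
    rw [h1, ← ih, h2, FreeGroup.mul_mk]
    rfl

theorem flat_inj : ∀ l₁ l₂ : List (O × O), flat l₁ = flat l₂ → l₁ = l₂
  | [], [], _ => rfl
  | [], _ :: _, h => by simp [flat] at h
  | _ :: _, [], h => by simp [flat] at h
  | p :: l₁, q :: l₂, h => by
    simp only [flat, List.cons.injEq, Prod.mk.injEq, and_true] at h
    obtain ⟨h1, h2, h3⟩ := h
    rw [flat_inj l₁ l₂ h3, Prod.ext h1 h2]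

theorem NF_nil : NF ([] : List (O × O)) := by simp [NF]

theorem NF_single {a b : O} (h : a ≠ b) : NF [(a, b)] := by
  simp [NF, h]

theorem NF_cons_cons {p q : O × O} {l : List (O × O)} :
    NF (p :: q :: l) ↔ p.1 ≠ p.2 ∧ p.2 ≠ q.1 ∧ NF (q :: l) := by
  simp only [NF, List.mem_cons, List.isChain_cons_cons]
  constructor
  · rintro ⟨h1, h2, h3⟩
    exact ⟨h1 p (Or.inl rfl), h2, fun r hr => h1 r (Or.inr hr), h3⟩
  · rintro ⟨h1, h2, h3, h4⟩
    refine ⟨?_, h2, h4⟩
    rintro r (rfl | hr)
    · exact h1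
    · exact h3 r hr

theorem NF_tail {p : O × O} {l : List (O × O)} (h : NF (p :: l)) : NF l := by
  cases l with
  | nil => exact NF_nil
  | cons q l => exact (NF_cons_cons.1 h).2.2

theorem NF_head {p : O × O} {l : List (O × O)} (h : NF (p :: l)) : p.1 ≠ p.2 :=
  h.1 p (by simp)

theorem isReduced_flat : ∀ l : List (O × O), NF l → FreeGroup.IsReduced (flat l)
  | [], _ => by simp [flat]
  | [p], h => by
    have := NF_head h
    simp [flat, this]
  | p :: q :: l, h => by
    have h' := NF_cons_cons.1 h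
    have ih := isReduced_flat (q :: l) h'.2.2
    simp only [flat] at ih ⊢
    rw [FreeGroup.isReduced_cons_cons, FreeGroup.isReduced_cons_cons]
    exact ⟨fun e => absurd e h'.1, fun e => absurd e h'.2.1, ih⟩

theorem pl_inj {l₁ l₂ : List (O × O)} (h₁ : NF l₁) (h₂ : NF l₂) (h : pl l₁ = pl l₂) : l₁ = l₂ := by
  classical
  apply flat_inj
  rw [← (isReduced_flat l₁ h₁).reduce_eq, ← (isReduced_flat l₂ h₂).reduce_eq,
    ← FreeGroup.toWord_mk, ← FreeGroup.toWord_mk, mk_flat, mk_flat, h]

theorem push (a b : O) (l : List (O × O)) (hl : NF l) : ∃ l', NF l' ∧ pl l' = p0 a b * pl l := by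
  classical
  by_cases hab : a = b
  · exact ⟨l, hl, by rw [hab, p0_self, one_mul]⟩
  cases l with
  | nil => exact ⟨[(a, b)], NF_single hab, by simp [pl]⟩
  | cons q l =>
    by_cases hbq : b = q.1
    · have hprod : p0 a b * pl (q :: l) = p0 a q.2 * pl l := by
        have : pl (q :: l) = p0 q.1 q.2 * pl l := by simp [pl]
        rw [this, ← mul_assoc, hbq, p0_mul]
      by_cases haq : a = q.2
      · refine ⟨l, NF_tail hl, ?_⟩
        rw [hprod, haq, p0_self, one_mul]
      · refine ⟨(a, q.2) :: l, ?_, ?_⟩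
        · cases l with
          | nil => exact NF_single haq
          | cons r l =>
            rw [NF_cons_cons] at hl ⊢
            exact ⟨haq, hl.2⟩
        · rw [hprod]; simp [pl]
    · refine ⟨(a, b) :: q :: l, NF_cons_cons.2 ⟨hab, hbq, hl⟩, by simp [pl]⟩

theorem exists_nf (x : FreeGroup O) (hx : x ∈ Hs O) : ∃ l, NF l ∧ pl l = x := by
  have key : ∀ x ∈ Submonoid.closure ({x | ∃ a b : O, p0 a b = x} ∪ {x | ∃ a b : O, p0 a b = x}⁻¹),
      ∀ l, NF l → ∃ l', NF l' ∧ pl l' = x * pl l := by
    intro x hx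
    induction hx using Submonoid.closure_induction with
    | mem x hx =>
      rcases hx with ⟨a, b, rfl⟩ | hx
      · exact push a b
      · obtain ⟨a, b, h⟩ := hx
        have : x = p0 b a := by rw [← p0_inv, h, inv_inv]
        rw [this]
        exact push b a
    | one => intro l hl; exact ⟨l, hl, by rw [one_mul]⟩
    | mul x y _ _ ihx ihy =>
      intro l hl
      obtain ⟨l', hl', h⟩ := ihy l hl
      obtain ⟨l'', hl'', h'⟩ := ihx l' hl'
      exact ⟨l'', hl'', by rw [h', h, mul_assoc]⟩
  have hx' : x ∈ (Hs O).toSubmonoid := hx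
  rw [Hs, Subgroup.closure_toSubmonoid] at hx'
  obtain ⟨l, hl, h⟩ := key x hx' [] NF_nil
  exact ⟨l, hl, by rw [h]; simp [pl]⟩

theorem p0_mem (a b : O) : p0 a b ∈ Hs O := Subgroup.subset_closure ⟨a, b, rfl⟩

/-- The generator in the subgroup. -/
def pr (a b : O) : Hs O := ⟨p0 a b, p0_mem a b⟩

theorem coe_prod (l : List (O × O)) :
    (((l.map fun p => pr p.1 p.2).prod : Hs O) : FreeGroup O) = pl l := by
  induction l with
  | nil => simp [pl]
  | cons p l ih =>
    have h1 : pl (p :: l) = p0 p.1 p.2 * pl l := by simp [pl]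
    rw [List.map_cons, List.prod_cons, Subgroup.coe_mul, ih, h1]
    rfl

theorem exists_nf' (x : Hs O) : ∃ l, NF l ∧ (l.map fun p => pr p.1 p.2).prod = x := by
  obtain ⟨l, hl, h⟩ := exists_nf x.1 x.2
  exact ⟨l, hl, Subtype.ext (by rw [coe_prod, h])⟩

end FGR

open FGR in
theorem nonempty_FG_proof (O : Type) : Nonempty (FG O) := by
  classical
  refine ⟨{
    H := Hs O
    grp := inferInstance
    pr := FGR.pr
    pr_self := fun a => Subtype.ext (p0_self a)
    pr_mul := fun a b c => Subtype.ext (p0_mul a b c)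
    nf := fun h => (exists_nf' h).choose
    nf_NF := fun h => (exists_nf' h).choose_spec.1
    prod_nf := fun h => (exists_nf' h).choose_spec.2
    nf_prod := fun l hl => ?_
    lift := fun w => ?_ }⟩
  · have h := (exists_nf' (l.map fun p => FGR.pr p.1 p.2).prod).choose_spec
    refine pl_inj h.1 hl ?_
    rw [← coe_prod, h.2, coe_prod]
  · let f : FreeGroup O →* Multiplicative ℤ := FreeGroup.lift fun a => Multiplicative.ofAdd (w a)
    refine ⟨fun h => (f h.1).toAdd, fun h k => ?_, fun a b => ?_⟩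
    · simp
    · have : f (p0 a b) = Multiplicative.ofAdd (w b - w a) := by
        simp only [p0, f, map_mul, map_inv, FreeGroup.lift_apply_of]
        rw [← ofAdd_neg, ← ofAdd_add]
        congr 1
        ring
      change (f (p0 a b)).toAdd = _
      rw [this]
      rfl

end Pool.Agent.GNU
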