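import Pool.Agent.Lib_helper58.GNU.Shim6

/-!
Block FINAL.
-/

set_option autoImplicit false

namespace Pool.Agent.GNU

namespace Fin'

/-- A strictly increasing path with `m` steps. -/
inductive SR (S : Sys) : ℕ → S.P → S.P → Prop
  | refl (x : S.P) : SR S 0 x x
  | step {m : ℕ} {x y z : S.P} : x < y → SR S m y z → SR S (m + 1) x z

variable {S : Sys}

theorem SR.of_reach {m : ℕ} {x y : S.P} (h : S.Reach m x y) : SR S m x y := by
  induction h with
  | refl x => exact SR.refl x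
  | step hg _ ih => exact SR.step hg.1.lt ih

theorem SR.trans {m n : ℕ} {x y z : S.P} (h : SR S m x y) (h' : SR S n y z) :
    SR S (m + n) x z := by
  induction h with
  | refl x => rw [Nat.zero_add]; exact h'
  | @step m x y w hxy _ ih =>
    have e : m + 1 + n = m + n + 1 := by ring
    rw [e]
    exact SR.step hxy (ih h')

theorem SR.map {m : ℕ} {x y : S.P} (h : SR S m x y) : SR S m (S.φ x) (S.φ y) := by
  induction h with
  | refl x => exact SR.refl _
  | step hxy _ ih => exact SR.step (S.φ.lt_iff_lt.2 hxy) ih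

theorem SR.map_pow {m : ℕ} {x y : S.P} (n : ℕ) (h : SR S m x y) :
    SR S m ((S.φ ^ n) x) ((S.φ ^ n) y) := by
  induction n with
  | zero => exact h
  | succ n ih =>
    rw [pow_succ']
    exact ih.map

theorem SR.pow {n k : ℕ} {x : S.P} (h : SR S n x ((S.φ ^ k) x)) (q : ℕ) :
    SR S (q * n) x ((S.φ ^ (q * k)) x) := by
  induction q with
  | zero => simpa using SR.refl x
  | succ q ih =>
    have h1 := ih.trans (h.map_pow (q * k))
    rw [← RelIso.mul_apply, ← pow_add] at h1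
    have e1 : (q + 1) * n = q * n + n := by ring
    have e2 : (q + 1) * k = q * k + k := by ring
    rw [e1, e2]
    exact h1

theorem SR.line (r : ℕ) (x : S.P) : SR S r x ((S.φ ^ r) x) := by
  have h : SR S 1 x ((S.φ ^ 1) x) := by
    rw [pow_one]
    exact SR.step (S.lt_φ x) (SR.refl _)
  simpa using h.pow r

theorem SR.exists_fun {m : ℕ} {x y : S.P} (h : SR S m x y) :
    ∃ f : ℕ → S.P, f 0 = x ∧ f m = y ∧ ∀ i < m, f i < f (i + 1) := by
  induction h with
  | refl x => exact ⟨fun _ => x, rfl, rfl, fun i hi => absurd hi (Nat.not_lt_zero i)⟩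
  | @step m x y z hxy _ ih =>
    obtain ⟨f, h0, h1, h2⟩ := ih
    refine ⟨fun i => Nat.casesOn i x f, rfl, h1, ?_⟩
    intro i hi
    cases i with
    | zero =>
      show x < f 0
      rw [h0]
      exact hxy
    | succ i => exact h2 i (by omega)

end Fin'

open Fin' in
theorem main_proof : ∀ K : ℕ, 1 ≤ K → ∃ (M : Type) (_ : Monoid M) (d : M), IsGarside M d ∧
      (∀ (n : ℕ) (f : Fin n → M), (∀ i, f i ≠ 1) → (List.ofFn f).prod = d → n ≤ 4) ∧
      ∃ (n : ℕ) (f : Fin n → M), (∀ i, f i ≠ 1) ∧ (List.ofFn f).prod = d ^ K ∧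
        (K : ℝ) * 2 ^ Real.sqrt (Real.logb 2 K) ≤ 8 * n := by
  intro K hK
  -- the largest admissible `j`
  obtain ⟨j, hj1, hj2⟩ : ∃ j : ℕ, 2 ^ (j ^ 2 + 2 * j) ≤ K ∧
      K < 2 ^ ((j + 1) ^ 2 + 2 * (j + 1)) := by
    classical
    have hex : ∃ j : ℕ, K < 2 ^ (j ^ 2 + 2 * j) :=
      ⟨K, (Nat.lt_two_pow_self).trans_le (Nat.pow_le_pow_right (by norm_num) (by nlinarith))⟩
    have h1 := Nat.find_spec hex
    have h2 : 1 ≤ Nat.find hex := by
      rcases Nat.eq_zero_or_pos (Nat.find hex) with h | h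
      · rw [h] at h1
        norm_num at h1
        omega
      · exact h
    obtain ⟨j, hj⟩ : ∃ j, Nat.find hex = j + 1 := ⟨Nat.find hex - 1, by omega⟩
    refine ⟨j, ?_, by rw [← hj]; exact h1⟩
    have h3 := Nat.find_min hex (m := j) (by omega)
    omega
  obtain ⟨S, n, k, hS, hk1, hk2, hkn⟩ := exists_chain j
  obtain ⟨x, hx⟩ := hS
  obtain ⟨R⟩ := S.nonempty_pres ⟨x⟩
  obtain ⟨M, instM, d, hG, h4, hch⟩ := R.exists_garside
  refine ⟨M, instM, d, hG, h4, ?_⟩
  have hkK : k ≤ K := hk2.trans hj1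
  set q := K / k with hq
  set r := K % k with hr
  have hKqr : q * k + r = K := by
    rw [hq, hr, mul_comm]
    exact Nat.div_add_mod K k
  have hrk : r < k := Nat.mod_lt _ (by omega)
  have hq1 : 1 ≤ q := Nat.div_pos hkK (by omega)
  have hpath := (SR.pow (SR.of_reach hx) q).trans (SR.line r ((S.φ ^ (q * k)) x))
  rw [← RelIso.mul_apply, ← pow_add, add_comm r, hKqr] at hpath
  obtain ⟨y, hy0, hy1, hy2⟩ := hpath.exists_fun
  obtain ⟨f, hf1, hf2⟩ := hch (q * n + r) K y hy2 (by rw [hy0, hy1])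
  refine ⟨q * n + r, f, hf1, hf2, ?_⟩
  -- the numerical estimate
  have hnat : K * 2 ^ (j + 2) ≤ 8 * (q * n + r) := by
    have h1 : K ≤ 2 * (q * k) := by
      have : k ≤ q * k := Nat.le_mul_of_pos_left k hq1
      omega
    calc K * 2 ^ (j + 2) ≤ 2 * (q * k) * 2 ^ (j + 2) := Nat.mul_le_mul_right _ h1
      _ = 8 * (q * (2 ^ j * k)) := by rw [pow_add]; ring
      _ ≤ 8 * (q * n) := Nat.mul_le_mul_left _ (Nat.mul_le_mul_left _ hkn)
      _ ≤ 8 * (q * n + r) := by omega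
  have hsqrt : Real.sqrt (Real.logb 2 K) ≤ (j : ℝ) + 2 := by
    rw [Real.sqrt_le_iff]
    refine ⟨by positivity, ?_⟩
    rw [Real.logb_le_iff_le_rpow (by norm_num) (by exact_mod_cast hK)]
    have h1 : K ≤ 2 ^ ((j + 2) ^ 2) :=
      hj2.le.trans (Nat.pow_le_pow_right (by norm_num) (by nlinarith))
    have h2 : (K : ℝ) ≤ (2 : ℝ) ^ ((j + 2) ^ 2) := by exact_mod_cast h1
    calc (K : ℝ) ≤ (2 : ℝ) ^ ((j + 2) ^ 2) := h2
      _ = (2 : ℝ) ^ (((j : ℝ) + 2) ^ 2) := by
        rw [← Real.rpow_natCast]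
        congr 1
        push_cast
        ring
  have hpow : (2 : ℝ) ^ Real.sqrt (Real.logb 2 K) ≤ (2 : ℝ) ^ (j + 2) := by
    calc (2 : ℝ) ^ Real.sqrt (Real.logb 2 K) ≤ (2 : ℝ) ^ ((j : ℝ) + 2) :=
          Real.rpow_le_rpow_of_exponent_le (by norm_num) hsqrt
      _ = (2 : ℝ) ^ (j + 2) := by
        rw [← Real.rpow_natCast]
        congr 1
        push_cast
        ring
  calc (K : ℝ) * 2 ^ Real.sqrt (Real.logb 2 K) ≤ (K : ℝ) * 2 ^ (j + 2) :=
        mul_le_mul_of_nonneg_left hpow (by positivity)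
    _ ≤ 8 * ((q * n + r : ℕ) : ℝ) := by exact_mod_cast hnat

end Pool.Agent.GNU
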