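import Pool.Agent.Lib_helper58.GNU.Shim2

/-!
Block GAR: the Garside monoid of a presented system.
-/

set_option autoImplicit false

namespace Pool.Agent.GNU

theorem DistHyp.dual {O : Type} {D : O → O → ℤ} (h : DistHyp D) :
    DistHyp (fun a b => D b a) where
  self a := h.self a
  tri a b c := by have := h.tri c b a; linarith
  pos a b hab := by have := h.pos a b hab; linarith
  join a b s := by
    obtain ⟨q, t, ⟨h1, h2⟩, h3⟩ := h.meet a b (-s)
    refine ⟨q, -t, ⟨by linarith, by linarith⟩, fun c u h4 h5 => ?_⟩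
    have := h3 c (-u) (by linarith) (by linarith)
    linarith
  meet a b s := by
    obtain ⟨q, t, ⟨h1, h2⟩, h3⟩ := h.join a b (-s)
    refine ⟨q, -t, ⟨by linarith, by linarith⟩, fun c u h4 h5 => ?_⟩
    have := h3 c (-u) (by linarith) (by linarith)
    linarith

/-- The least upper bound property of a length function. -/
def LubP {H : Type} [Group H] (ℓ : H → ℤ) : Prop :=
  ∀ (h : H) (t : ℤ), ∃ (z : H) (s : ℤ), (ℓ z ≤ s ∧ ℓ (h⁻¹ * z) ≤ s - t) ∧
    ∀ k u, ℓ k ≤ u → ℓ (h⁻¹ * k) ≤ u - t → ℓ (z⁻¹ * k) ≤ u - s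

theorem LubP.lcm {H : Type} [Group H] {ℓ : H → ℤ} (hℓ : LubP ℓ) (h₁ h₂ : H) (t₁ t₂ : ℤ) :
    ∃ (m : H) (s : ℤ), (ℓ (h₁⁻¹ * m) ≤ s - t₁ ∧ ℓ (h₂⁻¹ * m) ≤ s - t₂) ∧
      ∀ k u, ℓ (h₁⁻¹ * k) ≤ u - t₁ → ℓ (h₂⁻¹ * k) ≤ u - t₂ → ℓ (m⁻¹ * k) ≤ u - s := by
  obtain ⟨z, s, ⟨h1, h2⟩, h3⟩ := hℓ (h₁⁻¹ * h₂) (t₂ - t₁)
  refine ⟨h₁ * z, t₁ + s, ⟨?_, ?_⟩, fun k u h4 h5 => ?_⟩
  · rw [inv_mul_cancel_left]; linarith
  · have e : (h₁⁻¹ * h₂)⁻¹ * z = h₂⁻¹ * (h₁ * z) := by group
    rw [← e]; linarith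
  · have := h3 (h₁⁻¹ * k) (u - t₁) h4 (by
      have e : (h₁⁻¹ * h₂)⁻¹ * (h₁⁻¹ * k) = h₂⁻¹ * k := by group
      rw [e]; linarith)
    have e : (h₁ * z)⁻¹ * k = z⁻¹ * (h₁⁻¹ * k) := by group
    rw [e]; linarith

theorem LubP.gcd {H : Type} [Group H] {ℓ : H → ℤ} (hℓ : LubP (fun h => ℓ h⁻¹)) (h₁ h₂ : H)
    (t₁ t₂ : ℤ) :
    ∃ (g : H) (r : ℤ), (ℓ (g⁻¹ * h₁) ≤ t₁ - r ∧ ℓ (g⁻¹ * h₂) ≤ t₂ - r) ∧
      ∀ k u, ℓ (k⁻¹ * h₁) ≤ t₁ - u → ℓ (k⁻¹ * h₂) ≤ t₂ - u → ℓ (k⁻¹ * g) ≤ r - u := by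
  obtain ⟨z, s, ⟨h1, h2⟩, h3⟩ := hℓ (h₁⁻¹ * h₂) (t₁ - t₂)
  refine ⟨h₁ * z, t₁ - s, ⟨?_, ?_⟩, fun k u h4 h5 => ?_⟩
  · have e : (h₁ * z)⁻¹ * h₁ = z⁻¹ := by group
    rw [e]
    have : ℓ z⁻¹ ≤ s := h1
    linarith
  · have e : (h₁ * z)⁻¹ * h₂ = ((h₁⁻¹ * h₂)⁻¹ * z)⁻¹ := by group
    rw [e]
    have : ℓ ((h₁⁻¹ * h₂)⁻¹ * z)⁻¹ ≤ s - (t₁ - t₂) := h2
    linarith
  · have h6 := h3 (h₁⁻¹ * k) (t₁ - u) (by
      have e : (h₁⁻¹ * k)⁻¹ = k⁻¹ * h₁ := by group
      show ℓ (h₁⁻¹ * k)⁻¹ ≤ t₁ - u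
      rw [e]; exact h4) (by
      have e : ((h₁⁻¹ * h₂)⁻¹ * (h₁⁻¹ * k))⁻¹ = k⁻¹ * h₂ := by group
      show ℓ ((h₁⁻¹ * h₂)⁻¹ * (h₁⁻¹ * k))⁻¹ ≤ t₁ - u - (t₁ - t₂)
      rw [e]; linarith)
    have h7 : ℓ (z⁻¹ * (h₁⁻¹ * k))⁻¹ ≤ t₁ - u - s := h6
    have e : (z⁻¹ * (h₁⁻¹ * k))⁻¹ = k⁻¹ * (h₁ * z) := by group
    rw [e] at h7
    linarith

section Len

variable {O : Type} (F : FG O) {D : O → O → ℤ}

theorem FG.lubP (hD : DistHyp D) : LubP (F.L D) := fun h t => F.exists_lub hD h t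

theorem FG.lubP_inv (hD : DistHyp D) : LubP (fun h => F.L D h⁻¹) := by
  have h1 : (fun h => F.L D h⁻¹) = F.L (fun a b => D b a) := by
    funext h; exact F.L_inv h
  rw [h1]
  exact F.lubP hD.dual

theorem FG.pr_ne_one (a b : O) (h : a ≠ b) : F.pr a b ≠ 1 := by
  intro h1
  have h2 := F.nf_prod [(a, b)] ⟨by simpa using h, by simp⟩
  have h3 := F.nf_prod [] ⟨by simp, by simp⟩
  simp only [List.map_cons, List.map_nil, List.prod_cons, List.prod_nil, mul_one] at h2 h3
  rw [h1, h3] at h2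
  simp at h2

theorem FG.nf_one : F.nf 1 = [] := by
  have h3 := F.nf_prod [] ⟨by simp, by simp⟩
  simpa using h3

theorem FG.eq_one_of_length (h : F.H) (hl : (F.nf h).length = 0) : h = 1 := by
  have h1 := F.prod_nf h
  rw [List.length_eq_zero_iff.1 hl] at h1
  simpa using h1.symm

/-- additive functional against the length -/
theorem FG.length_le_chi [Fintype O] (hD : DistHyp D) (χ : F.H → ℤ)
    (hχ : ∀ h k, χ (h * k) = χ h + χ k)
    (hχ' : ∀ a b, χ (F.pr a b) = (-∑ p, D p b) - (-∑ p, D p a)) (h : F.H) :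
    ((F.nf h).length : ℤ) ≤ (Fintype.card O) * F.L D h + χ h := by
  have h1 : χ 1 = 0 := by have := hχ 1 1; simp at this; exact this
  have key : ∀ l : List (O × O), (∀ p ∈ l, p.1 ≠ p.2) →
      (l.length : ℤ) ≤ (Fintype.card O) * cost D l + χ (l.map fun p => F.pr p.1 p.2).prod := by
    intro l
    induction l with
    | nil => intro _; simp [cost, h1]
    | cons p l ih =>
      intro hl
      have hl' := ih (fun q hq => hl q (List.mem_cons_of_mem _ hq))
      have hp : p.1 ≠ p.2 := hl p (List.mem_cons_self)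
      have h2 : (1 : ℤ) ≤ (Fintype.card O) * D p.1 p.2 + χ (F.pr p.1 p.2) := by
        have h3 : ((Fintype.card O : ℕ) : ℤ) * D p.1 p.2 + χ (F.pr p.1 p.2)
            = ∑ q, (D p.1 p.2 - D q p.2 + D q p.1) := by
          rw [hχ', Finset.sum_add_distrib, Finset.sum_sub_distrib]
          simp
          ring
        rw [h3]
        have h4 : (D p.1 p.2 - D p.2 p.2 + D p.2 p.1) ≤ ∑ q, (D p.1 p.2 - D q p.2 + D q p.1) := by
          refine Finset.single_le_sum (f := fun q => D p.1 p.2 - D q p.2 + D q p.1)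
            (fun q _ => ?_) (Finset.mem_univ p.2)
          have := hD.tri q p.1 p.2
          show 0 ≤ D p.1 p.2 - D q p.2 + D q p.1
          linarith
        have h5 := hD.pos p.1 p.2 hp
        have h6 := hD.self p.2
        linarith
      rw [List.map_cons, List.prod_cons, hχ]
      have h7 : cost D (p :: l) = D p.1 p.2 + cost D l := by simp [cost]
      rw [h7, List.length_cons, mul_add]
      push_cast
      linarith
  have h2 := key (F.nf h) (F.nf_NF h).1
  rw [F.prod_nf h] at h2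
  exact h2

end Len

section Mon

variable {O : Type} (F : FG O) {D : O → O → ℤ}

/-- The monoid `{(h, t) : L h ≤ t}`. -/
@[ext] structure GM {D : O → O → ℤ} (hD : DistHyp D) where
  h : F.H
  t : ℤ
  prop : F.L D h ≤ t

variable {F} {hD : DistHyp D}

theorem GM.ext' {x y : GM F hD} (h1 : x.h = y.h) (h2 : x.t = y.t) : x = y := GM.ext h1 h2

instance : Monoid (GM F hD) where
  mul x y := ⟨x.h * y.h, x.t + y.t, by
    have := F.L_mul hD.self hD.tri x.h y.h
    have h1 := x.prop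
    have h2 := y.prop
    linarith⟩
  one := ⟨1, 0, by rw [F.L_one]⟩
  mul_assoc x y z := GM.ext (mul_assoc x.h y.h z.h) (add_assoc x.t y.t z.t)
  one_mul x := GM.ext (one_mul x.h) (zero_add x.t)
  mul_one x := GM.ext (mul_one x.h) (add_zero x.t)

@[simp] theorem GM.h_mul (x y : GM F hD) : (x * y).h = x.h * y.h := rfl

@[simp] theorem GM.t_mul (x y : GM F hD) : (x * y).t = x.t + y.t := rfl

@[simp] theorem GM.h_one : (1 : GM F hD).h = 1 := rfl

@[simp] theorem GM.t_one : (1 : GM F hD).t = 0 := rfl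

theorem GM.dvd_iff (a m : GM F hD) : (∃ c, m = a * c) ↔ F.L D (a.h⁻¹ * m.h) ≤ m.t - a.t := by
  constructor
  · rintro ⟨c, rfl⟩
    have := c.prop
    simpa using this
  · intro h
    refine ⟨GM.mk (a.h⁻¹ * m.h) (m.t - a.t) h, GM.ext' ?_ ?_⟩
    · simp
    · simp

theorem GM.dvdR_iff (a m : GM F hD) : (∃ c, m = c * a) ↔ F.L D (m.h * a.h⁻¹) ≤ m.t - a.t := by
  constructor
  · rintro ⟨c, rfl⟩
    have := c.prop
    simpa using this
  · intro h
    refine ⟨GM.mk (m.h * a.h⁻¹) (m.t - a.t) h, GM.ext' ?_ ?_⟩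
    · simp
    · simp

/-- The Garside element. -/
def GM.d : GM F hD := GM.mk 1 1 (by rw [F.L_one]; norm_num)

@[simp] theorem GM.h_d : (GM.d : GM F hD).h = 1 := rfl

@[simp] theorem GM.t_d : (GM.d : GM F hD).t = 1 := rfl

theorem GM.pow_d (k : ℕ) : (GM.d : GM F hD) ^ k = GM.mk 1 k (by rw [F.L_one]; positivity) := by
  induction k with
  | zero => rw [pow_zero]; apply GM.ext' <;> simp
  | succ k ih => rw [pow_succ, ih]; apply GM.ext' <;> simp

theorem GM.exists_len [Fintype O] [Nonempty O] : ∃ len : GM F hD → ℕ,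
    (∀ a b, len (a * b) = len a + len b) ∧ ∀ a, len a = 0 → a = 1 := by
  obtain ⟨χ, hχ, hχ'⟩ := F.lift (fun b => -∑ p, D p b)
  have hkey := F.length_le_chi hD χ hχ hχ'
  have hc : (0 : ℤ) < Fintype.card O := by exact_mod_cast Fintype.card_pos
  have hnn : ∀ a : GM F hD, 0 ≤ (Fintype.card O) * a.t + χ a.h := by
    intro a
    have h1 := hkey a.h
    have h2 := a.prop
    have h3 : (Fintype.card O : ℤ) * F.L D a.h ≤ (Fintype.card O) * a.t :=
      mul_le_mul_of_nonneg_left h2 hc.le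
    have h4 : (0 : ℤ) ≤ ((F.nf a.h).length : ℤ) := by positivity
    linarith
  refine ⟨fun a => ((Fintype.card O) * a.t + χ a.h).toNat, ?_, ?_⟩
  · intro a b
    have ha := hnn a
    have hb := hnn b
    have hab := hnn (a * b)
    zify
    rw [Int.toNat_of_nonneg ha, Int.toNat_of_nonneg hb, Int.toNat_of_nonneg hab]
    rw [GM.h_mul, GM.t_mul, hχ]
    ring
  · intro a ha
    have h0 : (Fintype.card O) * a.t + χ a.h = 0 := by
      have h1 := hnn a
      have h2 : ((Fintype.card O) * a.t + χ a.h).toNat = 0 := ha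
      omega
    have h1 := hkey a.h
    have h2 := a.prop
    have h3 : (Fintype.card O : ℤ) * F.L D a.h ≤ (Fintype.card O) * a.t :=
      mul_le_mul_of_nonneg_left h2 hc.le
    have h4 : ((F.nf a.h).length : ℤ) = 0 := by
      have h4 : (0 : ℤ) ≤ ((F.nf a.h).length : ℤ) := by positivity
      linarith
    have h5 : a.h = 1 := F.eq_one_of_length a.h (by exact_mod_cast h4)
    have h6 : χ a.h = 0 := by
      rw [h5]; have := hχ 1 1; simp at this; exact this
    rw [h6, add_zero] at h0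
    have h7 : a.t = 0 := by
      rcases mul_eq_zero.1 h0 with h | h
      · omega
      · exact h
    exact GM.ext' h5 h7

theorem GM.len_prod {len : GM F hD → ℕ} (h1 : ∀ a b, len (a * b) = len a + len b)
    (h2 : ∀ a, len a = 0 → a = 1) (l : List (GM F hD)) (hl : ∀ a ∈ l, a ≠ 1) (hne : l ≠ []) :
    l.prod ≠ 1 := by
  have hone : len 1 = 0 := by have := h1 1 1; simp at this; exact this
  have key : ∀ l : List (GM F hD), (∀ a ∈ l, a ≠ 1) → l.length ≤ len l.prod := by
    intro l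
    induction l with
    | nil => intro _; simp
    | cons a l ih =>
      intro hl
      have h3 := ih (fun b hb => hl b (List.mem_cons_of_mem _ hb))
      have h4 : 1 ≤ len a := by
        by_contra h
        exact hl a List.mem_cons_self (h2 a (by omega))
      rw [List.prod_cons, h1, List.length_cons]
      omega
  intro h
  have h3 := key l hl
  rw [h, hone] at h3
  exact hne (List.length_eq_zero_iff.1 (by omega))

theorem GM.isGarside_aux (hD : DistHyp D) [Fintype O] [Nonempty O] :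
    IsGarside (GM F hD) GM.d := by
  have hcan1 : ∀ a b c : GM F hD, a * b = a * c → b = c := by
    intro a b c h
    have h1 := congrArg GM.h h
    have h2 := congrArg GM.t h
    simp only [GM.h_mul, GM.t_mul] at h1 h2
    exact GM.ext' (mul_left_cancel h1) (add_left_cancel h2)
  have hcan2 : ∀ a b c : GM F hD, b * a = c * a → b = c := by
    intro a b c h
    have h1 := congrArg GM.h h
    have h2 := congrArg GM.t h
    simp only [GM.h_mul, GM.t_mul] at h1 h2
    exact GM.ext' (mul_right_cancel h1) (add_right_cancel h2)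
  have hlub := F.lubP hD
  have hlub' := F.lubP_inv hD
  have hlub'' : LubP (fun h => F.L D (h⁻¹)⁻¹) := by simpa using hlub
  obtain ⟨len, hlen1, hlen2⟩ := GM.exists_len (F := F) (hD := hD)
  have hanti : ∀ g x : GM F hD, (∃ c, g = x * c) → (∃ c, x = g * c) → g = x := by
    rintro g x ⟨c, hc⟩ ⟨c', hc'⟩
    have h1 : x = x * (c * c') := by rw [← mul_assoc, ← hc, ← hc']
    have h2 : c * c' = 1 := hcan1 x _ _ (by rw [← h1, mul_one])
    have h3 : len (c * c') = 0 := by
      rw [h2]; have := hlen1 1 1; simp at this; exact this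
    rw [hlen1] at h3
    have h4 : c = 1 := hlen2 c (by omega)
    rw [hc, h4, mul_one]
  refine ⟨hcan1, hcan2, ⟨len, fun a b => (hlen1 a b).ge, hlen2⟩, ?_, ?_, ?_, ?_, ?_, ?_, ?_⟩
  · intro a b
    obtain ⟨m, s, ⟨h1, h2⟩, h3⟩ := hlub.lcm a.h b.h a.t b.t
    have hm : F.L D m ≤ s := by
      have h4 := F.L_mul hD.self hD.tri a.h (a.h⁻¹ * m)
      rw [mul_inv_cancel_left] at h4
      have := a.prop
      linarith
    refine ⟨GM.mk m s hm, (GM.dvd_iff _ _).2 (by simpa using h1),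
      (GM.dvd_iff _ _).2 (by simpa using h2), ?_⟩
    intro x hx1 hx2
    rw [GM.dvd_iff] at hx1 hx2 ⊢
    simpa using h3 x.h x.t hx1 hx2
  · intro a b
    obtain ⟨g, r, ⟨h1, h2⟩, h3⟩ := hlub'.gcd a.h b.h a.t b.t
    have hm : F.L D g ≤ r := by
      have h4 := h3 1 0 (by simpa using a.prop) (by simpa using b.prop)
      simpa using h4
    refine ⟨GM.mk g r hm, (GM.dvd_iff _ _).2 (by simpa using h1),
      (GM.dvd_iff _ _).2 (by simpa using h2), ?_⟩
    intro x hx1 hx2
    rw [GM.dvd_iff] at hx1 hx2 ⊢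
    simpa using h3 x.h x.t hx1 hx2
  · intro a b
    obtain ⟨m, s, ⟨h1, h2⟩, h3⟩ := hlub'.lcm a.h⁻¹ b.h⁻¹ a.t b.t
    have h1' : F.L D (m⁻¹ * a.h⁻¹) ≤ s - a.t := by
      have h4 : F.L D (a.h⁻¹⁻¹ * m)⁻¹ ≤ s - a.t := h1
      simpa using h4
    have h2' : F.L D (m⁻¹ * b.h⁻¹) ≤ s - b.t := by
      have h4 : F.L D (b.h⁻¹⁻¹ * m)⁻¹ ≤ s - b.t := h2
      simpa using h4
    have hm : F.L D m⁻¹ ≤ s := by
      have h4 := F.L_mul hD.self hD.tri (m⁻¹ * a.h⁻¹) a.h
      rw [inv_mul_cancel_right] at h4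
      have := a.prop
      linarith
    refine ⟨GM.mk m⁻¹ s hm, (GM.dvdR_iff _ _).2 (by simpa using h1'),
      (GM.dvdR_iff _ _).2 (by simpa using h2'), ?_⟩
    intro x hx1 hx2
    rw [GM.dvdR_iff] at hx1 hx2 ⊢
    have h4 : F.L D (m⁻¹ * x.h⁻¹)⁻¹ ≤ x.t - s := h3 x.h⁻¹ x.t
      (by show F.L D (a.h⁻¹⁻¹ * x.h⁻¹)⁻¹ ≤ x.t - a.t
          simpa using hx1)
      (by show F.L D (b.h⁻¹⁻¹ * x.h⁻¹)⁻¹ ≤ x.t - b.t
          simpa using hx2)
    simpa using h4
  · intro a b
    obtain ⟨g, r, ⟨h1, h2⟩, h3⟩ :=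
      LubP.gcd (ℓ := fun h => F.L D h⁻¹) hlub'' a.h⁻¹ b.h⁻¹ a.t b.t
    have h1' : F.L D (a.h * g) ≤ a.t - r := by
      have h4 : F.L D (g⁻¹ * a.h⁻¹)⁻¹ ≤ a.t - r := h1
      simpa using h4
    have h2' : F.L D (b.h * g) ≤ b.t - r := by
      have h4 : F.L D (g⁻¹ * b.h⁻¹)⁻¹ ≤ b.t - r := h2
      simpa using h4
    have hm : F.L D g⁻¹ ≤ r := by
      have h4 : F.L D (1⁻¹ * g)⁻¹ ≤ r - 0 := h3 1 0
        (by show F.L D (1⁻¹ * a.h⁻¹)⁻¹ ≤ a.t - 0
            simpa using a.prop)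
        (by show F.L D (1⁻¹ * b.h⁻¹)⁻¹ ≤ b.t - 0
            simpa using b.prop)
      simpa using h4
    refine ⟨GM.mk g⁻¹ r hm, (GM.dvdR_iff _ _).2 (by simpa using h1'),
      (GM.dvdR_iff _ _).2 (by simpa using h2'), ?_⟩
    intro x hx1 hx2
    rw [GM.dvdR_iff] at hx1 hx2 ⊢
    have h4 : F.L D (x.h⁻¹⁻¹ * g)⁻¹ ≤ r - x.t := h3 x.h⁻¹ x.t
      (by show F.L D (x.h⁻¹⁻¹ * a.h⁻¹)⁻¹ ≤ a.t - x.t
          simpa using hx1)
      (by show F.L D (x.h⁻¹⁻¹ * b.h⁻¹)⁻¹ ≤ b.t - x.t
          simpa using hx2)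
    simpa using h4
  · intro x
    constructor
    · rintro ⟨c, hc⟩
      refine ⟨c, ?_⟩
      have h1 := congrArg GM.h hc
      have h2 := congrArg GM.t hc
      simp only [GM.h_mul, GM.t_mul, GM.h_d, GM.t_d] at h1 h2
      apply GM.ext'
      · simp only [GM.h_mul, GM.h_d]
        rw [eq_comm, mul_eq_one_iff_eq_inv]
        exact eq_inv_of_mul_eq_one_right h1.symm
      · simp only [GM.t_mul, GM.t_d]; linarith
    · rintro ⟨c, hc⟩
      refine ⟨c, ?_⟩
      have h1 := congrArg GM.h hc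
      have h2 := congrArg GM.t hc
      simp only [GM.h_mul, GM.t_mul, GM.h_d, GM.t_d] at h1 h2
      apply GM.ext'
      · simp only [GM.h_mul, GM.h_d]
        rw [eq_comm, mul_eq_one_iff_eq_inv]
        exact eq_inv_of_mul_eq_one_right h1.symm
      · simp only [GM.t_mul, GM.t_d]; linarith
  · -- finiteness
    have hsub : {x : GM F hD | ∃ c, GM.d = x * c} ⊆
        (fun x : GM F hD => (x.h, x.t)) ⁻¹'
          (((insert (1 : F.H) (Set.range fun p : O × O => F.pr p.1 p.2)) ×ˢ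
            (⋃ p : O × O, Set.Icc (D p.1 p.2) (1 - D p.2 p.1)))) := by
      intro x hx
      rw [Set.mem_ofPred_eq, GM.dvd_iff] at hx
      have hx1 := x.prop
      simp only [GM.h_d, GM.t_d, mul_one] at hx
      have h1 := F.length_le hD.pos x.h
      have h2 : (F.nf x.h).length ≤ 1 := by
        have : ((F.nf x.h).length : ℤ) ≤ 1 := by linarith
        exact_mod_cast this
      rcases F.eq_of_length_le_one x.h h2 with h3 | ⟨a, b, hab, h3⟩
      · refine ⟨Or.inl h3, ?_⟩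
        rw [Set.mem_iUnion]
        obtain ⟨o⟩ := ‹Nonempty O›
        refine ⟨(o, o), ?_⟩
        show D o o ≤ x.t ∧ x.t ≤ 1 - D o o
        rw [hD.self]
        rw [h3, F.L_one] at hx1
        rw [h3, inv_one, F.L_one] at hx
        constructor <;> linarith
      · refine ⟨Or.inr ⟨(a, b), h3.symm⟩, ?_⟩
        rw [Set.mem_iUnion]
        refine ⟨(a, b), ?_⟩
        show D a b ≤ x.t ∧ x.t ≤ 1 - D b a
        rw [h3, F.L_pr hD.self] at hx1
        rw [h3, F.L_inv, F.L_pr (D := fun a b => D b a) (fun a => hD.self a)] at hx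
        constructor <;> linarith
    refine Set.Finite.subset (Set.Finite.preimage ?_ ?_) hsub
    · intro x _ y _ hxy
      have h1 : (x.h, x.t) = (y.h, y.t) := hxy
      exact GM.ext' (congrArg Prod.fst h1) (congrArg Prod.snd h1)
    · refine Set.Finite.prod ((Set.finite_range _).insert _) ?_
      exact Set.finite_iUnion fun p => Set.finite_Icc _ _
  · -- generation
    rw [eq_top_iff]
    intro x _
    have hkey : ∀ (i : ℕ), ∀ g : GM F hD, (∃ c, x = g * c) → (∃ c, (GM.d : GM F hD) ^ i = g * c) →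
        (∀ (k : F.H) (u : ℤ), F.L D (k⁻¹ * x.h) ≤ x.t - u → F.L D (k⁻¹ * 1) ≤ i - u →
          F.L D (k⁻¹ * g.h) ≤ g.t - u) →
        g ∈ Submonoid.closure {x : GM F hD | ∃ c, GM.d = x * c} := by
      intro i
      induction i with
      | zero =>
        intro g _ hg _
        rw [pow_zero] at hg
        have : g = 1 := hanti g 1 ⟨g, by rw [one_mul]⟩ hg
        rw [this]
        exact Submonoid.one_mem _
      | succ i ih =>
        intro g hg1 hg2 hg3
        obtain ⟨g', r, ⟨h1, h2⟩, h3⟩ := hlub'.gcd x.h 1 x.t i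
        have hm : F.L D g' ≤ r := by
          have h4 := h3 1 0 (by simpa using x.prop) (by rw [inv_one, one_mul, F.L_one]; simp)
          simpa using h4
        have hmem := ih (GM.mk g' r hm) ((GM.dvd_iff _ _).2 (by simpa using h1))
          ((GM.dvd_iff _ _).2 (by rw [GM.pow_d]; simpa using h2)) (by
            intro k u h4 h5
            simpa using h3 k u h4 h5)
        rw [GM.dvd_iff] at hg1 hg2
        rw [GM.pow_d] at hg2
        dsimp only at hg2
        push_cast at hg2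
        -- g' divides g
        have h5 : F.L D (g'⁻¹ * g.h) ≤ g.t - r := hg3 g' r h1 (by push_cast; linarith)
        -- g divides g' d
        have h6 : F.L D (g.h⁻¹ * g') ≤ r - (g.t - 1) := h3 g.h (g.t - 1) (by linarith)
          (by linarith)
        have h7 : g = GM.mk g' r hm * GM.mk (g'⁻¹ * g.h) (g.t - r) h5 := by
          apply GM.ext' <;> simp
        rw [h7]
        refine Submonoid.mul_mem _ hmem (Submonoid.subset_closure ?_)
        rw [Set.mem_ofPred_eq, GM.dvd_iff]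
        simp only [GM.h_d, GM.t_d, mul_inv_rev, inv_inv, mul_one]
        linarith
    -- x divides a power of d
    obtain ⟨n, hn⟩ : ∃ n : ℕ, F.L D (x.h⁻¹ * 1) ≤ n - x.t := by
      refine ⟨(F.L D (x.h⁻¹ * 1) + x.t).toNat, ?_⟩
      have := Int.self_le_toNat (F.L D (x.h⁻¹ * 1) + x.t)
      linarith
    refine hkey n x ⟨1, by rw [mul_one]⟩ ((GM.dvd_iff _ _).2 (by rw [GM.pow_d]; simpa using hn)) ?_
    intro k u h1 _
    exact h1

theorem GM.partial_prods [Fintype O] [Nonempty O] (n : ℕ) (f : Fin n → GM F hD)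
    (hf : ∀ i, f i ≠ 1) :
    ∃ g : ℕ → GM F hD, g 0 = 1 ∧ g n = (List.ofFn f).prod ∧
      ∀ i j, i < j → j ≤ n → ∃ c, c ≠ 1 ∧ g j = g i * c := by
  obtain ⟨len, hlen1, hlen2⟩ := GM.exists_len (F := F) (hD := hD)
  refine ⟨fun m => ((List.ofFn f).take m).prod, by simp, ?_, ?_⟩
  · show ((List.ofFn f).take n).prod = _
    rw [List.take_of_length_le (by simp)]
  · intro i j hij hj
    refine ⟨(((List.ofFn f).take j).drop i).prod, ?_, ?_⟩
    · refine GM.len_prod hlen1 hlen2 _ ?_ ?_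
      · intro a ha
        have h1 := List.mem_of_mem_take (List.mem_of_mem_drop ha)
        rw [List.mem_ofFn] at h1
        obtain ⟨i, rfl⟩ := h1
        exact hf i
      · intro h
        have h1 := congrArg List.length h
        simp at h1
        omega
    · show ((List.ofFn f).take j).prod = ((List.ofFn f).take i).prod * _
      rw [← List.prod_append]
      congr 1
      have h1 := List.take_append_drop i ((List.ofFn f).take j)
      rw [List.take_take, min_eq_left hij.le] at h1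
      exact h1.symm

theorem GM.bound {S : Sys} (R : S.Pres) (F : FG R.O) (n : ℕ) (f : Fin n → GM F R.hD)
    (hf : ∀ i, f i ≠ 1) (hprod : (List.ofFn f).prod = GM.d) : n ≤ 4 := by
  rcases Nat.lt_or_ge n 2 with hn | hn
  · omega
  obtain ⟨g, hg0, hgn, hg⟩ := GM.partial_prods n f hf
  rw [hprod] at hgn
  have hcan1 : ∀ a b c : GM F R.hD, a * b = a * c → b = c := (GM.isGarside_aux R.hD).1
  have hne : ∀ i j, i < j → j ≤ n → g i ≠ g j := by
    intro i j hij hj h
    obtain ⟨c, hc, h1⟩ := hg i j hij hj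
    apply hc
    apply hcan1 (g i)
    rw [← h1, mul_one, h]
  have hL : ∀ i j, i ≤ j → j ≤ n → F.L R.D ((g i).h⁻¹ * (g j).h) ≤ (g j).t - (g i).t := by
    intro i j hij hj
    rcases Nat.lt_or_ge i j with h | h
    · obtain ⟨c, _, h1⟩ := hg i j h hj
      exact (GM.dvd_iff _ _).1 ⟨c, h1⟩
    · have : i = j := le_antisymm hij h
      subst this
      rw [inv_mul_cancel, F.L_one, sub_self]
  have hLd : ∀ j, j ≤ n → F.L R.D ((g j).h⁻¹) ≤ 1 - (g j).t := by
    intro j hj
    have h1 := hL j n hj le_rfl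
    rw [hgn] at h1
    simpa using h1
  have hpr : ∀ i, 0 < i → i < n → ∃ a b, a ≠ b ∧ (g i).h = F.pr a b := by
    intro i hi hin
    have h1 := (g i).prop
    have h2 := hLd i hin.le
    have h3 := F.length_le R.hD.pos (g i).h
    have h4 : (F.nf (g i).h).length ≤ 1 := by
      have : ((F.nf (g i).h).length : ℤ) ≤ 1 := by linarith
      exact_mod_cast this
    rcases F.eq_of_length_le_one _ h4 with h5 | h5
    · exfalso
      rw [h5, F.L_one] at h1
      rw [h5, inv_one, F.L_one] at h2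
      have h6 : (g i).t = 0 ∨ (g i).t = 1 := by omega
      rcases h6 with h6 | h6
      · apply hne 0 i hi hin.le
        rw [hg0]
        exact GM.ext' (by rw [h5]; rfl) (by rw [h6]; rfl)
      · apply hne i n hin le_rfl
        rw [hgn]
        exact GM.ext' (by rw [h5]; rfl) (by rw [h6]; rfl)
    · exact h5
  obtain ⟨o, q1, ho, hg1⟩ := hpr 1 one_pos (by omega)
  have hp : ∀ i, i ≤ n → ∃ q, (g i).h = F.pr o q := by
    intro i hi
    rcases Nat.eq_zero_or_pos i with h | h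
    · refine ⟨o, ?_⟩
      rw [h, hg0, F.pr_self]; rfl
    rcases Nat.lt_or_ge i n with h' | h'
    · rcases Nat.lt_or_ge 1 i with h1 | h1
      · obtain ⟨a, b, hab, hgi⟩ := hpr i h h'
        have h2 := hL 1 i h1.le h'.le
        have h3 : F.L R.D ((g i).h⁻¹ * (g 1).h) ≤ 1 - (g i).t + (g 1).t := by
          have h4 := F.L_mul R.hD.self R.hD.tri (g i).h⁻¹ (g 1).h
          have h5 := hLd i h'.le
          have h6 := (g 1).prop
          linarith
        have h4 := F.length_le R.hD.pos ((g 1).h⁻¹ * (g i).h)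
        have h5 : ((g 1).h⁻¹ * (g i).h)⁻¹ = (g i).h⁻¹ * (g 1).h := by group
        rw [h5] at h4
        have h6 : ((F.nf ((g 1).h⁻¹ * (g i).h)).length : ℤ) ≤ 1 := by linarith
        have h7 : (F.pr o q1)⁻¹ = F.pr q1 o := by
          rw [inv_eq_iff_mul_eq_one, F.pr_mul, F.pr_self]
        rw [hg1, hgi, h7] at h6
        by_cases h8 : o = a
        · exact ⟨b, by rw [hgi, h8]⟩
        · have h9 := F.nf_two q1 o a b ho.symm hab h8
          rw [h9] at h6
          norm_num at h6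
      · have : i = 1 := by omega
        subst this
        exact ⟨q1, hg1⟩
    · have : i = n := le_antisymm hi h'
      subst this
      refine ⟨o, ?_⟩
      rw [hgn, F.pr_self]; rfl
  have hp' : ∀ i : ℕ, ∃ q, i ≤ n → (g i).h = F.pr o q := by
    intro i
    by_cases h : i ≤ n
    · obtain ⟨q, hq⟩ := hp i h
      exact ⟨q, fun _ => hq⟩
    · exact ⟨o, fun h' => absurd h' h⟩
  choose p hp using hp'
  have hprinv : ∀ a b, (F.pr a b)⁻¹ = F.pr b a := by
    intro a b
    rw [inv_eq_iff_mul_eq_one, F.pr_mul, F.pr_self]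
  have hpr_inj : ∀ a b, F.pr a b = 1 → a = b := by
    intro a b h
    by_contra h'
    exact F.pr_ne_one a b h' h
  have hle : ∀ i j, i ≤ j → j ≤ n → R.e.symm (p i, (g i).t) ≤ R.e.symm (p j, (g j).t) := by
    intro i j hij hj
    rw [R.le_iff, Equiv.apply_symm_apply, Equiv.apply_symm_apply]
    have h1 := hL i j hij hj
    rw [hp i (hij.trans hj), hp j hj, hprinv, F.pr_mul, F.L_pr R.hD.self] at h1
    exact h1
  have hinj : ∀ i j, i < j → j ≤ n → R.e.symm (p i, (g i).t) ≠ R.e.symm (p j, (g j).t) := by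
    intro i j hij hj h
    have h1 := R.e.symm.injective h
    have h2 : p i = p j := congrArg Prod.fst h1
    have h3 : (g i).t = (g j).t := congrArg Prod.snd h1
    apply hne i j hij hj
    refine GM.ext' ?_ h3
    rw [hp i (hij.le.trans hj), hp j hj, h2]
  have hp0 : p 0 = o := by
    have h1 := hp 0 (Nat.zero_le _)
    rw [hg0] at h1
    exact (hpr_inj _ _ h1.symm).symm
  have hpn : p n = o := by
    have h1 := hp n le_rfl
    rw [hgn] at h1
    exact (hpr_inj _ _ h1.symm).symm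
  have hφ : S.φ (R.e.symm (p 0, (g 0).t)) = R.e.symm (p n, (g n).t) := by
    apply R.e.injective
    rw [R.e_φ, Equiv.apply_symm_apply, Equiv.apply_symm_apply, hp0, hpn, hg0, hgn]
    simp
  classical
  have hcard := S.ht (R.e.symm (p 0, (g 0).t))
    ((Finset.range (n + 1)).image fun i => R.e.symm (p i, (g i).t)) ?_ ?_
  · rw [Finset.card_image_of_injOn, Finset.card_range] at hcard
    · omega
    · intro i hi j hj hij
      rw [Finset.coe_range, Set.mem_Iio] at hi hj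
      rcases lt_trichotomy i j with h | h | h
      · exact absurd hij (hinj i j h (by omega))
      · exact h
      · exact absurd hij.symm (hinj j i h (by omega))
  · intro a ha b hb _
    rw [Finset.coe_image, Set.mem_image] at ha hb
    obtain ⟨i, hi, rfl⟩ := ha
    obtain ⟨j, hj, rfl⟩ := hb
    rw [Finset.coe_range, Set.mem_Iio] at hi hj
    rcases le_total i j with h | h
    · exact Or.inl (hle i j h (by omega))
    · exact Or.inr (hle j i h (by omega))
  · intro a ha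
    rw [Finset.mem_image] at ha
    obtain ⟨i, hi, rfl⟩ := ha
    rw [Finset.mem_range] at hi
    refine ⟨hle 0 i (Nat.zero_le _) (by omega), ?_⟩
    rw [hφ]
    exact hle i n (by omega) le_rfl

theorem Sys.Pres.e_φ_pow {S : Sys} (R : S.Pres) (k : ℕ) (x : S.P) :
    R.e ((S.φ ^ k) x) = ((R.e x).1, (R.e x).2 + k) := by
  induction k with
  | zero => simp
  | succ k ih =>
    rw [pow_succ']
    have : (S.φ * S.φ ^ k) x = S.φ ((S.φ ^ k) x) := rfl
    rw [this, R.e_φ, ih]
    push_cast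
    simp only [Prod.mk.injEq, true_and]
    ring

theorem GM.exists_chain {S : Sys} (R : S.Pres) (F : FG R.O) (y : ℕ → S.P) (n : ℕ)
    (hy : ∀ i < n, y i < y (i + 1)) : ∃ f : Fin n → GM F R.hD, (∀ i, f i ≠ 1) ∧
      (List.ofFn f).prod.h = F.pr (R.e (y 0)).1 (R.e (y n)).1 ∧
      (List.ofFn f).prod.t = (R.e (y n)).2 - (R.e (y 0)).2 := by
  induction n with
  | zero =>
    refine ⟨fun i => i.elim0, fun i => i.elim0, ?_, ?_⟩
    · rw [F.pr_self]; simp
    · simp
  | succ n ih =>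
    obtain ⟨f, hf1, hf2, hf3⟩ := ih fun i hi => hy i (by omega)
    have hlt := hy n (by omega)
    have hle := (R.le_iff _ _).1 hlt.le
    let x : GM F R.hD := ⟨F.pr (R.e (y n)).1 (R.e (y (n + 1))).1,
      (R.e (y (n + 1))).2 - (R.e (y n)).2, by rw [F.L_pr R.hD.self]; exact hle⟩
    have hx : x ≠ 1 := by
      intro h
      have h1 : F.pr (R.e (y n)).1 (R.e (y (n + 1))).1 = 1 := congrArg GM.h h
      have h2 : (R.e (y (n + 1))).2 - (R.e (y n)).2 = 0 := congrArg GM.t h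
      have h3 : (R.e (y n)).1 = (R.e (y (n + 1))).1 := by
        by_contra h'
        exact F.pr_ne_one _ _ h' h1
      have h4 : R.e (y n) = R.e (y (n + 1)) := Prod.ext h3 (by linarith)
      exact hlt.ne (R.e.injective h4)
    have hprod : (List.ofFn (Fin.snoc f x : Fin (n + 1) → GM F R.hD)).prod =
        (List.ofFn f).prod * x := by
      rw [List.ofFn_succ']
      simp
    refine ⟨Fin.snoc f x, ?_, ?_, ?_⟩
    · intro i
      refine Fin.lastCases ?_ (fun j => ?_) i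
      · simpa using hx
      · simpa using hf1 j
    · rw [hprod, GM.h_mul, hf2]
      exact F.pr_mul _ _ _
    · rw [hprod, GM.t_mul, hf3]
      show _ + ((R.e (y (n + 1))).2 - (R.e (y n)).2) = _
      ring

end Mon

/-- The Garside monoid of a presented system. -/
theorem Sys.Pres.exists_garside_proof {S : Sys} (R : S.Pres) :
    ∃ (M : Type) (_ : Monoid M) (d : M), IsGarside M d ∧
      (∀ (n : ℕ) (f : Fin n → M), (∀ i, f i ≠ 1) → (List.ofFn f).prod = d → n ≤ 4) ∧
      ∀ (n k : ℕ) (y : ℕ → S.P), (∀ i < n, y i < y (i + 1)) → y n = (S.φ ^ k) (y 0) →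
        ∃ f : Fin n → M, (∀ i, f i ≠ 1) ∧ (List.ofFn f).prod = d ^ k := by
  obtain ⟨F⟩ := nonempty_FG R.O
  refine ⟨GM F R.hD, inferInstance, GM.d, GM.isGarside_aux R.hD, fun n f => GM.bound R F n f, ?_⟩
  intro n k y hy hyn
  obtain ⟨f, hf1, hf2, hf3⟩ := GM.exists_chain R F y n hy
  refine ⟨f, hf1, ?_⟩
  rw [GM.pow_d]
  rw [hyn, R.e_φ_pow] at hf2 hf3
  refine GM.ext' ?_ ?_
  · rw [hf2]; exact F.pr_self _
  · rw [hf3]
    show _ = (k : ℤ)
    ring

end Pool.Agent.GNU
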