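import Pool.Agent.Lib_helper58.GNU.Defs

/-!
Block HYPA: the hypotheses of insertion for step A and of the sequence construction.
-/

set_option autoImplicit false

namespace Pool.Agent.GNU

private theorem Sys.Good.map' {S : Sys} {x y : S.P} (h : S.Good x y) : S.Good (S.φ x) (S.φ y) := by
  obtain ⟨h1, z, hz1, hz2⟩ := h
  exact ⟨(apply_covBy_apply_iff S.φ).2 h1, S.φ z, S.φ.lt_iff_lt.2 hz1, S.φ.lt_iff_lt.2 hz2⟩

private theorem Sys.Good.map_symm' {S : Sys} {x y : S.P} (h : S.Good x y) :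
    S.Good (S.φ.symm x) (S.φ.symm y) := by
  obtain ⟨h1, z, hz1, hz2⟩ := h
  refine ⟨(apply_covBy_apply_iff S.φ.symm).2 h1, S.φ.symm z, S.φ.symm.lt_iff_lt.2 hz1, ?_⟩
  rw [OrderIso.apply_symm_apply]
  have := S.φ.symm.lt_iff_lt.2 hz2
  rwa [OrderIso.symm_apply_apply] at this

private theorem card_le_two {α : Type} (s : Finset α) (a b : α) (h : ∀ u ∈ s, u = a ∨ u = b) :
    s.card ≤ 2 := by
  classical
  have : s ⊆ {a, b} := by
    intro u hu
    rcases h u hu with rfl | rfl <;> simp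
  exact (Finset.card_le_card this).trans Finset.card_le_two

private theorem card_le_one {α : Type} (s : Finset α) (a : α) (h : ∀ u ∈ s, u = a) :
    s.card ≤ 1 := by
  classical
  have : s ⊆ {a} := by
    intro u hu
    rw [h u hu]; simp
  exact (Finset.card_le_card this).trans (by simp)

theorem insHyp_JA_proof (S : Sys) : InsHyp S S.JA := by
  refine ⟨?_, ?_, ?_, ?_, ?_⟩
  · rintro a b ⟨x, ⟨_, y, hy1, hy2⟩, rfl⟩
    exact hy1.trans hy2
  · rintro a b ⟨x, ⟨h, _⟩, rfl⟩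
    exact S.φ.monotone h.le
  · intro a b
    constructor
    · rintro ⟨x, hx, hb⟩
      refine ⟨S.φ.symm x, ?_, ?_⟩
      · have := hx.map_symm'
        rwa [OrderIso.symm_apply_apply] at this
      · rw [OrderIso.apply_symm_apply]
        exact S.φ.injective hb
    · rintro ⟨x, hx, rfl⟩
      exact ⟨S.φ x, hx.map', rfl⟩
  · rintro X a b ⟨x, ⟨hc, y, hy1, hy2⟩, rfl⟩ hXa hb s₁ s₂ _ _ h1 h2
    have hxX : x ≤ X := S.φ.le_iff_le.1 hb
    rcases hc.eq_or_eq hxX hXa with rfl | rfl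
    · have c1 : s₁.card ≤ 2 := card_le_two s₁ X a fun u hu =>
        hc.eq_or_eq (h1 u hu).1 (h1 u hu).2
      have c2 : s₂.card ≤ 1 := card_le_one s₂ (S.φ X) fun u hu =>
        le_antisymm (h2 u hu).2 (h2 u hu).1
      omega
    · have c1 : s₁.card ≤ 1 := card_le_one s₁ X fun u hu =>
        le_antisymm (h1 u hu).2 (h1 u hu).1
      have c2 : s₂.card ≤ 2 := card_le_two s₂ (S.φ x) (S.φ X) fun u hu =>
        ((apply_covBy_apply_iff S.φ).2 hc).eq_or_eq (h2 u hu).1 (h2 u hu).2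
      omega
  · rintro X a b c d ⟨x1, ⟨hc1, y1, hy11, hy12⟩, rfl⟩ ⟨x2, ⟨hc2, y2, hy21, hy22⟩, rfl⟩ hXa hbc hd
    have h1 : x2 ≤ X := S.φ.le_iff_le.1 hd
    have h2 : S.φ x2 ≤ S.φ a := S.φ.monotone (h1.trans hXa)
    exact ((apply_covBy_apply_iff S.φ).2 hc1).2 (hbc.trans_lt hy21) (hy22.trans_le h2)

theorem seqHyp_Z_proof {S : Sys} {J : S.P → S.P → Prop} (hJ : InsHyp S J) (A : InsExt S J) :
    SeqHyp A.T A.Z := by
  refine ⟨?_, ?_, ?_⟩
  · rintro u v ⟨a, b, h, huv⟩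
    exact A.sup_irr u v a b h huv
  · rintro u v ⟨a, b, h, huv⟩
    exact A.inf_irr u v a b h huv
  · intro u
    constructor
    · rintro ⟨a, b, h, hu⟩
      rcases A.cases u with ⟨x, rfl⟩ | ⟨c, d, h', rfl⟩
      · rw [A.φ_inl] at hu
        exact absurd hu (A.inl_ne_mid _ _ _ h)
      · exact ⟨c, d, h', rfl⟩
    · rintro ⟨a, b, h, rfl⟩
      exact ⟨S.φ a, S.φ b, (hJ.inv a b).2 h, A.φ_mid a b h ((hJ.inv a b).2 h)⟩

end Pool.Agent.GNU
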