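import Pool.Agent.Lib_helper58.GNU.Shim1

set_option autoImplicit false

namespace Pool.Agent.GNU

namespace HypD

section Window

variable {S : Sys} {Z : S.P → Prop} {N : ℕ} (Q : SeqExt S Z N)

lemma ev_add_mul (f : Q.T.P) (i q : ℤ) : Q.ev f (i + q * N) = (S.φ ^ q) (Q.ev f i) := by
  induction q using Int.induction_on with
  | zero => simp
  | succ n ih =>
    have h1 : i + ((n : ℤ) + 1) * N = (i + n * N) + N := by ring
    rw [h1, Q.per, ih, add_comm (n : ℤ) 1, zpow_one_add]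
    rfl
  | pred n ih =>
    have h1 : (i + (-(n : ℤ) - 1) * N) + N = i + -(n : ℤ) * N := by ring
    have h3 := Q.per f (i + (-(n : ℤ) - 1) * N)
    rw [h1, ih] at h3
    have h4 : S.φ ^ (-(n : ℤ)) = S.φ * S.φ ^ (-(n : ℤ) - 1) := by
      rw [← zpow_one_add]
      congr 1
      ring
    rw [h4] at h3
    exact (S.φ.injective h3).symm

lemma exists_window (hN : 0 < N) (j k : ℤ) : ∃ (r : ℕ) (q : ℤ), r < N ∧ k = (j + r) + q * N := by
  have hN' : (0 : ℤ) < N := by exact_mod_cast hN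
  refine ⟨((k - j) % N).toNat, (k - j) / N, ?_, ?_⟩
  · have h1 := Int.emod_lt_of_pos (k - j) hN'
    have h2 := Int.emod_nonneg (k - j) hN'.ne'
    omega
  · have h2 := Int.emod_nonneg (k - j) hN'.ne'
    rw [Int.toNat_of_nonneg h2]
    have h3 := Int.emod_add_mul_ediv (k - j) N
    linarith

lemma le_of_window (hN : 0 < N) (j : ℤ) (f g : Q.T.P)
    (h : ∀ i : ℕ, i < N → Q.ev f (j + i) ≤ Q.ev g (j + i)) : f ≤ g := by
  rw [Q.le]
  intro k
  obtain ⟨r, q, hr, hk⟩ := exists_window hN j k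
  rw [hk, ev_add_mul, ev_add_mul]
  exact (S.φ ^ q).monotone (h r hr)

lemma eq_of_window (hN : 0 < N) (j : ℤ) (f g : Q.T.P)
    (h : ∀ i : ℕ, i < N → Q.ev f (j + i) = Q.ev g (j + i)) : f = g :=
  le_antisymm (le_of_window Q hN j f g fun i hi => (h i hi).le)
    (le_of_window Q hN j g f fun i hi => (h i hi).ge)

end Window

section Strip

variable {S : Sys} (A : InsExt S S.JA)

lemma Z_zpow (u : A.T.P) (q : ℤ) : A.Z ((A.T.φ ^ q) u) ↔ A.Z u := by
  have hinv := (seqHyp_Z (insHyp_JA S) A).inv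
  induction q using Int.induction_on with
  | zero => simp
  | succ n ih =>
    rw [add_comm (n : ℤ) 1, zpow_one_add, RelIso.mul_apply, hinv]
    exact ih
  | pred n ih =>
    have h4 : A.T.φ ^ (-(n : ℤ)) = A.T.φ * A.T.φ ^ (-(n : ℤ) - 1) := by
      rw [← zpow_one_add]
      congr 1
      ring
    rw [h4, RelIso.mul_apply, hinv] at ih
    exact ih

lemma not_Z_inl (x : S.P) : ¬ A.Z (A.inl x) := by
  rintro ⟨a, b, h, e⟩
  exact A.inl_ne_mid x a b h e

lemma Z_mid (a b : S.P) (h : S.JA a b) : A.Z (A.mid a b h) := ⟨a, b, h, rfl⟩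

/-- nothing strictly between `inl a` and `mid a b` -/
lemma low_cover {a b : S.P} (h : S.JA a b) (u : A.T.P) (h1 : A.inl a ≤ u) (h2 : u ≤ A.mid a b h) :
    u = A.inl a ∨ u = A.mid a b h := by
  have hlt := (insHyp_JA S).lt
  rcases A.cases u with ⟨y, rfl⟩ | ⟨c, d, hcd, rfl⟩
  · rw [A.inl_le_inl] at h1
    rw [A.inl_le_mid] at h2
    left
    rw [le_antisymm h1 h2]
  · right
    rw [A.inl_le_mid] at h1
    rw [A.mid_le_mid] at h2
    rcases h2 with ⟨rfl, rfl⟩ | h2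
    · rfl
    · exact absurd ((hlt c d hcd).trans_le (h2.trans h1)) (lt_irrefl _)

/-- nothing strictly between `mid a b` and `inl b` -/
lemma high_cover {a b : S.P} (h : S.JA a b) (u : A.T.P) (h1 : A.mid a b h ≤ u)
    (h2 : u ≤ A.inl b) : u = A.mid a b h ∨ u = A.inl b := by
  have hlt := (insHyp_JA S).lt
  rcases A.cases u with ⟨y, rfl⟩ | ⟨c, d, hcd, rfl⟩
  · rw [A.mid_le_inl] at h1
    rw [A.inl_le_inl] at h2
    right
    rw [le_antisymm h1 h2]
  · left
    rw [A.mid_le_inl] at h2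
    rw [A.mid_le_mid] at h1
    rcases h1 with ⟨rfl, rfl⟩ | h1
    · rfl
    · exact absurd ((hlt c d hcd).trans_le (h2.trans h1)) (lt_irrefl _)

variable {N : ℕ} (Q : SeqExt A.T A.Z N)

lemma strip_shift {x x' : S.P} {h : S.JA x' (S.φ x)} {j : ℤ} {b : ℕ} {f : Q.T.P} :
    IsStrip A N Q x x' h (j - 1) b (Q.T.φ f) ↔ IsStrip A N Q x x' h j b f := by
  unfold IsStrip
  have h1 : ∀ i : ℤ, Q.ev (Q.T.φ f) (j - 1 + i) = Q.ev f (j + i) := by
    intro i
    rw [Q.shift]
    congr 1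
    ring
  simp only [h1]

/-- the data of a `JD` pair in a convenient form -/
structure Data (f g : Q.T.P) (x x' : S.P) (h : S.JA x' (S.φ x)) (j : ℤ) (M : ℕ) : Prop where
  hNM : N = M + 2
  xx' : x ≤ x'
  flt : f ≠ g
  fle : f ≤ g
  gle : g ≤ Q.T.φ f
  eq_low : ∀ i : ℕ, i < M → Q.ev g (j + i) = Q.ev (Q.T.φ f) (j + i)
  low_nz : ∀ i : ℕ, i < M → ¬ A.Z (Q.ev g (j + i))
  gM : Q.ev g (j + M) = A.inl x'
  gM1 : Q.ev g (j + (M + 1)) = A.mid x' (S.φ x) h
  pM : Q.ev (Q.T.φ f) (j + M) = A.mid x' (S.φ x) h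
  pM1 : Q.ev (Q.T.φ f) (j + (M + 1)) = A.inl (S.φ x)
  fz : Q.ev f (j + (M + 1)) = A.mid x' (S.φ x) h

lemma data_of_JD (hN : 2 ≤ N) {f g : Q.T.P} (h : JD A N Q f g) :
    ∃ (x x' : S.P) (h : S.JA x' (S.φ x)) (j : ℤ) (M : ℕ), Data A Q f g x x' h j M := by
  obtain ⟨x, x', hgood, hJ, j, b, hb, ⟨hf1, hf2, hf3⟩, ⟨hg1, hg2, hg3⟩⟩ := h
  obtain ⟨M, rfl⟩ : ∃ M, N = M + 2 := ⟨N - 2, by omega⟩
  have hxx' : x < x' := hgood.1.lt
  have hcast : ((M + 2 : ℕ) : ℤ) - 1 = (M : ℤ) + 1 := by push_cast; ring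
  rw [hcast] at hf3 hg3
  have hcomp : A.inl x' ≤ A.mid x' (S.φ x) hJ := (A.inl_le_mid _ _ _ _).2 le_rfl
  have hcomp2 : A.mid x' (S.φ x) hJ ≤ A.inl (S.φ x) := (A.mid_le_inl _ _ _ _).2 le_rfl
  have hcomp3 : A.inl x ≤ A.inl x' := (A.inl_le_inl _ _).2 hxx'.le
  -- values of g below
  have eq_low : ∀ i : ℕ, i < M → Q.ev g (j + i) = Q.ev (Q.T.φ f) (j + i) := by
    intro i hi
    rw [Q.shift, add_assoc]
    have h1 : j + ((i : ℤ) + 1) = j + ((i + 1 : ℕ) : ℤ) := by push_cast; ring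
    rw [h1]
    by_cases h2 : i + (b + 1) + 1 < M + 2
    · rw [hg1 i h2, hf1 (i + 1) (by omega)]
    · rw [hg2 i (by omega) (by omega), hf2 (i + 1) (by omega) (by omega)]
  have low_nz : ∀ i : ℕ, i < M → ¬ A.Z (Q.ev g (j + i)) := by
    intro i hi
    by_cases h2 : i + (b + 1) + 1 < M + 2
    · rw [hg1 i h2]
      exact not_Z_inl A _
    · rw [hg2 i (by omega) (by omega)]
      exact not_Z_inl A _
  have gM : Q.ev g (j + M) = A.inl x' := hg2 M (by omega) (by omega)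
  have pM : Q.ev (Q.T.φ f) (j + M) = A.mid x' (S.φ x) hJ := by
    rw [Q.shift, add_assoc]
    exact hf3
  have pM1 : Q.ev (Q.T.φ f) (j + (M + 1)) = A.inl (S.φ x) := by
    rw [Q.shift]
    have h1 : j + ((M : ℤ) + 1) + 1 = j + ((0 : ℕ) : ℤ) + ((M + 2 : ℕ) : ℤ) := by push_cast; ring
    rw [h1, Q.per, hf1 0 (by omega), A.φ_inl]
  have fle : f ≤ g := by
    apply le_of_window Q (by omega) j
    intro i hi
    by_cases h1 : i + (b + 1) + 1 < M + 2
    · rw [hf1 i (by omega), hg1 i h1]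
    · by_cases h2 : i + 1 < M + 2
      · rw [hg2 i (by omega) h2]
        by_cases h3 : i + b + 1 < M + 2
        · rw [hf1 i h3]
          exact hcomp3
        · rw [hf2 i (by omega) h2]
      · have h3 : (i : ℤ) = (M : ℤ) + 1 := by
          have : i = M + 1 := by omega
          rw [this]; push_cast; ring
        rw [h3, hf3, hg3]
  have hne : f ≠ g := by
    rintro rfl
    have h1 := hf1 (M - b) (by omega)
    have h2 := hg2 (M - b) (by omega) (by omega)
    rw [h1] at h2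
    have h3 : x' ≤ x := (A.inl_le_inl _ _).1 h2.ge
    exact absurd (hxx'.trans_le h3) (lt_irrefl _)
  have gle : g ≤ Q.T.φ f := by
    apply le_of_window Q (by omega) j
    intro i hi
    by_cases h1 : i < M
    · exact (eq_low i h1).le
    · by_cases h2 : i = M
      · rw [h2, gM, pM]
        exact hcomp
      · have h3 : (i : ℤ) = (M : ℤ) + 1 := by
          have : i = M + 1 := by omega
          rw [this]; push_cast; ring
        rw [h3, hg3, pM1]
        exact hcomp2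
  exact ⟨x, x', hJ, j, M, ⟨rfl, hxx'.le, hne, fle, gle, eq_low, low_nz, gM, hg3, pM, pM1, hf3⟩⟩

variable {A Q}

/-- description of the elements of `[g, shift f]` -/
lemma Data.mem {f g : Q.T.P} {x x' : S.P} {h : S.JA x' (S.φ x)} {j : ℤ} {M : ℕ}
    (D : Data A Q f g x x' h j M) {u : Q.T.P} (h1 : g ≤ u) (h2 : u ≤ Q.T.φ f) :
    (∀ i : ℕ, i < M → Q.ev u (j + i) = Q.ev g (j + i)) ∧
    (Q.ev u (j + M) = A.inl x' ∨ Q.ev u (j + M) = A.mid x' (S.φ x) h) ∧
    (Q.ev u (j + (M + 1)) = A.mid x' (S.φ x) h ∨ Q.ev u (j + (M + 1)) = A.inl (S.φ x)) ∧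
    ¬ (Q.ev u (j + M) = A.mid x' (S.φ x) h ∧ Q.ev u (j + (M + 1)) = A.mid x' (S.φ x) h) := by
  rw [Q.le] at h1 h2
  refine ⟨?_, ?_, ?_, ?_⟩
  · intro i hi
    apply le_antisymm _ (h1 _)
    rw [D.eq_low i hi]
    exact h2 _
  · apply low_cover A h
    · rw [← D.gM]; exact h1 _
    · rw [← D.pM]; exact h2 _
  · apply high_cover A h
    · rw [← D.gM1]; exact h1 _
    · rw [← D.pM1]; exact h2 _
  · rintro ⟨h3, h4⟩
    have h5 : A.Z (Q.ev u (j + M)) := by
      rw [h3]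
      exact Z_mid A _ _ _
    apply Q.nz u (j + M) h5
    rw [add_assoc, h3, h4]

lemma Data.ext {f g : Q.T.P} {x x' : S.P} {h : S.JA x' (S.φ x)} {j : ℤ} {M : ℕ}
    (D : Data A Q f g x x' h j M) {u v : Q.T.P} (h1 : g ≤ u) (h2 : u ≤ Q.T.φ f)
    (h3 : g ≤ v) (h4 : v ≤ Q.T.φ f) (h5 : Q.ev u (j + M) = Q.ev v (j + M))
    (h6 : Q.ev u (j + (M + 1)) = Q.ev v (j + (M + 1))) : u = v := by
  have hN := D.hNM
  apply eq_of_window Q (by omega) j
  intro i hi
  by_cases h7 : i < M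
  · rw [(D.mem h1 h2).1 i h7, (D.mem h3 h4).1 i h7]
  · by_cases h8 : i = M
    · rw [h8, h5]
    · have h9 : (i : ℤ) = (M : ℤ) + 1 := by
        have : i = M + 1 := by omega
        rw [this]; push_cast; ring
      rw [h9, h6]

/-- at most three elements -/
lemma Data.card_le {f g : Q.T.P} {x x' : S.P} {h : S.JA x' (S.φ x)} {j : ℤ} {M : ℕ}
    (D : Data A Q f g x x' h j M) (s : Finset Q.T.P) (hs : ∀ u ∈ s, g ≤ u ∧ u ≤ Q.T.φ f) :
    s.card ≤ 3 := by
  classical
  let c : Q.T.P → ℕ := fun u => if Q.ev u (j + M) = A.mid x' (S.φ x) h then 2 else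
    if Q.ev u (j + (M + 1)) = A.mid x' (S.φ x) h then 0 else 1
  have hc : ∀ u, c u ∈ Finset.range 3 := by
    intro u
    simp only [c, Finset.mem_range]
    split_ifs <;> omega
  have hinj : Set.InjOn c (s : Set Q.T.P) := by
    intro u hu v hv huv
    obtain ⟨hu1, hu2⟩ := hs u hu
    obtain ⟨hv1, hv2⟩ := hs v hv
    obtain ⟨_, hu4, hu5, hu6⟩ := D.mem hu1 hu2
    obtain ⟨_, hv4, hv5, hv6⟩ := D.mem hv1 hv2
    have hne1 : A.inl x' ≠ A.mid x' (S.φ x) h := A.inl_ne_mid _ _ _ _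
    have hne2 : A.inl (S.φ x) ≠ A.mid x' (S.φ x) h := A.inl_ne_mid _ _ _ _
    have cval : ∀ w, (Q.ev w (j + M) = A.inl x' ∨ Q.ev w (j + M) = A.mid x' (S.φ x) h) →
        (Q.ev w (j + (M + 1)) = A.mid x' (S.φ x) h ∨ Q.ev w (j + (M + 1)) = A.inl (S.φ x)) →
        ¬ (Q.ev w (j + M) = A.mid x' (S.φ x) h ∧ Q.ev w (j + (M + 1)) = A.mid x' (S.φ x) h) →
        (c w = 0 ∧ Q.ev w (j + M) = A.inl x' ∧ Q.ev w (j + (M + 1)) = A.mid x' (S.φ x) h) ∨
        (c w = 1 ∧ Q.ev w (j + M) = A.inl x' ∧ Q.ev w (j + (M + 1)) = A.inl (S.φ x)) ∨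
        (c w = 2 ∧ Q.ev w (j + M) = A.mid x' (S.φ x) h ∧
          Q.ev w (j + (M + 1)) = A.inl (S.φ x)) := by
      intro w h4 h5 h6
      rcases h4 with e1 | e1 <;> rcases h5 with e2 | e2
      · left
        refine ⟨?_, e1, e2⟩
        simp only [c]
        rw [e1, e2, if_neg hne1, if_pos rfl]
      · right; left
        refine ⟨?_, e1, e2⟩
        simp only [c]
        rw [e1, e2, if_neg hne1, if_neg hne2]
      · exact absurd ⟨e1, e2⟩ h6
      · right; right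
        refine ⟨?_, e1, e2⟩
        simp only [c]
        rw [e1, if_pos rfl]
    apply D.ext hu1 hu2 hv1 hv2
    · rcases cval u hu4 hu5 hu6 with ⟨a1, a2, a3⟩ | ⟨a1, a2, a3⟩ | ⟨a1, a2, a3⟩ <;>
      rcases cval v hv4 hv5 hv6 with ⟨b1, b2, b3⟩ | ⟨b1, b2, b3⟩ | ⟨b1, b2, b3⟩ <;>
      first
      | exact a2.trans b2.symm
      | (exfalso; omega)
    · rcases cval u hu4 hu5 hu6 with ⟨a1, a2, a3⟩ | ⟨a1, a2, a3⟩ | ⟨a1, a2, a3⟩ <;>
      rcases cval v hv4 hv5 hv6 with ⟨b1, b2, b3⟩ | ⟨b1, b2, b3⟩ | ⟨b1, b2, b3⟩ <;>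
      first
      | exact a3.trans b3.symm
      | (exfalso; omega)
  calc s.card = (s.image c).card := (Finset.card_image_of_injOn hinj).symm
    _ ≤ (Finset.range 3).card := Finset.card_le_card (by
        intro y hy
        obtain ⟨u, _, rfl⟩ := Finset.mem_image.1 hy
        exact hc u)
    _ = 3 := Finset.card_range 3

end Strip

end HypD

open HypD in
theorem insHyp_JD_proof (S : Sys) (A : InsExt S S.JA) (N : ℕ) (hN : 2 ≤ N)
    (Q : SeqExt A.T A.Z N) : InsHyp Q.T (JD A N Q) where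
  lt := by
    intro f g hfg
    obtain ⟨x, x', h, j, M, D⟩ := data_of_JD A Q hN hfg
    exact lt_of_le_of_ne D.fle D.flt
  le := by
    intro f g hfg
    obtain ⟨x, x', h, j, M, D⟩ := data_of_JD A Q hN hfg
    exact D.gle
  inv := by
    intro f g
    constructor
    · rintro ⟨x, x', hg, h, j, b, hb, h1, h2⟩
      refine ⟨x, x', hg, h, j + 1, b, hb, ?_, ?_⟩
      · rw [← strip_shift, add_sub_cancel_right]; exact h1
      · rw [← strip_shift, add_sub_cancel_right]; exact h2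
    · rintro ⟨x, x', hg, h, j, b, hb, h1, h2⟩
      exact ⟨x, x', hg, h, j - 1, b, hb, (strip_shift A Q).2 h1, (strip_shift A Q).2 h2⟩
  H1 := by
    classical
    intro X f g hfg hX hg s₁ s₂ hc1 hc2 hs1 hs2
    obtain ⟨x, x', h, j, M, D⟩ := data_of_JD A Q hN hfg
    have hcard := D.card_le (s₂ ∪ s₁.map Q.T.φ.toEquiv.toEmbedding) (by
      intro u hu
      rcases Finset.mem_union.1 hu with hu | hu
      · exact ⟨(hs2 u hu).1, (hs2 u hu).2.trans (Q.T.φ.monotone hX)⟩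
      · obtain ⟨v, hv, rfl⟩ := Finset.mem_map.1 hu
        exact ⟨hg.trans (Q.T.φ.monotone (hs1 v hv).1), Q.T.φ.monotone (hs1 v hv).2⟩)
    have hinter : (s₂ ∩ s₁.map Q.T.φ.toEquiv.toEmbedding).card ≤ 1 := by
      rw [Finset.card_le_one]
      intro u hu v hv
      have key : ∀ w ∈ s₂ ∩ s₁.map Q.T.φ.toEquiv.toEmbedding, w = Q.T.φ X := by
        intro w hw
        obtain ⟨hw1, hw2⟩ := Finset.mem_inter.1 hw
        obtain ⟨v, hv, rfl⟩ := Finset.mem_map.1 hw2
        exact le_antisymm (hs2 _ hw1).2 (Q.T.φ.monotone (hs1 v hv).1)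
      rw [key u hu, key v hv]
    have := Finset.card_union_add_card_inter s₂ (s₁.map Q.T.φ.toEquiv.toEmbedding)
    rw [Finset.card_map] at this
    omega
  H2 := by
    intro X f g c d hfg hcd hX hgc hdX
    obtain ⟨x, x', h, j, M, D⟩ := data_of_JD A Q hN hfg
    obtain ⟨y, y', h', j', M', E⟩ := data_of_JD A Q hN hcd
    have hcd' : c ≤ d := E.fle
    have hd2 : d ≤ Q.T.φ f := hdX.trans (Q.T.φ.monotone hX)
    have hc2 : c ≤ Q.T.φ f := hcd'.trans hd2
    have hd1 : g ≤ d := hgc.trans hcd'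
    have hNM := D.hNM
    have hZc : A.Z (Q.ev c (j' + (M' + 1))) := by
      rw [E.fz]; exact Z_mid A _ _ _
    have hZd : A.Z (Q.ev d (j' + (M' + 1))) := by
      rw [E.gM1]; exact Z_mid A _ _ _
    obtain ⟨r, q, hr, hk⟩ := exists_window (N := N) (by omega) j (j' + (M' + 1))
    rw [hk, ev_add_mul, Z_zpow] at hZc hZd
    obtain ⟨hc3, hc4, hc5, hc6⟩ := D.mem hgc hc2
    obtain ⟨hd3, hd4, hd5, hd6⟩ := D.mem hd1 hd2
    apply E.flt
    have hr1 : ¬ r < M := by
      intro hrM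
      rw [hc3 r hrM] at hZc
      exact D.low_nz r hrM hZc
    by_cases hr2 : r = M
    · subst hr2
      have e1 : Q.ev c (j + r) = A.mid x' (S.φ x) h := by
        rcases hc4 with e | e
        · rw [e] at hZc
          exact absurd hZc (not_Z_inl A _)
        · exact e
      have e2 : Q.ev d (j + r) = A.mid x' (S.φ x) h := by
        rcases hd4 with e | e
        · rw [e] at hZd
          exact absurd hZd (not_Z_inl A _)
        · exact e
      have e3 : Q.ev c (j + (r + 1)) = A.inl (S.φ x) := by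
        rcases hc5 with e | e
        · exact absurd ⟨e1, e⟩ hc6
        · exact e
      have e4 : Q.ev d (j + (r + 1)) = A.inl (S.φ x) := by
        rcases hd5 with e | e
        · exact absurd ⟨e2, e⟩ hd6
        · exact e
      exact D.ext hgc hc2 hd1 hd2 (e1.trans e2.symm) (e3.trans e4.symm)
    · have hr3 : (r : ℤ) = (M : ℤ) + 1 := by
        have : r = M + 1 := by omega
        rw [this]; push_cast; ring
      rw [hr3] at hZc hZd
      have e3 : Q.ev c (j + (M + 1)) = A.mid x' (S.φ x) h := by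
        rcases hc5 with e | e
        · exact e
        · rw [e] at hZc
          exact absurd hZc (not_Z_inl A _)
      have e4 : Q.ev d (j + (M + 1)) = A.mid x' (S.φ x) h := by
        rcases hd5 with e | e
        · exact e
        · rw [e] at hZd
          exact absurd hZd (not_Z_inl A _)
      have e1 : Q.ev c (j + M) = A.inl x' := by
        rcases hc4 with e | e
        · exact e
        · exact absurd ⟨e, e3⟩ hc6
      have e2 : Q.ev d (j + M) = A.inl x' := by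
        rcases hd4 with e | e
        · exact e
        · exact absurd ⟨e, e4⟩ hd6
      exact D.ext hgc hc2 hd1 hd2 (e1.trans e2.symm) (e3.trans e4.symm)

end Pool.Agent.GNU
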