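import Pool.Agent.Lib_helper58.GNU.Shim1

/-!
Block INS: the system obtained by inserting one element below each pair of a relation.
-/

set_option autoImplicit false

namespace Pool.Agent.GNU

namespace Ins

/-- The underlying type of the insertion. -/
inductive IP (S : Sys) (J : S.P → S.P → Prop) : Type
  | inl (x : S.P) : IP S J
  | mid (a b : S.P) (h : J a b) : IP S J

variable {S : Sys} {J : S.P → S.P → Prop}

/-- Lower end. -/
def lo : IP S J → S.P
  | .inl x => x
  | .mid a _ _ => a

/-- Upper end. -/
def up : IP S J → S.P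
  | .inl x => x
  | .mid _ b _ => b

@[simp] theorem lo_inl (x : S.P) : lo (IP.inl x : IP S J) = x := rfl
@[simp] theorem up_inl (x : S.P) : up (IP.inl x : IP S J) = x := rfl
@[simp] theorem lo_mid (a b : S.P) (h : J a b) : lo (IP.mid a b h : IP S J) = a := rfl
@[simp] theorem up_mid (a b : S.P) (h : J a b) : up (IP.mid a b h : IP S J) = b := rfl

theorem lo_le_up (hJ : InsHyp S J) (u : IP S J) : lo u ≤ up u := by
  cases u with
  | inl x => exact le_rfl
  | mid a b h => exact (hJ.lt a b h).le

theorem up_le_lo (hJ : InsHyp S J) (u : IP S J) : up u ≤ S.φ (lo u) := by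
  cases u with
  | inl x => exact (S.lt_φ x).le
  | mid a b h => exact hJ.le a b h

theorem ext' (hJ : InsHyp S J) {u v : IP S J} (h1 : lo u = lo v) (h2 : up u = up v) : u = v := by
  cases u with
  | inl x =>
    cases v with
    | inl y => simp only [lo_inl] at h1; rw [h1]
    | mid a b h =>
      exfalso
      simp only [lo_inl, lo_mid, up_inl, up_mid] at h1 h2
      have := hJ.lt a b h
      rw [← h1, ← h2] at this
      exact lt_irrefl _ this
  | mid a b h =>
    cases v with
    | inl y =>
      exfalso
      simp only [lo_inl, lo_mid, up_inl, up_mid] at h1 h2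
      have := hJ.lt a b h
      rw [h1, h2] at this
      exact lt_irrefl _ this
    | mid c d h' =>
      simp only [lo_mid, up_mid] at h1 h2
      subst h1
      subst h2
      rfl

theorem eq_inl_of (hJ : InsHyp S J) {u : IP S J} (h : up u ≤ lo u) : u = IP.inl (lo u) := by
  apply ext' hJ
  · rfl
  · exact le_antisymm h (lo_le_up hJ u)

/-- The order of the insertion. -/
def ile (u v : IP S J) : Prop := u = v ∨ up u ≤ lo v

open Classical in
/-- The lattice structure of the insertion. -/
@[reducible] noncomputable def latt (hJ : InsHyp S J) : Lattice (IP S J) where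
  le := ile
  le_refl u := Or.inl rfl
  le_trans u v w h1 h2 := by
    rcases h1 with h1 | h1
    · rw [h1]; exact h2
    · rcases h2 with h2 | h2
      · rw [← h2]; exact Or.inr h1
      · exact Or.inr ((h1.trans (lo_le_up hJ v)).trans h2)
  le_antisymm u v h1 h2 := by
    rcases h1 with h1 | h1
    · exact h1
    · rcases h2 with h2 | h2
      · exact h2.symm
      · have hv : up v ≤ lo v := (h2.trans (lo_le_up hJ u)).trans h1
        have hu : up u ≤ lo u := (h1.trans (lo_le_up hJ v)).trans h2
        rw [eq_inl_of hJ hu, eq_inl_of hJ hv]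
        congr 1
        exact le_antisymm ((lo_le_up hJ u).trans h1) ((lo_le_up hJ v).trans h2)
  sup u v := if ile u v then v else if ile v u then u else IP.inl (up u ⊔ up v)
  inf u v := if ile u v then u else if ile v u then v else IP.inl (lo u ⊓ lo v)
  le_sup_left u v := by
    show ile u (if ile u v then v else if ile v u then u else IP.inl (up u ⊔ up v))
    split_ifs with h1 h2
    · exact h1
    · exact Or.inl rfl
    · exact Or.inr le_sup_left
  le_sup_right u v := by
    show ile v (if ile u v then v else if ile v u then u else IP.inl (up u ⊔ up v))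
    split_ifs with h1 h2
    · exact Or.inl rfl
    · exact h2
    · exact Or.inr le_sup_right
  sup_le u v w hu hv := by
    show ile (if ile u v then v else if ile v u then u else IP.inl (up u ⊔ up v)) w
    split_ifs with h1 h2
    · exact hv
    · exact hu
    · rcases hu with hu | hu
      · exact absurd (hu ▸ hv) h2
      · rcases hv with hv | hv
        · exact absurd (Or.inr (hv ▸ hu)) h1
        · exact Or.inr (sup_le hu hv)
  inf_le_left u v := by
    show ile (if ile u v then u else if ile v u then v else IP.inl (lo u ⊓ lo v)) u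
    split_ifs with h1 h2
    · exact Or.inl rfl
    · exact h2
    · exact Or.inr inf_le_left
  inf_le_right u v := by
    show ile (if ile u v then u else if ile v u then v else IP.inl (lo u ⊓ lo v)) v
    split_ifs with h1 h2
    · exact h1
    · exact Or.inl rfl
    · exact Or.inr inf_le_right
  le_inf w u v hu hv := by
    show ile w (if ile u v then u else if ile v u then v else IP.inl (lo u ⊓ lo v))
    split_ifs with h1 h2
    · exact hu
    · exact hv
    · rcases hu with hu | hu
      · exact absurd (hu ▸ hv) h1
      · rcases hv with hv | hv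
        · exact absurd (Or.inr (hv ▸ hu)) h2
        · exact Or.inr (le_inf hu hv)

theorem le_iff (hJ : InsHyp S J) (u v : IP S J) :
    (latt hJ).le u v ↔ u = v ∨ up u ≤ lo v := Iff.rfl

/-- The map on the insertion. -/
def shift (hJ : InsHyp S J) : IP S J → IP S J
  | .inl x => .inl (S.φ x)
  | .mid a b h => .mid (S.φ a) (S.φ b) ((hJ.inv a b).2 h)

theorem inv_symm (hJ : InsHyp S J) {a b : S.P} (h : J a b) : J (S.φ.symm a) (S.φ.symm b) := by
  apply (hJ.inv _ _).1
  rwa [S.φ.apply_symm_apply, S.φ.apply_symm_apply]

/-- The inverse map on the insertion. -/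
def unshift (hJ : InsHyp S J) : IP S J → IP S J
  | .inl x => .inl (S.φ.symm x)
  | .mid a b h => .mid (S.φ.symm a) (S.φ.symm b) (inv_symm hJ h)

theorem lo_shift (hJ : InsHyp S J) (u : IP S J) : lo (shift hJ u) = S.φ (lo u) := by
  cases u <;> rfl

theorem up_shift (hJ : InsHyp S J) (u : IP S J) : up (shift hJ u) = S.φ (up u) := by
  cases u <;> rfl

theorem lo_unshift (hJ : InsHyp S J) (u : IP S J) : lo (unshift hJ u) = S.φ.symm (lo u) := by
  cases u <;> rfl

theorem up_unshift (hJ : InsHyp S J) (u : IP S J) : up (unshift hJ u) = S.φ.symm (up u) := by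
  cases u <;> rfl

/-- The automorphism of the insertion. -/
noncomputable def iso (hJ : InsHyp S J) :
    @OrderIso (IP S J) (IP S J) (latt hJ).toLE (latt hJ).toLE :=
  letI := latt hJ
  { toFun := shift hJ
    invFun := unshift hJ
    left_inv := fun u => ext' hJ (by rw [lo_unshift, lo_shift, S.φ.symm_apply_apply])
      (by rw [up_unshift, up_shift, S.φ.symm_apply_apply])
    right_inv := fun u => ext' hJ (by rw [lo_shift, lo_unshift, S.φ.apply_symm_apply])
      (by rw [up_shift, up_unshift, S.φ.apply_symm_apply])
    map_rel_iff' := by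
      intro u v
      constructor
      · rintro (h | h)
        · left
          have h1 := congrArg lo h
          have h2 := congrArg up h
          simp only [Equiv.coe_fn_mk, lo_shift, up_shift] at h1 h2
          exact ext' hJ (S.φ.injective h1) (S.φ.injective h2)
        · right
          simp only [Equiv.coe_fn_mk, lo_shift, up_shift] at h
          exact S.φ.le_iff_le.1 h
      · rintro (h | h)
        · left
          rw [h]
        · right
          simp only [Equiv.coe_fn_mk, lo_shift, up_shift]
          exact S.φ.le_iff_le.2 h }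

theorem iso_apply (hJ : InsHyp S J) (u : IP S J) : iso hJ u = shift hJ u := rfl

theorem iso_symm_apply (hJ : InsHyp S J) (u : IP S J) :
    letI := latt hJ
    (iso hJ).symm u = unshift hJ u := rfl

theorem lo_iso_pow (hJ : InsHyp S J) (n : ℕ) (u : IP S J) :
    letI := latt hJ
    lo ((iso hJ ^ n) u) = (S.φ ^ n) (lo u) := by
  letI := latt hJ
  show lo ((iso hJ ^ n) u) = (S.φ ^ n) (lo u)
  induction n generalizing u with
  | zero => rfl
  | succ n ih =>
    rw [pow_succ, pow_succ]
    exact (ih (iso hJ u)).trans (congrArg _ (lo_shift hJ u))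

theorem lo_iso_symm_pow (hJ : InsHyp S J) (n : ℕ) (u : IP S J) :
    letI := latt hJ
    lo (((iso hJ)⁻¹ ^ n) u) = ((S.φ)⁻¹ ^ n) (lo u) := by
  letI := latt hJ
  show lo (((iso hJ)⁻¹ ^ n) u) = ((S.φ)⁻¹ ^ n) (lo u)
  induction n generalizing u with
  | zero => rfl
  | succ n ih =>
    rw [pow_succ, pow_succ]
    exact (ih ((iso hJ)⁻¹ u)).trans (congrArg _ (lo_unshift hJ u))

theorem lo_iso_zpow (hJ : InsHyp S J) (n : ℤ) (u : IP S J) :
    letI := latt hJ
    lo ((iso hJ ^ n) u) = (S.φ ^ n) (lo u) := by
  letI := latt hJ
  show lo ((iso hJ ^ n) u) = (S.φ ^ n) (lo u)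
  rcases n with n | n
  · simpa using lo_iso_pow hJ n u
  · rw [zpow_negSucc, zpow_negSucc, ← inv_pow, ← inv_pow]
    exact lo_iso_symm_pow hJ (n + 1) u

theorem fin_aux (hJ : InsHyp S J) {F : Set S.P} (hF : F.Finite) :
    {u : IP S J | lo u ∈ F}.Finite := by
  have h1 : (⋃ a ∈ F, Set.Icc a (S.φ a)).Finite :=
    hF.biUnion fun a _ => S.finite_Icc a (S.φ a)
  have h2 : (F ×ˢ (⋃ a ∈ F, Set.Icc a (S.φ a))).Finite := hF.prod h1
  apply Set.Finite.of_finite_image (f := fun u : IP S J => (lo u, up u))
  · apply h2.subset
    rintro _ ⟨u, hu, rfl⟩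
    refine ⟨hu, ?_⟩
    simp only [Set.mem_iUnion]
    exact ⟨lo u, hu, lo_le_up hJ u, up_le_lo hJ u⟩
  · intro u _ v _ huv
    simp only [Prod.mk.injEq] at huv
    exact ext' hJ huv.1 huv.2

theorem ht_aux (hJ : InsHyp S J) (u : IP S J) (s : Finset (IP S J))
    (hs : ∀ v ∈ s, ∀ w ∈ s, v ≠ w → ile v w ∨ ile w v)
    (hb : ∀ v ∈ s, ile u v ∧ ile v (shift hJ u)) : s.card ≤ 5 := by
  classical
  -- chains of lower ends
  have chain_lo : ∀ t : Finset (IP S J), t ⊆ s → IsChain (· ≤ ·) ((t.image lo : Finset S.P) : Set S.P) := by
    intro t ht x hx y hy _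
    simp only [Finset.coe_image, Set.mem_image, Finset.mem_coe] at hx hy
    obtain ⟨v, hv, rfl⟩ := hx
    obtain ⟨w, hw, rfl⟩ := hy
    by_cases hvw : v = w
    · left; rw [hvw]
    · rcases hs v (ht hv) w (ht hw) hvw with h | h
      · rcases h with h | h
        · exact absurd h hvw
        · left; exact (lo_le_up hJ v).trans h
      · rcases h with h | h
        · exact absurd h.symm hvw
        · right; exact (lo_le_up hJ w).trans h
  -- cardinality of lower ends for sets of old elements
  have card_lo : ∀ t : Finset (IP S J), (∀ v ∈ t, v = IP.inl (lo v)) →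
      (t.image lo).card = t.card := by
    intro t ht
    apply Finset.card_image_of_injOn
    intro v hv w hw h
    rw [ht v hv, ht w hw]
    congr 1
  cases u with
  | inl x =>
    have hb' : ∀ v ∈ s, x ≤ lo v ∧ up v ≤ S.φ x := by
      intro v hv
      obtain ⟨h1, h2⟩ := hb v hv
      constructor
      · rcases h1 with h1 | h1
        · rw [← h1]; exact le_rfl
        · exact h1
      · rcases h2 with h2 | h2
        · rw [h2]; exact le_rfl
        · exact h2
    by_cases hm : ∃ m ∈ s, m ≠ IP.inl (lo m)
    · obtain ⟨m, hms, hm⟩ := hm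
      cases m with
      | inl y => exact absurd rfl hm
      | mid a b h =>
        -- all other elements are old
        have hold : ∀ v ∈ s, v ≠ IP.mid a b h → v = IP.inl (lo v) := by
          intro v hv hne
          cases v with
          | inl y => rfl
          | mid c d h' =>
            exfalso
            rcases hs _ hv _ hms hne with h1 | h1
            · rcases h1 with h1 | h1
              · exact hne h1
              · exact hJ.H2 x c d a b h' h (hb' _ hv).1 h1 (hb' _ hms).2
            · rcases h1 with h1 | h1
              · exact hne h1.symm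
              · exact hJ.H2 x a b c d h h' (hb' _ hms).1 h1 (hb' _ hv).2
        set m : IP S J := IP.mid a b h with hmdef
        let s1 : Finset (IP S J) := (s.erase m).filter fun v => ile v m
        let s2 : Finset (IP S J) := (s.erase m).filter fun v => ¬ ile v m
        have hs1 : ∀ v ∈ s1, v ∈ s ∧ v ≠ m ∧ up v ≤ a := by
          intro v hv
          simp only [s1, Finset.mem_filter, Finset.mem_erase] at hv
          refine ⟨hv.1.2, hv.1.1, ?_⟩
          rcases hv.2 with h1 | h1
          · exact absurd h1 hv.1.1
          · exact h1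
        have hs2 : ∀ v ∈ s2, v ∈ s ∧ v ≠ m ∧ b ≤ lo v := by
          intro v hv
          simp only [s2, Finset.mem_filter, Finset.mem_erase] at hv
          refine ⟨hv.1.2, hv.1.1, ?_⟩
          rcases hs v hv.1.2 m hms hv.1.1 with h1 | h1
          · exact absurd h1 hv.2
          · rcases h1 with h1 | h1
            · exact absurd h1.symm hv.1.1
            · exact h1
        have hsub1 : s1 ⊆ s := fun v hv => (hs1 v hv).1
        have hsub2 : s2 ⊆ s := fun v hv => (hs2 v hv).1
        have hxa : x ≤ a := (hb' _ hms).1
        have hbx : b ≤ S.φ x := (hb' _ hms).2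
        have key := hJ.H1 x a b h hxa hbx (s1.image lo) (s2.image lo) (chain_lo s1 hsub1)
          (chain_lo s2 hsub2)
          (by
            intro y hy
            obtain ⟨v, hv, rfl⟩ := Finset.mem_image.1 hy
            exact ⟨(hb' v (hsub1 hv)).1, (lo_le_up hJ v).trans (hs1 v hv).2.2⟩)
          (by
            intro y hy
            obtain ⟨v, hv, rfl⟩ := Finset.mem_image.1 hy
            exact ⟨(hs2 v hv).2.2, (lo_le_up hJ v).trans (hb' v (hsub2 hv)).2⟩)
        rw [card_lo s1 fun v hv => hold v (hs1 v hv).1 (hs1 v hv).2.1,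
          card_lo s2 fun v hv => hold v (hs2 v hv).1 (hs2 v hv).2.1] at key
        have hc : s1.card + s2.card = (s.erase m).card :=
          Finset.card_filter_add_card_filter_not _
        have := Finset.card_erase_add_one hms
        omega
    · push Not at hm
      rw [← card_lo s hm]
      apply S.ht x _ (chain_lo s (Finset.Subset.refl _))
      intro y hy
      obtain ⟨v, hv, rfl⟩ := Finset.mem_image.1 hy
      exact ⟨(hb' v hv).1, (lo_le_up hJ v).trans (hb' v hv).2⟩
  | mid a b h =>
    set m : IP S J := IP.mid a b h with hmdef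
    let t : Finset (IP S J) := (s.erase m).erase (shift hJ m)
    have ht : ∀ v ∈ t, v ∈ s ∧ b ≤ lo v ∧ up v ≤ S.φ a := by
      intro v hv
      simp only [t, Finset.mem_erase] at hv
      obtain ⟨h1, h2⟩ := hb v hv.2.2
      refine ⟨hv.2.2, ?_, ?_⟩
      · rcases h1 with h1 | h1
        · exact absurd h1.symm hv.2.1
        · exact h1
      · rcases h2 with h2 | h2
        · exact absurd h2 hv.1
        · rw [lo_shift] at h2
          exact h2
    have hold : ∀ v ∈ t, v = IP.inl (lo v) := by
      intro v hv
      cases v with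
      | inl y => rfl
      | mid c d h' =>
        exfalso
        obtain ⟨_, h1, h2⟩ := ht _ hv
        exact hJ.H2 a a b c d h h' le_rfl h1 h2
    have hsub : t ⊆ s := fun v hv => (ht v hv).1
    have key := hJ.H1 a a b h le_rfl (hJ.le a b h) {a} (t.image lo)
      (by simp) (chain_lo t hsub) (by simp)
      (by
        intro y hy
        obtain ⟨v, hv, rfl⟩ := Finset.mem_image.1 hy
        exact ⟨(ht v hv).2.1, (lo_le_up hJ v).trans (ht v hv).2.2⟩)
    rw [card_lo t hold, Finset.card_singleton] at key
    have h1 : s.card - 1 ≤ (s.erase m).card := Finset.pred_card_le_card_erase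
    have h2 : (s.erase m).card - 1 ≤ t.card := Finset.pred_card_le_card_erase
    omega

/-- The inserted system. -/
noncomputable def sys (hJ : InsHyp S J) : Sys where
  P := IP S J
  lat := latt hJ
  φ := iso hJ
  lt_φ := by
    letI := latt hJ
    intro u
    have h1 : u ≤ iso hJ u := by
      cases u with
      | inl x => exact Or.inr (S.lt_φ x).le
      | mid a b h => exact Or.inr (hJ.le a b h)
    refine lt_of_le_of_ne h1 ?_
    intro h
    have h2 := congrArg lo h
    rw [iso_apply, lo_shift] at h2
    exact (S.lt_φ (lo u)).ne h2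
  cof := by
    letI := latt hJ
    intro u v
    obtain ⟨n, hn⟩ := S.cof (lo u) (up v)
    refine ⟨n, Or.inr ?_⟩
    rw [lo_iso_pow hJ n u]
    exact hn
  fin := by
    letI := latt hJ
    obtain ⟨F, hF, hF'⟩ := S.fin
    refine ⟨{u | lo u ∈ F}, fin_aux hJ hF, fun u => ?_⟩
    obtain ⟨n, hn⟩ := hF' (lo u)
    refine ⟨n, ?_⟩
    show lo ((iso hJ ^ n) u) ∈ F
    rw [lo_iso_zpow hJ n u]
    exact hn
  ht := by
    letI := latt hJ
    intro u s hs hb
    exact ht_aux hJ u s (fun v hv w hw hvw => hs hv hw hvw) hb

end Ins

open Ins in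
theorem InsHyp.nonempty_ext_proof {S : Sys} {J : S.P → S.P → Prop} (h : InsHyp S J) :
    Nonempty (InsExt S J) := by
  classical
  refine ⟨{
    T := sys h
    inl := fun x => (IP.inl x : IP S J)
    mid := fun a b hab => (IP.mid a b hab : IP S J)
    cases := ?_
    inl_ne_mid := ?_
    inl_le_inl := ?_
    inl_le_mid := ?_
    mid_le_inl := ?_
    mid_le_mid := ?_
    φ_inl := ?_
    φ_mid := ?_
    sup_irr := ?_
    inf_irr := ?_ }⟩
  · intro u
    cases u with
    | inl x => exact Or.inl ⟨x, rfl⟩
    | mid a b hab => exact Or.inr ⟨a, b, hab, rfl⟩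
  · intro x a b hab he
    cases he
  · intro x y
    show ((IP.inl x : IP S J) = IP.inl y ∨ x ≤ y) ↔ x ≤ y
    constructor
    · rintro (h1 | h1)
      · injection h1 with h1
        rw [h1]
      · exact h1
    · exact Or.inr
  · intro x a b hab
    show ((IP.inl x : IP S J) = IP.mid a b hab ∨ x ≤ a) ↔ x ≤ a
    constructor
    · rintro (h1 | h1)
      · cases h1
      · exact h1
    · exact Or.inr
  · intro x a b hab
    show ((IP.mid a b hab : IP S J) = IP.inl x ∨ b ≤ x) ↔ b ≤ x
    constructor
    · rintro (h1 | h1)
      · cases h1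
      · exact h1
    · exact Or.inr
  · intro a b hab c d hcd
    show ((IP.mid a b hab : IP S J) = IP.mid c d hcd ∨ b ≤ c) ↔ _
    constructor
    · rintro (h1 | h1)
      · injection h1 with h1 h2
        exact Or.inl ⟨h1, h2⟩
      · exact Or.inr h1
    · rintro (⟨rfl, rfl⟩ | h1)
      · exact Or.inl rfl
      · exact Or.inr h1
  · intro x
    rfl
  · intro a b hab hab'
    rfl
  · intro u v a b hab he
    have he' : (if ile u v then v else if ile v u then u else IP.inl (up u ⊔ up v) : IP S J) =
      IP.mid a b hab := he
    show (if ile u v then v else if ile v u then u else IP.inl (up u ⊔ up v) : IP S J) = u ∨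
      (if ile u v then v else if ile v u then u else IP.inl (up u ⊔ up v) : IP S J) = v
    split_ifs at he' ⊢ with h1 h2
    · exact Or.inr rfl
    · exact Or.inl rfl
  · intro u v a b hab he
    have he' : (if ile u v then u else if ile v u then v else IP.inl (lo u ⊓ lo v) : IP S J) =
      IP.mid a b hab := he
    show (if ile u v then u else if ile v u then v else IP.inl (lo u ⊓ lo v) : IP S J) = u ∨
      (if ile u v then u else if ile v u then v else IP.inl (lo u ⊓ lo v) : IP S J) = v
    split_ifs at he' ⊢ with h1 h2
    · exact Or.inl rfl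
    · exact Or.inr rfl

end Pool.Agent.GNU
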