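import Pool.Agent.Lib_helper58.GNU.Shim1

set_option autoImplicit false

namespace Pool.Agent.GNU

theorem FG.exists_lub_proof {O : Type} (F : FG O) {D : O → O → ℤ} (hD : DistHyp D) (h : F.H)
    (t : ℤ) :
    ∃ (z : F.H) (s : ℤ), (F.L D z ≤ s ∧ F.L D (h⁻¹ * z) ≤ s - t) ∧
      ∀ k u, F.L D k ≤ u → F.L D (h⁻¹ * k) ≤ u - t → F.L D (z⁻¹ * k) ≤ u - s := by
  have h0 := hD.self
  have h1 := hD.tri
  have hinv : ∀ a b, (F.pr a b)⁻¹ = F.pr b a := by
    intro a b
    rw [inv_eq_iff_mul_eq_one, F.pr_mul, F.pr_self]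
  revert t
  refine FG.ind F (C := fun h => ∀ t : ℤ, ∃ (z : F.H) (s : ℤ),
    (F.L D z ≤ s ∧ F.L D (h⁻¹ * z) ≤ s - t) ∧
      ∀ k u, F.L D k ≤ u → F.L D (h⁻¹ * k) ≤ u - t → F.L D (z⁻¹ * k) ≤ u - s) ?_ ?_ h
  · intro t
    refine ⟨1, max 0 t, ⟨?_, ?_⟩, ?_⟩
    · rw [FG.L_one]
      exact le_max_left _ _
    · rw [inv_one, one_mul, FG.L_one]
      have := le_max_right 0 t
      omega
    · intro k u hk1 hk2
      rw [inv_one, one_mul] at hk2 ⊢
      rcases le_total 0 t with h2 | h2
      · rw [max_eq_right h2]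
        exact hk2
      · rw [max_eq_left h2]
        omega
  · intro a b m hab hm ih t
    have key : ∀ k u, F.L D k ≤ u → F.L D ((F.pr a b * m)⁻¹ * k) ≤ u - t →
        ∃ c m', k = F.pr a c * m' ∧ F.Av m' c ∧ D a c + F.L D m' ≤ u ∧
          (c ≠ b → F.L D m⁻¹ + D b c + F.L D m' ≤ u - t) := by
      intro k u hk1 hk2
      obtain ⟨c, m', hk, hm'⟩ := F.gate k a
      refine ⟨c, m', hk, hm', ?_, ?_⟩
      · rw [hk, FG.L_gate F h0 m' a c hm'] at hk1
        exact hk1
      · intro hcb
        rw [← FG.L_gate₂ F (D := D) m m' b c hm hm' hcb]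
        have : m⁻¹ * (F.pr b c * m') = (F.pr a b * m)⁻¹ * k := by
          rw [hk, mul_inv_rev, hinv, ← F.pr_mul b a c]
          group
        rw [this]
        exact hk2
    by_cases hcase : D a b ≤ t + F.L D m⁻¹
    · obtain ⟨z', s', ⟨hz1, hz2⟩, huniv⟩ := ih (t - D a b)
      refine ⟨F.pr a b * z', D a b + s', ⟨?_, ?_⟩, ?_⟩
      · have := FG.L_mul F h0 h1 (F.pr a b) z'
        rw [FG.L_pr F h0] at this
        omega
      · have : (F.pr a b * m)⁻¹ * (F.pr a b * z') = m⁻¹ * z' := by group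
        rw [this]
        omega
      · intro k u hk1 hk2
        obtain ⟨c, m', hk, hm', h3, h4⟩ := key k u hk1 hk2
        have h5 : F.L D (F.pr b a * k) ≤ u - D a b := by
          have : F.pr b a * k = F.pr b c * m' := by
            rw [hk, ← mul_assoc, F.pr_mul]
          rw [this, FG.L_gate F h0 m' b c hm']
          by_cases hcb : c = b
          · rw [hcb] at h3 ⊢
            rw [h0 b]
            omega
          · have := h4 hcb
            omega
        have h6 : F.L D (m⁻¹ * (F.pr b a * k)) ≤ (u - D a b) - (t - D a b) := by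
          have : m⁻¹ * (F.pr b a * k) = (F.pr a b * m)⁻¹ * k := by
            rw [mul_inv_rev, hinv, mul_assoc]
          rw [this]
          omega
        have h7 := huniv _ _ h5 h6
        have : (F.pr a b * z')⁻¹ * k = z'⁻¹ * (F.pr b a * k) := by
          rw [mul_inv_rev, hinv, mul_assoc]
        rw [this]
        omega
    · push Not at hcase
      obtain ⟨q, t₀, ⟨hq1, hq2⟩, hq3⟩ := hD.join a b (t + F.L D m⁻¹)
      refine ⟨F.pr a q, t₀, ⟨?_, ?_⟩, ?_⟩
      · rw [FG.L_pr F h0]
        exact hq1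
      · have : (F.pr a b * m)⁻¹ * F.pr a q = m⁻¹ * F.pr b q := by
          rw [mul_inv_rev, hinv, mul_assoc, F.pr_mul]
        rw [this]
        have h2 := FG.L_mul F h0 h1 m⁻¹ (F.pr b q)
        rw [FG.L_pr F h0] at h2
        omega
      · intro k u hk1 hk2
        obtain ⟨c, m', hk, hm', h3, h4⟩ := key k u hk1 hk2
        have h5 : (F.pr a q)⁻¹ * k = F.pr q c * m' := by
          rw [hk, hinv, ← mul_assoc, F.pr_mul]
        rw [h5, FG.L_gate F h0 m' q c hm']
        have h6 : D b c ≤ (u - F.L D m') - (t + F.L D m⁻¹) := by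
          by_cases hcb : c = b
          · rw [hcb] at h3 ⊢
            rw [h0 b]
            omega
          · have := h4 hcb
            omega
        have h7 := hq3 c (u - F.L D m') (by omega) h6
        omega

end Pool.Agent.GNU
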