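import Pool.Agent.Lib_helper58.GNU.Shim4

/-!
Block NUM.
-/

set_option autoImplicit false

namespace Pool.Agent.GNU

namespace Num

/-- The shift by three on the integers. -/
def sh : ℤ ≃o ℤ := OrderIso.addRight 3

theorem sh_apply (x : ℤ) : sh x = x + 3 := rfl

theorem sh_pow (n : ℕ) (x : ℤ) : (sh ^ n) x = x + 3 * n := by
  induction n generalizing x with
  | zero => simp
  | succ n ih =>
    rw [pow_succ']
    show sh ((sh ^ n) x) = _
    rw [ih, sh_apply]
    push_cast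
    ring

theorem sh_zpow (n : ℤ) (x : ℤ) : (sh ^ n) x = x + 3 * n := by
  obtain ⟨m, rfl | rfl⟩ := n.eq_nat_or_neg
  · rw [zpow_natCast, sh_pow]
  · have h1 : (sh ^ m) ((sh ^ (-(m : ℤ))) x) = x := by
      rw [← zpow_natCast, ← RelIso.mul_apply, ← zpow_add]
      simp
    rw [sh_pow] at h1
    linarith

/-- The base system. -/
def base : Sys where
  P := ℤ
  φ := sh
  lt_φ x := by rw [sh_apply]; omega
  cof x y := ⟨(y - x).toNat, by rw [sh_pow]; omega⟩
  fin := by
    refine ⟨{0, 1, 2}, by simp, fun x => ⟨-(x / 3), ?_⟩⟩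
    rw [sh_zpow]
    simp only [Set.mem_insert_iff, Set.mem_singleton_iff]
    omega
  ht x s _ hb := by
    have h1 : s ⊆ Finset.Icc x (x + 3) := by
      intro a ha
      have := hb a ha
      rw [sh_apply] at this
      exact Finset.mem_Icc.2 this
    have h2 := Finset.card_le_card h1
    rw [Int.card_Icc] at h2
    omega

theorem base_good (x : ℤ) : base.Good x (x + 1) := by
  refine ⟨?_, x + 2, ?_, ?_⟩
  · constructor
    · show x < x + 1
      omega
    · intro c h1 h2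
      have h1' : x < (c : ℤ) := h1
      have h2' : (c : ℤ) < x + 1 := h2
      exact absurd (Int.add_one_le_iff.2 h1') (not_le_of_gt h2')
  · show x + 1 < x + 2
    omega
  · show x + 2 < sh x
    rw [sh_apply]
    omega

end Num

theorem base_proof : ∃ S : Sys, S.HasChain 3 1 := by
  refine ⟨Num.base, (0 : ℤ), ?_⟩
  exact Sys.Reach.step (Num.base_good 0) (Sys.Reach.step (Num.base_good 1)
    (Sys.Reach.step (Num.base_good 2) (Sys.Reach.refl _)))

theorem exists_chain_proof (j : ℕ) : ∃ (S : Sys) (n k : ℕ), S.HasChain n k ∧ 1 ≤ k ∧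
    k ≤ 2 ^ (j ^ 2 + 2 * j) ∧ 2 ^ j * k ≤ n := by
  have key : ∃ (S : Sys) (n k : ℕ), S.HasChain n k ∧ 1 ≤ k ∧
    k ≤ 2 ^ (j ^ 2 + 2 * j) ∧ (2 ^ j + 2) * k ≤ n ∧ n ≤ 3 * 2 ^ j * k := by
    induction j with
    | zero =>
      obtain ⟨S, hS⟩ := base_proof
      exact ⟨S, 3, 1, hS, le_rfl, by norm_num, by norm_num, by norm_num⟩
    | succ j ih =>
      obtain ⟨S, n, k, hS, hk, h1, h2, h3⟩ := ih
      have hN : 2 ≤ 3 * (2 ^ j * 2 ^ j) := by
        have : 1 ≤ 2 ^ j := Nat.one_le_two_pow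
        nlinarith
      obtain ⟨T, hT⟩ := step S (3 * (2 ^ j * 2 ^ j)) hN n k hS
      have ha : 1 ≤ 2 ^ j := Nat.one_le_two_pow
      refine ⟨T, _, _, hT, ?_, ?_, ?_, ?_⟩
      · have : 1 ≤ k * (3 * (2 ^ j * 2 ^ j)) := Nat.mul_pos (by omega) (by omega)
        omega
      · have e : 2 ^ ((j + 1) ^ 2 + 2 * (j + 1)) = 2 ^ (j ^ 2 + 2 * j) * (8 * (2 ^ j * 2 ^ j)) := by
          have : (j + 1) ^ 2 + 2 * (j + 1) = (j ^ 2 + 2 * j) + (3 + (j + j)) := by ring
          rw [this, pow_add, pow_add 2 3, pow_add 2 j j]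
          norm_num
        rw [e]
        generalize 2 ^ j = a at *
        generalize 2 ^ (j ^ 2 + 2 * j) = b at *
        calc k * (3 * (a * a)) + n ≤ k * (3 * (a * a)) + 3 * a * k := by omega
          _ ≤ k * (8 * (a * a)) := by nlinarith [Nat.mul_le_mul hk ha, Nat.mul_le_mul ha (le_refl a)]
          _ ≤ b * (8 * (a * a)) := Nat.mul_le_mul_right _ h1
      · rw [pow_succ]
        generalize 2 ^ j = a at *
        obtain ⟨b, rfl⟩ : ∃ b, a = b + 1 := ⟨a - 1, by omega⟩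
        obtain ⟨m, rfl⟩ : ∃ m, n = (b + 1 + 2) * k + m := ⟨n - (b + 1 + 2) * k, by omega⟩
        nlinarith [Nat.zero_le (b * b * b * k), Nat.zero_le (b * b * k), Nat.zero_le (b * k),
          Nat.zero_le k, Nat.zero_le m, Nat.zero_le (b * m), Nat.zero_le (b * b * m)]
      · rw [pow_succ]
        generalize 2 ^ j = a at *
        obtain ⟨m, hm⟩ : ∃ m, 3 * a * k = n + m := ⟨3 * a * k - n, by omega⟩
        have h4 : n * (2 * (3 * (a * a))) ≤ 3 * a * k * (2 * (3 * (a * a))) :=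
          Nat.mul_le_mul_right _ h3
        have h5 : n * 2 ≤ n * (6 * a) := Nat.mul_le_mul_left _ (by omega)
        nlinarith
  obtain ⟨S, n, k, hS, hk, h1, h2, _⟩ := key
  exact ⟨S, n, k, hS, hk, h1, by nlinarith⟩

end Pool.Agent.GNU
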