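import Pool.Agent.Lib_helper58.GNU.Defs

/-! Block PRES of MP_89e4fc_al: presentation of a system by a distance on its orbits. -/

set_option autoImplicit false

namespace Pool.Agent.GNU

section
variable (S : Sys)

theorem pres_add (x : S.P) (m n : ℤ) : (S.φ ^ (m + n)) x = (S.φ ^ m) ((S.φ ^ n) x) := by
  rw [zpow_add]
  rfl

theorem pres_zero (x : S.P) : (S.φ ^ (0 : ℤ)) x = x := by
  rw [zpow_zero]
  rfl

theorem pres_strictMono (x : S.P) : StrictMono fun n : ℤ => (S.φ ^ n) x := by
  apply strictMono_int_of_lt_succ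
  intro n
  show (S.φ ^ n) x < (S.φ ^ (n + 1)) x
  rw [add_comm, pres_add, zpow_one]
  exact S.lt_φ _

theorem pres_inj (x : S.P) {m n : ℤ} (h : (S.φ ^ m) x = (S.φ ^ n) x) : m = n :=
  (pres_strictMono S x).injective h

theorem pres_le_iff (x : S.P) {m n : ℤ} : (S.φ ^ m) x ≤ (S.φ ^ n) x ↔ m ≤ n :=
  (pres_strictMono S x).le_iff_le

/-- orbit equivalence -/
def presSetoid : Setoid S.P where
  r x y := ∃ n : ℤ, (S.φ ^ n) x = y
  iseqv :=
    { refl := fun x => ⟨0, pres_zero S x⟩
      symm := by
        rintro x y ⟨n, hn⟩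
        refine ⟨-n, ?_⟩
        rw [← hn, ← pres_add, neg_add_cancel, pres_zero]
      trans := by
        rintro x y z ⟨n, hn⟩ ⟨m, hm⟩
        refine ⟨m + n, ?_⟩
        rw [pres_add, hn, hm] }

/-- orbits -/
def presO : Type := Quotient (presSetoid S)

/-- representative -/
noncomputable def presOut (a : presO S) : S.P := Quotient.out a

theorem pres_exists (x : S.P) :
    ∃ n : ℤ, (S.φ ^ n) (presOut S (Quotient.mk (presSetoid S) x)) = x :=
  Quotient.mk_out (s := presSetoid S) x

/-- exponent -/
noncomputable def presExp (x : S.P) : ℤ := (pres_exists S x).choose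

theorem presExp_spec (x : S.P) :
    (S.φ ^ (presExp S x)) (presOut S (Quotient.mk (presSetoid S) x)) = x :=
  (pres_exists S x).choose_spec

theorem pres_mk_out (a : presO S) (n : ℤ) :
    (Quotient.mk (presSetoid S) ((S.φ ^ n) (presOut S a)) : presO S) = a := by
  have h1 : (Quotient.mk (presSetoid S) (presOut S a) : presO S) = a := Quotient.out_eq a
  rw [← h1]
  apply Quotient.sound
  refine ⟨-n, ?_⟩
  rw [h1, ← pres_add, neg_add_cancel, pres_zero]

theorem presExp_out (a : presO S) (n : ℤ) : presExp S ((S.φ ^ n) (presOut S a)) = n := by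
  have h := presExp_spec S ((S.φ ^ n) (presOut S a))
  rw [pres_mk_out] at h
  exact pres_inj S _ h

/-- the equivalence -/
noncomputable def presE : S.P ≃ presO S × ℤ where
  toFun x := (Quotient.mk (presSetoid S) x, presExp S x)
  invFun p := (S.φ ^ p.2) (presOut S p.1)
  left_inv x := presExp_spec S x
  right_inv p := by
    rcases p with ⟨a, n⟩
    exact Prod.ext (pres_mk_out S a n) (presExp_out S a n)

theorem presE_symm (a : presO S) (n : ℤ) : (presE S).symm (a, n) = (S.φ ^ n) (presOut S a) := rfl

theorem pres_exists_D (a b : presO S) :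
    ∃ d : ℤ, ∀ t : ℤ, presOut S a ≤ (S.φ ^ t) (presOut S b) ↔ d ≤ t := by
  obtain ⟨n, hn⟩ := S.cof (presOut S b) (presOut S a)
  obtain ⟨m, hm⟩ := S.cof (presOut S a) (presOut S b)
  have hup : ∀ t t' : ℤ, t ≤ t' → presOut S a ≤ (S.φ ^ t) (presOut S b) →
      presOut S a ≤ (S.φ ^ t') (presOut S b) := by
    intro t t' htt h
    exact h.trans ((pres_le_iff S _).2 htt)
  have hbd : ∀ t : ℤ, presOut S a ≤ (S.φ ^ t) (presOut S b) → -(m : ℤ) ≤ t := by
    intro t ht
    have h1 : presOut S b ≤ (S.φ ^ (m : ℤ)) ((S.φ ^ t) (presOut S b)) := by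
      rw [zpow_natCast]
      exact hm.trans ((S.φ ^ m).monotone ht)
    rw [← pres_add] at h1
    have h2 : (S.φ ^ (0 : ℤ)) (presOut S b) ≤ (S.φ ^ ((m : ℤ) + t)) (presOut S b) := by
      rw [pres_zero]
      exact h1
    have h3 := (pres_le_iff S _).1 h2
    omega
  obtain ⟨d, hd1, hd2⟩ := Int.exists_least_of_bdd
    (P := fun t : ℤ => presOut S a ≤ (S.φ ^ t) (presOut S b))
    ⟨-(m : ℤ), fun t ht => hbd t ht⟩ ⟨(n : ℤ), by rw [zpow_natCast]; exact hn⟩
  exact ⟨d, fun t => ⟨fun h => hd2 t h, fun h => hup d t h hd1⟩⟩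

/-- distance -/
noncomputable def presD (a b : presO S) : ℤ := (pres_exists_D S a b).choose

theorem presD_le (a b : presO S) (t : ℤ) :
    presOut S a ≤ (S.φ ^ t) (presOut S b) ↔ presD S a b ≤ t :=
  (pres_exists_D S a b).choose_spec t

theorem pres_symm_le (a b : presO S) (m n : ℤ) :
    (presE S).symm (a, m) ≤ (presE S).symm (b, n) ↔ presD S a b ≤ n - m := by
  rw [presE_symm, presE_symm, ← presD_le]
  have h : (S.φ ^ n) (presOut S b) = (S.φ ^ m) ((S.φ ^ (n - m)) (presOut S b)) := by
    rw [← pres_add]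
    congr 2
    omega
  rw [h]
  exact (S.φ ^ m).le_iff_le

theorem pres_le_symm (x y : S.P) :
    x ≤ y ↔ presD S (presE S x).1 (presE S y).1 ≤ (presE S y).2 - (presE S x).2 := by
  rw [← pres_symm_le]
  simp

theorem pres_distHyp : DistHyp (presD S) where
  self a := by
    apply le_antisymm
    · have h := (pres_symm_le S a a 0 0).1 le_rfl
      simpa using h
    · have h : presOut S a ≤ (S.φ ^ (presD S a a)) (presOut S a) := (presD_le S a a _).2 le_rfl
      have h2 : (S.φ ^ (0 : ℤ)) (presOut S a) ≤ (S.φ ^ (presD S a a)) (presOut S a) := by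
        rw [pres_zero]
        exact h
      exact (pres_le_iff S _).1 h2
  tri a b c := by
    have h1 : (presE S).symm (a, 0) ≤ (presE S).symm (b, presD S a b) :=
      (pres_symm_le S a b _ _).2 (by simp)
    have h2 : (presE S).symm (b, presD S a b) ≤ (presE S).symm (c, presD S a b + presD S b c) :=
      (pres_symm_le S b c _ _).2 (by simp)
    have h3 := (pres_symm_le S a c _ _).1 (h1.trans h2)
    simpa using h3
  pos a b hab := by
    by_contra hcon
    push Not at hcon
    have h1 : (presE S).symm (a, 0) ≤ (presE S).symm (b, presD S a b) :=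
      (pres_symm_le S a b _ _).2 (by simp)
    have h2 : (presE S).symm (b, presD S a b) ≤ (presE S).symm (a, 0) :=
      (pres_symm_le S b a _ _).2 (by omega)
    have h3 := (presE S).symm.injective (le_antisymm h1 h2)
    exact hab (Prod.ext_iff.1 h3).1
  join a b s := by
    set x : S.P := (presE S).symm (a, 0) with hx
    set y : S.P := (presE S).symm (b, s) with hy
    refine ⟨(presE S (x ⊔ y)).1, (presE S (x ⊔ y)).2, ⟨?_, ?_⟩, ?_⟩
    · have h := (pres_symm_le S a (presE S (x ⊔ y)).1 0 (presE S (x ⊔ y)).2).1 (by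
        rw [Prod.mk.eta, Equiv.symm_apply_apply, ← hx]
        exact le_sup_left)
      simpa using h
    · have h := (pres_symm_le S b (presE S (x ⊔ y)).1 s (presE S (x ⊔ y)).2).1 (by
        rw [Prod.mk.eta, Equiv.symm_apply_apply, ← hy]
        exact le_sup_right)
      simpa using h
    · intro c u h1 h2
      have h3 : x ≤ (presE S).symm (c, u) := (pres_symm_le S a c 0 u).2 (by simpa using h1)
      have h4 : y ≤ (presE S).symm (c, u) := (pres_symm_le S b c s u).2 h2
      have h5 := (pres_le_symm S _ _).1 (sup_le h3 h4)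
      simpa using h5
  meet a b s := by
    set x : S.P := (presE S).symm (a, 0) with hx
    set y : S.P := (presE S).symm (b, s) with hy
    refine ⟨(presE S (x ⊓ y)).1, (presE S (x ⊓ y)).2, ⟨?_, ?_⟩, ?_⟩
    · have h := (pres_symm_le S (presE S (x ⊓ y)).1 a (presE S (x ⊓ y)).2 0).1 (by
        rw [Prod.mk.eta, Equiv.symm_apply_apply, ← hx]
        exact inf_le_left)
      simpa using h
    · have h := (pres_symm_le S (presE S (x ⊓ y)).1 b (presE S (x ⊓ y)).2 s).1 (by
        rw [Prod.mk.eta, Equiv.symm_apply_apply, ← hy]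
        exact inf_le_right)
      simpa using h
    · intro c u h1 h2
      have h3 : (presE S).symm (c, u) ≤ x := (pres_symm_le S c a u 0).2 (by simpa using h1)
      have h4 : (presE S).symm (c, u) ≤ y := (pres_symm_le S c b u s).2 h2
      have h5 := (pres_le_symm S _ _).1 (le_inf h3 h4)
      simpa using h5

theorem pres_finite : Finite (presO S) := by
  obtain ⟨F, hF, hmeet⟩ := S.fin
  have : Finite F := hF
  apply Finite.of_surjective (fun x : F => (Quotient.mk (presSetoid S) x.1 : presO S))
  intro a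
  obtain ⟨n, hn⟩ := hmeet (presOut S a)
  exact ⟨⟨_, hn⟩, pres_mk_out S a n⟩

theorem Sys.nonempty_pres_proof (h : Nonempty S.P) : Nonempty S.Pres := by
  have hfin := pres_finite S
  have : Fintype (presO S) := Fintype.ofFinite _
  have hne : Nonempty (presO S) := h.map fun x => Quotient.mk (presSetoid S) x
  exact ⟨{
    O := presO S
    D := presD S
    hD := pres_distHyp S
    e := presE S
    le_iff := pres_le_symm S
    e_φ := by
      intro x
      apply (presE S).symm.injective
      rw [Equiv.symm_apply_apply, presE_symm, add_comm, pres_add, zpow_one]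
      congr 1
      exact (presExp_spec S x).symm }⟩

end

end Pool.Agent.GNU
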