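import Pool.Agent.Lib_helper58.GNU.S0

/-!
Garside systems: the system of equivariant monotone sequences.
-/

set_option autoImplicit false

namespace Pool.Agent.GNU

section

variable {S : Sys} {Z : S.P → Prop}

/-- The sublattice of equivariant monotone sequences without repeated elements of `Z`. -/
def seqSub (h : SeqHyp S Z) (N : ℕ) : Sublattice (ℤ → S.P) where
  carrier := {f | Monotone f ∧ (∀ i, f (i + N) = S.φ (f i)) ∧ ∀ i, Z (f i) → f (i + 1) ≠ f i}
  supClosed' := by
    rintro f ⟨hf1, hf2, hf3⟩ g ⟨hg1, hg2, hg3⟩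
    refine ⟨hf1.sup hg1, fun i => ?_, fun i hi he => ?_⟩
    · show f (i + N) ⊔ g (i + N) = S.φ (f i ⊔ g i)
      rw [hf2, hg2, map_sup]
    · have hi' : Z (f i ⊔ g i) := hi
      have he' : f (i + 1) ⊔ g (i + 1) = f i ⊔ g i := he
      have hi1 : Z (f (i + 1) ⊔ g (i + 1)) := by rw [he']; exact hi'
      have e1 := h.sup _ _ hi'
      have e2 := h.sup _ _ hi1
      have ff := hf1 (show i ≤ i + 1 by omega)
      have gg := hg1 (show i ≤ i + 1 by omega)
      have lf : f (i + 1) ≤ f i ⊔ g i := he' ▸ le_sup_left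
      have lg : g (i + 1) ≤ f i ⊔ g i := he' ▸ le_sup_right
      rcases e1 with e1 | e1
      · have : f (i + 1) = f i := le_antisymm (lf.trans e1.le) ff
        refine hf3 i ?_ this
        rw [← e1]; exact hi'
      · have : g (i + 1) = g i := le_antisymm (lg.trans e1.le) gg
        refine hg3 i ?_ this
        rw [← e1]; exact hi'
  infClosed' := by
    rintro f ⟨hf1, hf2, hf3⟩ g ⟨hg1, hg2, hg3⟩
    refine ⟨hf1.inf hg1, fun i => ?_, fun i hi he => ?_⟩
    · show f (i + N) ⊓ g (i + N) = S.φ (f i ⊓ g i)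
      rw [hf2, hg2, map_inf]
    · have hi' : Z (f i ⊓ g i) := hi
      have he' : f (i + 1) ⊓ g (i + 1) = f i ⊓ g i := he
      have hi1 : Z (f (i + 1) ⊓ g (i + 1)) := by rw [he']; exact hi'
      have e2 := h.inf _ _ hi1
      have ff := hf1 (show i ≤ i + 1 by omega)
      have gg := hg1 (show i ≤ i + 1 by omega)
      have lf : f i ⊓ g i ≤ f i := inf_le_left
      have lg : f i ⊓ g i ≤ g i := inf_le_right
      rcases e2 with e2 | e2
      · have h3 : f (i + 1) = f i := by
          refine le_antisymm ?_ ff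
          rw [← e2, he']
          exact lf
        refine hf3 i ?_ h3
        rw [← h3, ← e2]; exact hi1
      · have h3 : g (i + 1) = g i := by
          refine le_antisymm ?_ gg
          rw [← e2, he']
          exact lg
        refine hg3 i ?_ h3
        rw [← h3, ← e2]; exact hi1

/-- The shift. -/
def seqShift (h : SeqHyp S Z) (N : ℕ) : seqSub h N ≃o seqSub h N where
  toFun f := ⟨fun i => f.1 (i + 1), fun _ _ hab => f.2.1 (by omega), fun i => by
      show f.1 (i + N + 1) = S.φ (f.1 (i + 1))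
      rw [show i + (N : ℤ) + 1 = i + 1 + N by ring]
      exact f.2.2.1 _, fun i => f.2.2.2 (i + 1)⟩
  invFun f := ⟨fun i => f.1 (i - 1), fun _ _ hab => f.2.1 (by omega), fun i => by
      show f.1 (i + N - 1) = S.φ (f.1 (i - 1))
      rw [show i + (N : ℤ) - 1 = i - 1 + N by ring]
      exact f.2.2.1 _, fun i => by
      have := f.2.2.2 (i - 1)
      rw [show i - 1 + 1 = i + 1 - 1 by ring] at this
      exact this⟩
  left_inv f := by
    apply Subtype.ext
    funext i
    show f.1 (i - 1 + 1) = f.1 i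
    rw [show i - 1 + 1 = i by ring]
  right_inv f := by
    apply Subtype.ext
    funext i
    show f.1 (i + 1 - 1) = f.1 i
    rw [show i + 1 - 1 = i by ring]
  map_rel_iff' := by
    intro f g
    constructor
    · intro hfg i
      have := hfg (i - 1)
      have h2 : f.1 (i - 1 + 1) ≤ g.1 (i - 1 + 1) := this
      rwa [show i - 1 + 1 = i by ring] at h2
    · intro hfg i
      exact hfg (i + 1)

variable (h : SeqHyp S Z) (N : ℕ)

theorem seqShift_apply (f : seqSub h N) (i : ℤ) : (seqShift h N f).1 i = f.1 (i + 1) := rfl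

theorem seqShift_symm_apply (f : seqSub h N) (i : ℤ) :
    ((seqShift h N).symm f).1 i = f.1 (i - 1) := rfl

theorem seqShift_pow (n : ℕ) (f : seqSub h N) (i : ℤ) :
    ((seqShift h N ^ n) f).1 i = f.1 (i + n) := by
  induction n generalizing f i with
  | zero => simp
  | succ n ih =>
    rw [pow_succ, RelIso.mul_apply, ih, seqShift_apply]
    push_cast
    ring_nf

theorem seqShift_zpow (n : ℤ) (f : seqSub h N) (i : ℤ) :
    ((seqShift h N ^ n) f).1 i = f.1 (i + n) := by
  rcases Int.eq_nat_or_neg n with ⟨m, rfl | rfl⟩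
  · rw [zpow_natCast, seqShift_pow]
  · have h1 := seqShift_pow h N m ((seqShift h N ^ (-(m : ℤ))) f) (i - m)
    rw [← zpow_natCast, ← RelIso.mul_apply, ← zpow_add, add_neg_cancel, zpow_zero,
      RelIso.one_apply] at h1
    rw [show i - (m : ℤ) + m = i by ring] at h1
    rw [← h1]
    ring_nf

theorem seq_per (f : seqSub h N) (n : ℕ) (i : ℤ) : f.1 (i + N * n) = (S.φ ^ n) (f.1 i) := by
  induction n generalizing i with
  | zero => simp
  | succ n ih =>
    rw [pow_succ, RelIso.mul_apply, ← f.2.2.1 i, ← ih,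
      show i + (N : ℤ) * ((n + 1 : ℕ) : ℤ) = i + N + N * n by push_cast; ring]

theorem seq_perz (f : seqSub h N) (n : ℤ) (i : ℤ) : f.1 (i + N * n) = (S.φ ^ n) (f.1 i) := by
  rcases Int.eq_nat_or_neg n with ⟨m, rfl | rfl⟩
  · rw [zpow_natCast, seq_per]
  · have h1 := seq_per h N f m (i + N * (-(m : ℤ)))
    rw [show i + (N : ℤ) * (-(m : ℤ)) + N * m = i by ring] at h1
    rw [h1, ← zpow_natCast S.φ m, ← RelIso.mul_apply, ← zpow_add, neg_add_cancel, zpow_zero,
      RelIso.one_apply]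

theorem seq_ext (hN : 0 < N) (f g : seqSub h N) (hfg : ∀ i : ℕ, i < N → f.1 i = g.1 i) :
    f = g := by
  apply Subtype.ext
  funext i
  have hN' : (0 : ℤ) < N := by exact_mod_cast hN
  have h1 : i = (i % N) + N * (i / N) := (Int.emod_add_mul_ediv i N).symm
  rw [h1, seq_perz, seq_perz]
  have h2 := Int.emod_nonneg i hN'.ne'
  have h3 := Int.emod_lt_of_pos i hN'
  obtain ⟨m, hm⟩ := Int.eq_ofNat_of_zero_le h2
  rw [hm, hfg m (by omega)]

theorem seq_le (hN : 0 < N) (f g : seqSub h N) (hfg : ∀ i : ℕ, i < N → f.1 i ≤ g.1 i) :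
    f ≤ g := by
  intro i
  have hN' : (0 : ℤ) < N := by exact_mod_cast hN
  have h1 : i = (i % N) + N * (i / N) := (Int.emod_add_mul_ediv i N).symm
  have h2 := Int.emod_nonneg i hN'.ne'
  have h3 := Int.emod_lt_of_pos i hN'
  obtain ⟨m, hm⟩ := Int.eq_ofNat_of_zero_le h2
  show f.1 i ≤ g.1 i
  rw [h1, seq_perz, seq_perz, hm]
  exact (S.φ ^ (i / (N : ℤ))).monotone (hfg m (by omega))

theorem seq_lt (hN : 0 < N) (f : seqSub h N) : f < seqShift h N f := by
  refine lt_of_le_of_ne (fun i => f.2.1 (by omega : i ≤ i + 1)) fun he => ?_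
  have h1 : ∀ n : ℕ, f.1 n = f.1 0 := by
    intro n
    induction n with
    | zero => rfl
    | succ n ih =>
      have := congrArg (fun g : seqSub h N => g.1 n) he
      have h2 : f.1 n = f.1 (n + 1) := this
      push_cast
      rw [← h2, ih]
  have h2 := f.2.2.1 0
  rw [zero_add, h1 N] at h2
  exact (S.lt_φ (f.1 0)).ne h2

theorem seq_cof (hN : 0 < N) (f g : seqSub h N) : ∃ n : ℕ, g ≤ (seqShift h N ^ n) f := by
  obtain ⟨n, hn⟩ := S.cof (f.1 0) (g.1 N)
  refine ⟨N * n, seq_le h N hN _ _ fun i hi => ?_⟩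
  rw [seqShift_pow]
  push_cast
  rw [seq_per]
  have h1 : g.1 i ≤ g.1 N := g.2.1 (by exact_mod_cast hi.le)
  have h2 : f.1 0 ≤ f.1 i := f.2.1 (by positivity)
  exact h1.trans (hn.trans ((S.φ ^ n).monotone h2))

theorem seq_fin (hN : 0 < N) : ∃ F : Set (seqSub h N), F.Finite ∧
    ∀ x, ∃ n : ℤ, (seqShift h N ^ n) x ∈ F := by
  obtain ⟨F0, hF0, hF1⟩ := S.fin
  refine ⟨{f | f.1 0 ∈ F0}, ?_, fun f => ?_⟩
  · have hU : (⋃ x ∈ F0, Set.Icc x (S.φ x)).Finite :=
      hF0.biUnion fun x _ => S.finite_Icc_proof x (S.φ x)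
    have hpi : (Set.pi Set.univ (fun _ : Fin N => ⋃ x ∈ F0, Set.Icc x (S.φ x))).Finite :=
      Set.Finite.pi fun _ => hU
    refine Set.Finite.of_finite_image (f := fun f : seqSub h N => fun i : Fin N => f.1 (i : ℕ))
      (hpi.subset ?_) ?_
    · rintro _ ⟨f, hf, rfl⟩ i _
      refine Set.mem_biUnion hf ⟨f.2.1 (by positivity), ?_⟩
      have h2 := f.2.2.1 0
      rw [zero_add] at h2
      rw [← h2]
      exact f.2.1 (by exact_mod_cast i.2.le)
    · intro f _ g _ hfg
      exact seq_ext h N hN f g fun i hi => congrFun hfg ⟨i, hi⟩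
  · obtain ⟨n, hn⟩ := hF1 (f.1 0)
    refine ⟨N * n, ?_⟩
    show ((seqShift h N ^ ((N : ℤ) * n)) f).1 0 ∈ F0
    rw [seqShift_zpow, seq_perz]
    exact hn

open Classical in
theorem seq_ht (hN : 0 < N) (f : seqSub h N) (s : Finset (seqSub h N))
    (hs : IsChain (· ≤ ·) (s : Set (seqSub h N)))
    (hx : ∀ a ∈ s, f ≤ a ∧ a ≤ seqShift h N f) : s.card ≤ 5 := by
  have hfN : f.1 N = S.φ (f.1 0) := by
    have := f.2.2.1 0
    rwa [zero_add] at this
  let V : Finset S.P := (s.biUnion fun g => (Finset.range N).image fun i : ℕ => g.1 i) ∪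
    (Finset.range (N + 1)).image fun i : ℕ => f.1 i
  have hVmem : ∀ v ∈ V, (∃ g ∈ s, ∃ i : ℕ, i < N ∧ g.1 i = v) ∨ ∃ i : ℕ, i ≤ N ∧ f.1 i = v := by
    intro v hv
    simp only [V, Finset.mem_union, Finset.mem_biUnion, Finset.mem_image, Finset.mem_range] at hv
    rcases hv with ⟨g, hg, i, hi, e⟩ | ⟨i, hi, e⟩
    · exact Or.inl ⟨g, hg, i, hi, e⟩
    · exact Or.inr ⟨i, by omega, e⟩
  have hVg : ∀ g ∈ s, ∀ i : ℕ, i < N → g.1 i ∈ V := by
    intro g hg i hi
    simp only [V, Finset.mem_union, Finset.mem_biUnion, Finset.mem_image, Finset.mem_range]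
    exact Or.inl ⟨g, hg, i, hi, rfl⟩
  have hVf : ∀ i : ℕ, i ≤ N → f.1 i ∈ V := by
    intro i hi
    simp only [V, Finset.mem_union, Finset.mem_biUnion, Finset.mem_image, Finset.mem_range]
    exact Or.inr ⟨i, by omega, rfl⟩
  -- bounds
  have hup : ∀ g ∈ s, ∀ i j : ℕ, i < j → g.1 i ≤ f.1 j := by
    intro g hg i j hij
    have h1 : g.1 i ≤ f.1 (i + 1) := (hx g hg).2 i
    exact h1.trans (f.2.1 (by exact_mod_cast hij))
  have hlo : ∀ g ∈ s, ∀ i j : ℕ, j ≤ i → f.1 j ≤ g.1 i := by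
    intro g hg i j hij
    exact (f.2.1 (by exact_mod_cast hij)).trans ((hx g hg).1 i)
  have hVlo : ∀ v ∈ V, f.1 0 ≤ v := by
    intro v hv
    rcases hVmem v hv with ⟨g, hg, i, hi, rfl⟩ | ⟨i, hi, rfl⟩
    · exact_mod_cast hlo g hg i 0 (by omega)
    · exact f.2.1 (by positivity)
  have hVup : ∀ v ∈ V, v ≤ f.1 N := by
    intro v hv
    rcases hVmem v hv with ⟨g, hg, i, hi, rfl⟩ | ⟨i, hi, rfl⟩
    · exact hup g hg i N hi
    · exact f.2.1 (by exact_mod_cast hi)
  have hVchain : IsChain (· ≤ ·) (V : Set S.P) := by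
    intro u hu v hv _
    rcases hVmem u hu with ⟨g, hg, i, hi, rfl⟩ | ⟨i, hi, rfl⟩
    · rcases hVmem v hv with ⟨g', hg', j, hj, rfl⟩ | ⟨j, hj, rfl⟩
      · rcases lt_trichotomy i j with hij | rfl | hij
        · exact Or.inl ((hup g hg i j hij).trans (hlo g' hg' j j le_rfl))
        · rcases eq_or_ne g g' with rfl | hne
          · exact Or.inl le_rfl
          · rcases hs hg hg' hne with hle | hle
            · exact Or.inl (hle i)
            · exact Or.inr (hle i)
        · exact Or.inr ((hup g' hg' j i hij).trans (hlo g hg i i le_rfl))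
      · rcases Nat.lt_or_ge i j with hij | hij
        · exact Or.inl (hup g hg i j hij)
        · exact Or.inr (hlo g hg i j hij)
    · rcases hVmem v hv with ⟨g', hg', j, hj, rfl⟩ | ⟨j, hj, rfl⟩
      · rcases Nat.lt_or_ge j i with hij | hij
        · exact Or.inr (hup g' hg' j i hij)
        · exact Or.inl (hlo g' hg' j i hij)
      · rcases Nat.le_total i j with hij | hij
        · exact Or.inl (f.2.1 (by exact_mod_cast hij))
        · exact Or.inr (f.2.1 (by exact_mod_cast hij))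
  have hV5 : V.card ≤ 5 := by
    refine S.ht (f.1 0) V hVchain fun v hv => ⟨hVlo v hv, ?_⟩
    rw [← hfN]
    exact hVup v hv
  -- the rank function
  let r : S.P → ℕ := fun v => (V.filter fun u => u < v).card
  have hr_mono : ∀ u v : S.P, u ≤ v → r u ≤ r v := by
    intro u v huv
    exact Finset.card_le_card fun w hw => by
      rw [Finset.mem_filter] at hw ⊢
      exact ⟨hw.1, hw.2.trans_le huv⟩
  have hr_lt : ∀ u ∈ V, ∀ v : S.P, u < v → r u < r v := by
    intro u hu v huv
    refine Finset.card_lt_card ((Finset.ssubset_iff_of_subset fun w hw => ?_).2 ⟨u, ?_, ?_⟩)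
    · rw [Finset.mem_filter] at hw ⊢
      exact ⟨hw.1, hw.2.trans huv⟩
    · rw [Finset.mem_filter]
      exact ⟨hu, huv⟩
    · rw [Finset.mem_filter]
      exact fun hh => lt_irrefl _ hh.2
  have hr0 : r (f.1 0) = 0 := by
    show (V.filter fun u => u < f.1 0).card = 0
    rw [Finset.card_eq_zero, Finset.filter_eq_empty_iff]
    intro v hv hlt
    exact absurd (hVlo v hv) (not_le_of_gt hlt)
  have hrN : r (f.1 N) + 1 = V.card := by
    have h1 : (V.filter fun u => u < f.1 N) = V.erase (f.1 N) := by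
      ext v
      rw [Finset.mem_filter, Finset.mem_erase]
      constructor
      · rintro ⟨h1, h2⟩
        exact ⟨h2.ne, h1⟩
      · rintro ⟨h1, h2⟩
        exact ⟨h2, lt_of_le_of_ne (hVup v h2) h1⟩
    show (V.filter fun u => u < f.1 N).card + 1 = V.card
    rw [h1, Finset.card_erase_add_one (hVf N le_rfl)]
  let R : seqSub h N → ℕ := fun g => ∑ i ∈ Finset.range N, r (g.1 (i : ℕ))
  have hR1 : R (seqShift h N f) + r (f.1 0) = R f + r (f.1 N) := by
    show ∑ i ∈ Finset.range N, r (f.1 ((i : ℤ) + 1)) + r (f.1 0) =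
      ∑ i ∈ Finset.range N, r (f.1 (i : ℕ)) + r (f.1 N)
    have h1 := Finset.sum_range_succ (fun i : ℕ => r (f.1 (i : ℕ))) N
    have h2 := Finset.sum_range_succ' (fun i : ℕ => r (f.1 (i : ℕ))) N
    have h3 : ∀ i : ℕ, ((i + 1 : ℕ) : ℤ) = (i : ℤ) + 1 := fun i => by push_cast; rfl
    rw [h1] at h2
    simp only [h3, Nat.cast_zero] at h2
    exact h2.symm
  have hRlo : ∀ g ∈ s, R f ≤ R g := fun g hg =>
    Finset.sum_le_sum fun i _ => hr_mono _ _ ((hx g hg).1 i)
  have hRup : ∀ g ∈ s, R g ≤ R (seqShift h N f) := fun g hg =>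
    Finset.sum_le_sum fun i _ => hr_mono _ _ ((hx g hg).2 i)
  have hRlt : ∀ g ∈ s, ∀ g' ∈ s, g ≤ g' → g ≠ g' → R g < R g' := by
    intro g hg g' hg' hle hne
    have hex : ∃ i : ℕ, i < N ∧ g.1 i ≠ g'.1 i := by
      by_contra hcon
      push Not at hcon
      exact hne (seq_ext h N hN g g' hcon)
    obtain ⟨i, hi, hi2⟩ := hex
    refine Finset.sum_lt_sum (fun j _ => hr_mono _ _ (hle j)) ⟨i, Finset.mem_range.2 hi, ?_⟩
    exact hr_lt _ (hVg g hg i hi) _ (lt_of_le_of_ne (hle i) hi2)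
  have hcard : s.card ≤ (Finset.Icc (R f) (R (seqShift h N f))).card := by
    refine Finset.card_le_card_of_injOn R (fun g hg => ?_) ?_
    · exact Finset.mem_Icc.2 ⟨hRlo g hg, hRup g hg⟩
    · intro g hg g' hg' he
      by_contra hne
      rcases hs hg hg' hne with hle | hle
      · exact absurd he (hRlt g hg g' hg' hle hne).ne
      · exact absurd he.symm (hRlt g' hg' g hg hle (Ne.symm hne)).ne
  rw [Nat.card_Icc] at hcard
  omega

/-- The system of sequences. -/
def seqSys (hN : 0 < N) : Sys where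
  P := seqSub h N
  φ := seqShift h N
  lt_φ := seq_lt h N hN
  cof := seq_cof h N hN
  fin := seq_fin h N hN
  ht := seq_ht h N hN

end

theorem SeqHyp.nonempty_ext_proof {S : Sys} {Z : S.P → Prop} (h : SeqHyp S Z) (N : ℕ)
    (hN : 0 < N) : Nonempty (SeqExt S Z N) :=
  ⟨{ T := seqSys h N hN
     ev := fun f => f.1
     le := fun _ _ => Iff.rfl
     mono := fun f => f.2.1
     per := fun f => f.2.2.1
     nz := fun f => f.2.2.2
     exists_of := fun f h1 h2 h3 => ⟨⟨f, h1, h2, h3⟩, rfl⟩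
     shift := fun _ _ => rfl }⟩

end Pool.Agent.GNU
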