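import Pool.Agent.Lib_helper58.GNU.Shim1
import Pool.Agent.Lib_helper58.GNU.INS
import Pool.Agent.Lib_helper58.GNU.Seq
import Pool.Agent.Lib_helper58.GNU.HYPD
import Pool.Agent.Lib_helper58.GNU.JOIN
import Pool.Agent.Lib_helper58.GNU.PRES
import Pool.Agent.Lib_helper58.GNU.FGR

set_option autoImplicit false

namespace Pool.Agent.GNU

theorem InsHyp.nonempty_ext {S : Sys} {J : S.P → S.P → Prop} (h : InsHyp S J) :
    Nonempty (InsExt S J) := InsHyp.nonempty_ext_proof h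

theorem SeqHyp.nonempty_ext {S : Sys} {Z : S.P → Prop} (h : SeqHyp S Z) (N : ℕ) (hN : 0 < N) :
    Nonempty (SeqExt S Z N) := SeqHyp.nonempty_ext_proof h N hN

theorem insHyp_JD (S : Sys) (A : InsExt S S.JA) (N : ℕ) (hN : 2 ≤ N) (Q : SeqExt A.T A.Z N) :
    InsHyp Q.T (JD A N Q) := insHyp_JD_proof S A N hN Q

theorem Sys.nonempty_pres (S : Sys) (h : Nonempty S.P) : Nonempty S.Pres :=
  Sys.nonempty_pres_proof S h

theorem nonempty_FG (O : Type) : Nonempty (FG O) := nonempty_FG_proof O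

theorem FG.exists_lub {O : Type} (F : FG O) {D : O → O → ℤ} (hD : DistHyp D) (h : F.H) (t : ℤ) :
    ∃ (z : F.H) (s : ℤ), (F.L D z ≤ s ∧ F.L D (h⁻¹ * z) ≤ s - t) ∧
      ∀ k u, F.L D k ≤ u → F.L D (h⁻¹ * k) ≤ u - t → F.L D (z⁻¹ * k) ≤ u - s :=
  FG.exists_lub_proof F hD h t

end Pool.Agent.GNU
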