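import Pool.Agent.Lib_helper58.GNU.SeqLib
import Pool.Agent.Lib_helper58.GNU.Shim2

/-!
The new good path.
-/

set_option autoImplicit false

namespace Pool.Agent.GNU

section

variable {S : Sys} (A : InsExt S S.JA)

theorem Z_inv (u : A.T.P) : A.Z (A.T.φ u) ↔ A.Z u := (seqHyp_Z (insHyp_JA S) A).inv u

theorem not_Z_inl (x : S.P) : ¬ A.Z (A.inl x) := by
  rintro ⟨a, b, h, e⟩
  exact A.inl_ne_mid _ _ _ _ e

theorem Z_mid (a b : S.P) (h : S.JA a b) : A.Z (A.mid a b h) := ⟨a, b, h, rfl⟩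

/-- A sequence has an entry in `Z` only if it has one in the window `0, …, N - 1`. -/
theorem no_Z {N : ℕ} (hN : 0 < N) (Q : SeqExt A.T A.Z N) (f : Q.T.P)
    (h : ∀ r : ℕ, r < N → ¬ A.Z (Q.ev f r)) (i : ℤ) : ¬ A.Z (Q.ev f i) := by
  have hinv' : ∀ (q : ℕ) u, A.Z ((A.T.φ ^ q) u) ↔ A.Z u := by
    intro q
    induction q with
    | zero => intro u; simp
    | succ q ih =>
      intro u; rw [pow_succ']; show A.Z (A.T.φ ((A.T.φ ^ q) u)) ↔ _; rw [Z_inv, ih]
  have hinvz : ∀ (q : ℤ) u, A.Z ((A.T.φ ^ q) u) ↔ A.Z u := by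
    intro q u
    obtain ⟨n, rfl | rfl⟩ := q.eq_nat_or_neg
    · simpa using hinv' n u
    · rw [← hinv' n ((A.T.φ ^ (-(n : ℤ))) u), ← zpow_natCast, ← RelIso.mul_apply, ← zpow_add]
      simp
  obtain ⟨q, r, hr, rfl⟩ := SeqExt.window hN 0 i
  rw [Q.per_int, hinvz]
  simpa using h r hr

/-- A pair in `JD` has a common entry in `Z`. -/
theorem JD.common {N : ℕ} {Q : SeqExt A.T A.Z N} {f g : Q.T.P} (h : JD A N Q f g) :
    ∃ i, A.Z (Q.ev f i) ∧ A.Z (Q.ev g i) := by
  obtain ⟨x, x', hx, h, j, b, hb, hf, hg⟩ := h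
  exact ⟨j + (N - 1), by rw [hf.2.2]; exact Z_mid A _ _ _, by rw [hg.2.2]; exact Z_mid A _ _ _⟩

end

theorem exists_F_proof (S : Sys) (A : InsExt S S.JA) (N : ℕ) (hN : 2 ≤ N) (Q : SeqExt A.T A.Z N)
    (x : S.P) : ∃ f : Q.T.P, ∀ i : ℕ, i < N → Q.ev f i = A.inl x := by
  obtain ⟨f, hf⟩ := Q.exists_window (by omega) (Z_inv A)
    (fun i => if i < N then A.inl x else A.inl (S.φ x))
    (by simp only [lt_irrefl, if_false]; rw [if_pos (by omega), A.φ_inl])
    (fun i hi => by
      simp only [hi, if_true]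
      split_ifs
      · exact le_rfl
      · exact (A.inl_le_inl _ _).2 (S.lt_φ x).le)
    (fun i hi hz => by
      simp only [hi, if_true] at hz
      exact absurd hz (not_Z_inl A x))
  exact ⟨f, fun i hi => by rw [hf i hi.le]; simp [hi]⟩

section

variable {S : Sys} (A : InsExt S S.JA) {N : ℕ} (hN : 2 ≤ N) (Q : SeqExt A.T A.Z N)
  {x x' : S.P} (h : S.Good x x')

include h in
theorem Sys.Good.JA : S.JA x' (S.φ x) := ⟨x, h, rfl⟩

include h in
theorem Sys.Good.lt_φ : x' < S.φ x := by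
  obtain ⟨_, y, h1, h2⟩ := h
  exact h1.trans h2

include h in
theorem good_cov1 : A.inl x ⋖ A.inl x' :=
  A.inl_covBy_inl (fun _ _ h => Sys.JA.lt h) h.1 fun h' => Sys.JA.not_covBy h' h.1

include h in
theorem good_cov4 : A.inl (S.φ x) ⋖ A.inl (S.φ x') := by
  have h1 : S.φ x ⋖ S.φ x' := by
    refine ⟨S.φ.strictMono h.1.1, fun y h1 h2 => ?_⟩
    refine h.1.2 (c := S.φ.symm y) ?_ ?_
    · rw [← S.φ.lt_iff_lt]; simpa using h1
    · rw [← S.φ.lt_iff_lt]; simpa using h2
  exact A.inl_covBy_inl (fun _ _ h => Sys.JA.lt h) h1 fun h' => Sys.JA.not_covBy h' h1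

theorem good_cov2 : A.inl x' ⋖ A.mid x' (S.φ x) h.JA :=
  A.inl_covBy_mid (fun _ _ h => Sys.JA.lt h) _ _ _

theorem good_cov3 : A.mid x' (S.φ x) h.JA ⋖ A.inl (S.φ x) :=
  A.mid_covBy_inl (fun _ _ h => Sys.JA.lt h) _ _ _

include hN h in
theorem exists_G1 : ∃ f : Q.T.P, (∀ i : ℕ, i + 1 < N → Q.ev f i = A.inl x) ∧
    Q.ev f ((N - 1 : ℕ) : ℤ) = A.inl x' := by
  obtain ⟨f, hf⟩ := Q.exists_window (by omega) (Z_inv A)
    (fun i => if i + 1 < N then A.inl x else if i < N then A.inl x' else A.inl (S.φ x))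
    (by
      simp only [lt_irrefl, if_false]
      rw [if_neg (by omega), if_pos (by omega), A.φ_inl])
    (fun i hi => by
      show (if i + 1 < N then A.inl x else if i < N then A.inl x' else A.inl (S.φ x)) ≤
        (if i + 1 + 1 < N then A.inl x else if i + 1 < N then A.inl x' else A.inl (S.φ x))
      have e1 := (A.inl_le_inl _ _).2 h.1.1.le
      have e2 := (A.inl_le_inl _ _).2 h.lt_φ.le
      split_ifs
      all_goals first
        | exact le_rfl
        | exact e1
        | exact e2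
        | omega)
    (fun i hi hz => by
      exfalso
      revert hz
      show ¬ A.Z (if i + 1 < N then A.inl x else if i < N then A.inl x' else A.inl (S.φ x))
      split_ifs <;> exact not_Z_inl A _)
  refine ⟨f, fun i hi => ?_, ?_⟩
  · rw [hf i (by omega), if_pos hi]
  · rw [hf (N - 1) (by omega), if_neg (by omega), if_pos (by omega)]

include hN h in
theorem exists_G2 : ∃ f : Q.T.P, (∀ i : ℕ, i + 1 < N → Q.ev f i = A.inl x') ∧
    Q.ev f ((N - 1 : ℕ) : ℤ) = A.inl (S.φ x) := by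
  obtain ⟨f, hf⟩ := Q.exists_window (by omega) (Z_inv A)
    (fun i => if i + 1 < N then A.inl x' else if i < N then A.inl (S.φ x) else A.inl (S.φ x'))
    (by
      simp only [lt_irrefl, if_false]
      rw [if_neg (by omega), if_pos (by omega), A.φ_inl])
    (fun i hi => by
      show (if i + 1 < N then A.inl x' else if i < N then A.inl (S.φ x) else A.inl (S.φ x')) ≤
        (if i + 1 + 1 < N then A.inl x' else if i + 1 < N then A.inl (S.φ x)
          else A.inl (S.φ x'))
      have e1 := (A.inl_le_inl _ _).2 h.lt_φ.le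
      have e2 := (good_cov4 A h).1.le
      split_ifs
      all_goals first
        | exact le_rfl
        | exact e1
        | exact e2
        | omega)
    (fun i hi hz => by
      exfalso
      revert hz
      show ¬ A.Z (if i + 1 < N then A.inl x' else if i < N then A.inl (S.φ x)
        else A.inl (S.φ x'))
      split_ifs <;> exact not_Z_inl A _)
  refine ⟨f, fun i hi => ?_, ?_⟩
  · rw [hf i (by omega), if_pos hi]
  · rw [hf (N - 1) (by omega), if_neg (by omega), if_pos (by omega)]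

include hN in
theorem exists_strip (b : ℕ) (hb : b < N) : ∃ f : Q.T.P, IsStrip A N Q x x' h.JA 0 b f := by
  obtain ⟨f, hf⟩ := Q.exists_window (by omega) (Z_inv A)
    (fun i => if i + b + 1 < N then A.inl x else if i + 1 < N then A.inl x'
      else if i < N then A.mid x' (S.φ x) h.JA
      else if b + 1 < N then A.inl (S.φ x) else A.inl (S.φ x'))
    (by
      simp only [lt_irrefl, if_false]
      rw [if_neg (by omega), if_neg (by omega)]
      split_ifs with h1 h2 h3 h3
      · rw [A.φ_inl]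
      · omega
      · omega
      · omega
      · omega
      · rw [A.φ_inl]
      · omega
      · omega)
    (fun i hi => by
      show (if i + b + 1 < N then A.inl x else if i + 1 < N then A.inl x'
          else if i < N then A.mid x' (S.φ x) h.JA
          else if b + 1 < N then A.inl (S.φ x) else A.inl (S.φ x')) ≤
        (if i + 1 + b + 1 < N then A.inl x else if i + 1 + 1 < N then A.inl x'
          else if i + 1 < N then A.mid x' (S.φ x) h.JA
          else if b + 1 < N then A.inl (S.φ x) else A.inl (S.φ x'))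
      have e1 := (good_cov1 A h).1.le
      have e2 := (good_cov2 A h).1.le
      have e3 := (good_cov3 A h).1.le
      have e4 := (good_cov4 A h).1.le
      have e5 := e1.trans e2
      have e6 := e3.trans e4
      split_ifs
      all_goals first
        | exact le_rfl
        | exact e1
        | exact e2
        | exact e3
        | exact e4
        | exact e5
        | exact e6
        | omega)
    (fun i hi hz => by
      by_cases h1 : i + 1 < N
      · exfalso
        revert hz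
        show ¬ A.Z (if i + b + 1 < N then A.inl x else if i + 1 < N then A.inl x'
          else if i < N then A.mid x' (S.φ x) h.JA
          else if b + 1 < N then A.inl (S.φ x) else A.inl (S.φ x'))
        split_ifs <;> exact not_Z_inl A _
      · show (if i + 1 + b + 1 < N then A.inl x else if i + 1 + 1 < N then A.inl x'
          else if i + 1 < N then A.mid x' (S.φ x) h.JA
          else if b + 1 < N then A.inl (S.φ x) else A.inl (S.φ x')) ≠
          (if i + b + 1 < N then A.inl x else if i + 1 < N then A.inl x'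
          else if i < N then A.mid x' (S.φ x) h.JA
          else if b + 1 < N then A.inl (S.φ x) else A.inl (S.φ x'))
        split_ifs
        all_goals first
          | omega
          | exact A.inl_ne_mid _ _ _ _)
  refine ⟨f, fun i hi => ?_, fun i hi hi' => ?_, ?_⟩
  · rw [zero_add, hf i (by omega), if_pos hi]
  · rw [zero_add, hf i (by omega), if_neg (by omega), if_pos hi']
  · have : (0 : ℤ) + (N - 1) = ((N - 1 : ℕ) : ℤ) := by omega
    rw [this, hf (N - 1) (by omega), if_neg (by omega), if_neg (by omega), if_pos (by omega)]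

include hN in
/-- No common `Z`-entry: not a pair of `JD`. -/
theorem not_JD_left {f g : Q.T.P} (hf : ∀ r : ℕ, r < N → ¬ A.Z (Q.ev f r)) : ¬ JD A N Q f g := by
  intro hj
  obtain ⟨i, h1, _⟩ := JD.common A hj
  exact no_Z A (by omega) Q f hf i h1

include hN in
theorem not_JD_right {f g : Q.T.P} (hg : ∀ r : ℕ, r < N → ¬ A.Z (Q.ev g r)) :
    ¬ JD A N Q f g := by
  intro hj
  obtain ⟨i, _, h1⟩ := JD.common A hj
  exact no_Z A (by omega) Q g hg i h1

end

theorem new_path_proof (S : Sys) (A : InsExt S S.JA) (N : ℕ) (hN : 2 ≤ N) (Q : SeqExt A.T A.Z N)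
    (B : InsExt Q.T (JD A N Q)) (x x' : S.P) (h : S.Good x x') (f f' : Q.T.P)
    (hf : ∀ i : ℕ, i < N → Q.ev f i = A.inl x) (hf' : ∀ i : ℕ, i < N → Q.ev f' i = A.inl x') :
    B.T.Reach (2 * N + 2) (B.inl f) (B.T.φ (B.inl f')) := by
  have hN0 : 0 < N := by omega
  have hD := insHyp_JD S A N hN Q
  obtain ⟨G1, hG1, hG1'⟩ := exists_G1 A hN Q h
  obtain ⟨G2, hG2, hG2'⟩ := exists_G2 A hN Q h
  have hst : ∀ b : ℕ, ∃ g : Q.T.P, b < N → IsStrip A N Q x x' h.JA 0 b g := by
    intro b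
    by_cases hb : b < N
    · obtain ⟨g, hg⟩ := exists_strip A hN Q h b hb
      exact ⟨g, fun _ => hg⟩
    · exact ⟨f, fun h => absurd h hb⟩
  choose F hF using hst
  have hJD : ∀ b, b + 2 ≤ N → JD A N Q (F b) (F (b + 1)) := fun b hb =>
    ⟨x, x', h, h.JA, 0, b, hb, hF b (by omega), hF (b + 1) (by omega)⟩
  -- window values
  have hcast : (0 : ℤ) + (N - 1) = ((N - 1 : ℕ) : ℤ) := by omega
  have F0 : ∀ b, ∀ i : ℕ, i + b + 1 < N → Q.ev (F b) i = A.inl x := fun b i hi => by
    simpa using (hF b (by omega)).1 i hi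
  have F1 : ∀ b, b < N → ∀ i : ℕ, N ≤ i + b + 1 → i + 1 < N → Q.ev (F b) i = A.inl x' :=
    fun b hb i hi hi' => by simpa using (hF b hb).2.1 i hi hi'
  have F2 : ∀ b, b < N → Q.ev (F b) ((N - 1 : ℕ) : ℤ) = A.mid x' (S.φ x) h.JA :=
    fun b hb => by simpa [hcast] using (hF b hb).2.2
  -- shifted values
  have sh1 : ∀ (g : Q.T.P) (r : ℕ), Q.ev (Q.T.φ g) r = Q.ev g ((r + 1 : ℕ) : ℤ) := fun g r => by
    rw [Q.shift]; push_cast; rfl
  have sh2 : ∀ (g : Q.T.P), Q.ev (Q.T.φ g) ((N - 1 : ℕ) : ℤ) = A.T.φ (Q.ev g ((0 : ℕ) : ℤ)) :=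
    fun g => by
      rw [sh1, show N - 1 + 1 = 0 + N by omega]
      push_cast
      rw [Q.per]
  have c1 := good_cov1 A h
  have c2 := good_cov2 A h
  have c3 := good_cov3 A h
  have c4 := good_cov4 A h
  -- splitting the window
  have win : ∀ r : ℕ, r < N → r + 1 < N ∨ r = N - 1 := fun r hr => by omega
  -- covers in Q.T
  have k1 : f ⋖ G1 := by
    refine Q.cover_of_window hN0 0 (N - 1) (by omega) (fun r hr hr' => ?_) ?_
    · rw [zero_add, hf r hr, hG1 r (by omega)]
    · rw [zero_add, hf _ (by omega), hG1']; exact c1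
  have k2 : G1 ⋖ F 0 := by
    refine Q.cover_of_window hN0 0 (N - 1) (by omega) (fun r hr hr' => ?_) ?_
    · rw [zero_add, F0 0 r (by omega), hG1 r (by omega)]
    · rw [zero_add, hG1', F2 0 hN0]; exact c2
  have k3 : F (N - 1) ⋖ G2 := by
    refine Q.cover_of_window hN0 0 (N - 1) (by omega) (fun r hr hr' => ?_) ?_
    · rw [zero_add, F1 (N - 1) (by omega) r (by omega) (by omega), hG2 r (by omega)]
    · rw [zero_add, hG2', F2 (N - 1) (by omega)]; exact c3
  have k4 : G2 ⋖ Q.T.φ f' := by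
    refine Q.cover_of_window hN0 0 (N - 1) (by omega) (fun r hr hr' => ?_) ?_
    · rw [zero_add, hG2 r (by omega), sh1, hf' _ (by omega)]
    · rw [zero_add, hG2', sh2, hf' 0 (by omega), A.φ_inl]; exact c4
  -- no Z entries
  have z0 : ∀ r : ℕ, r < N → ¬ A.Z (Q.ev f r) := fun r hr => by
    rw [hf r hr]; exact not_Z_inl A _
  have z1 : ∀ r : ℕ, r < N → ¬ A.Z (Q.ev G1 r) := fun r hr => by
    rcases win r hr with h1 | rfl
    · rw [hG1 r h1]; exact not_Z_inl A _
    · rw [hG1']; exact not_Z_inl A _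
  have z2 : ∀ r : ℕ, r < N → ¬ A.Z (Q.ev G2 r) := fun r hr => by
    rcases win r hr with h1 | rfl
    · rw [hG2 r h1]; exact not_Z_inl A _
    · rw [hG2']; exact not_Z_inl A _
  have hlt : ∀ a b, JD A N Q a b → a < b := hD.lt
  have e1 : B.inl f ⋖ B.inl G1 := B.inl_covBy_inl hlt k1 (not_JD_left A hN Q z0)
  have e2 : B.inl G1 ⋖ B.inl (F 0) := B.inl_covBy_inl hlt k2 (not_JD_left A hN Q z1)
  have e3 : B.inl (F (N - 1)) ⋖ B.inl G2 := B.inl_covBy_inl hlt k3 (not_JD_right A hN Q z2)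
  have e4 : B.inl G2 ⋖ B.inl (Q.T.φ f') := B.inl_covBy_inl hlt k4 (not_JD_left A hN Q z2)
  -- strict inequalities
  have lt_of : ∀ {u v : Q.T.P} (r₀ : ℕ), r₀ < N →
      (∀ r : ℕ, r < N → Q.ev u r ≤ Q.ev v r) → Q.ev u r₀ < Q.ev v r₀ → u < v := by
    intro u v r₀ hr₀ hle hl
    refine lt_of_le_of_ne (Q.le_window hN0 0 fun r hr => by simpa using hle r hr) ?_
    rintro rfl
    exact lt_irrefl _ hl
  have l1 : F 0 < Q.T.φ f := by
    refine lt_of (N - 1) (by omega) (fun r hr => ?_) ?_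
    · rcases win r hr with h1 | rfl
      · rw [F0 0 r (by omega), sh1, hf _ h1]
      · rw [F2 0 hN0, sh2, hf 0 hN0, A.φ_inl]; exact c3.1.le
    · rw [F2 0 hN0, sh2, hf 0 hN0, A.φ_inl]; exact c3.1
  have l2 : Q.T.φ f < Q.T.φ G1 := Q.T.φ.strictMono k1.1
  have l3 : ∀ b, b + 2 ≤ N → F (b + 1) < Q.T.φ (F b) := by
    intro b hb
    refine lt_of_le_of_ne (hD.le _ _ (hJD b hb)) fun e => ?_
    have e' : Q.ev (F (b + 1)) ((N - 1 : ℕ) : ℤ) = Q.ev (Q.T.φ (F b)) ((N - 1 : ℕ) : ℤ) := by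
      rw [e]
    rw [F2 _ (by omega), sh2, F0 b 0 (by omega), A.φ_inl] at e'
    exact A.inl_ne_mid _ _ _ _ e'.symm
  have l4 : Q.T.φ f' < Q.T.φ (F (N - 1)) := by
    refine Q.T.φ.strictMono (lt_of (N - 1) (by omega) (fun r hr => ?_) ?_)
    · rcases win r hr with h1 | rfl
      · rw [hf' r hr, F1 (N - 1) (by omega) r (by omega) h1]
      · rw [hf' _ hr, F2 (N - 1) (by omega)]; exact c2.1.le
    · rw [hf' _ (by omega), F2 (N - 1) (by omega)]; exact c2.1
  have l5 : Q.T.φ (F (N - 1)) < Q.T.φ G2 := Q.T.φ.strictMono k3.1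
  -- good edges
  have g1 : B.T.Good (B.inl f) (B.inl G1) :=
    ⟨e1, B.inl (F 0), e2.1, by rw [B.φ_inl]; exact (B.inl_lt_inl _ _).2 l1⟩
  have g2 : B.T.Good (B.inl G1) (B.inl (F 0)) :=
    ⟨e2, B.inl (Q.T.φ f), (B.inl_lt_inl _ _).2 l1, by
      rw [B.φ_inl]; exact (B.inl_lt_inl _ _).2 l2⟩
  have g3 : ∀ b (hb : b + 2 ≤ N), B.T.Good (B.inl (F b)) (B.mid _ _ (hJD b hb)) := fun b hb =>
    ⟨B.inl_covBy_mid hlt _ _ _, B.inl (F (b + 1)), B.mid_lt_inl _ _ _, by
      rw [B.φ_inl]; exact (B.inl_lt_inl _ _).2 (l3 b hb)⟩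
  have g4 : ∀ b (hb : b + 2 ≤ N), B.T.Good (B.mid _ _ (hJD b hb)) (B.inl (F (b + 1))) :=
    fun b hb => ⟨B.mid_covBy_inl hlt _ _ _, B.inl (Q.T.φ (F b)),
      (B.inl_lt_inl _ _).2 (l3 b hb), by
        rw [B.φ_mid _ _ (hJD b hb) ((hD.inv _ _).2 (hJD b hb))]
        exact B.inl_lt_mid _ _ _⟩
  have g5 : B.T.Good (B.inl (F (N - 1))) (B.inl G2) :=
    ⟨e3, B.inl (Q.T.φ f'), e4.1, by rw [B.φ_inl]; exact (B.inl_lt_inl _ _).2 l4⟩
  have g6 : B.T.Good (B.inl G2) (B.inl (Q.T.φ f')) :=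
    ⟨e4, B.inl (Q.T.φ (F (N - 1))), (B.inl_lt_inl _ _).2 l4, by
      rw [B.φ_inl]; exact (B.inl_lt_inl _ _).2 l5⟩
  -- the middle part
  have mid : ∀ b, b < N → B.T.Reach (2 * b) (B.inl (F 0)) (B.inl (F b)) := by
    intro b
    induction b with
    | zero => intro _; exact Sys.Reach.refl _
    | succ b ih =>
      intro hb
      have := (ih (by omega)).trans
        (Sys.Reach.step (g3 b (by omega)) (Sys.Reach.step (g4 b (by omega)) (Sys.Reach.refl _)))
      exact this
  rw [B.φ_inl]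
  have r1 := (mid (N - 1) (by omega)).trans
    (Sys.Reach.step g5 (Sys.Reach.step g6 (Sys.Reach.refl _)))
  have r2 := Sys.Reach.step g1 (Sys.Reach.step g2 r1)
  have e : 2 * (N - 1) + (0 + 1 + 1) + 1 + 1 = 2 * N + 2 := by omega
  rw [e] at r2
  exact r2

end Pool.Agent.GNU
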