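import Pool.Agent.Lib_helper58.GNU.Defs

/-!
Garside systems: basic facts (finiteness of intervals, transport of good edges and paths).
-/

set_option autoImplicit false

namespace Pool.Agent.GNU

theorem Sys.zpow_strictMono (S : Sys) (p : S.P) : StrictMono (fun m : ℤ => (S.φ ^ m) p) := by
  refine strictMono_int_of_lt_succ fun n => ?_
  show (S.φ ^ n) p < (S.φ ^ (n + 1)) p
  rw [zpow_add_one, RelIso.mul_apply]
  exact (S.φ ^ n).strictMono (S.lt_φ p)

/-- Intervals are finite. -/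
theorem Sys.finite_Icc_proof (S : Sys) (x y : S.P) : (Set.Icc x y).Finite := by
  obtain ⟨F, hF, hF2⟩ := S.fin
  have key : ∀ p : S.P, ∃ a b : ℤ, ∀ m : ℤ, x ≤ (S.φ ^ m) p → (S.φ ^ m) p ≤ y →
      m ∈ Set.Icc a b := by
    intro p
    obtain ⟨b, hb⟩ := S.cof p y
    obtain ⟨a, ha⟩ := S.cof x p
    refine ⟨-(a : ℤ), b, fun m h1 h2 => ⟨?_, ?_⟩⟩
    · have h3 : (S.φ ^ (-(a : ℤ))) p ≤ x := by
        have := (S.φ ^ (-(a : ℤ))).monotone ha
        rwa [← RelIso.mul_apply, ← zpow_natCast S.φ a, ← zpow_add, neg_add_cancel, zpow_zero,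
          RelIso.one_apply] at this
      exact (S.zpow_strictMono p).le_iff_le.1 (h3.trans h1)
    · have h3 : y ≤ (S.φ ^ (b : ℤ)) p := by rwa [zpow_natCast]
      exact (S.zpow_strictMono p).le_iff_le.1 (h2.trans h3)
  choose a b hab using key
  refine Set.Finite.subset (hF.biUnion fun p _ =>
    ((Set.finite_Icc (a p) (b p)).image fun m : ℤ => (S.φ ^ m) p)) ?_
  intro z hz
  obtain ⟨n, hn⟩ := hF2 z
  have hz2 : (S.φ ^ (-n)) ((S.φ ^ n) z) = z := by
    rw [← RelIso.mul_apply, ← zpow_add, neg_add_cancel, zpow_zero, RelIso.one_apply]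
  refine Set.mem_biUnion hn ⟨-n, hab _ _ ?_ ?_, hz2⟩
  · rw [hz2]; exact hz.1
  · rw [hz2]; exact hz.2

theorem Sys.Good.map_proof {S : Sys} {x y : S.P} (h : S.Good x y) :
    S.Good (S.φ x) (S.φ y) := by
  obtain ⟨h1, z, h2, h3⟩ := h
  exact ⟨(apply_covBy_apply_iff S.φ).2 h1, S.φ z, S.φ.strictMono h2, S.φ.strictMono h3⟩

theorem Sys.Good.map_symm_proof {S : Sys} {x y : S.P} (h : S.Good x y) :
    S.Good (S.φ.symm x) (S.φ.symm y) := by
  obtain ⟨h1, z, h2, h3⟩ := h
  refine ⟨(apply_covBy_apply_iff S.φ.symm).2 h1, S.φ.symm z, S.φ.symm.strictMono h2, ?_⟩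
  have := S.φ.symm.strictMono h3
  rwa [S.φ.symm_apply_apply, ← S.φ.apply_symm_apply x] at this

theorem Sys.Reach.trans_proof {S : Sys} {m n : ℕ} {x y z : S.P} (h : S.Reach m x y)
    (h' : S.Reach n y z) : S.Reach (m + n) x z := by
  induction h with
  | refl x => simpa using h'
  | @step m a b c hab hbc ih =>
    have := Sys.Reach.step hab (ih h')
    rwa [show m + 1 + n = m + n + 1 by omega]

theorem Sys.Reach.map_proof {S : Sys} {m : ℕ} {x y : S.P} (h : S.Reach m x y) :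
    S.Reach m (S.φ x) (S.φ y) := by
  induction h with
  | refl x => exact Sys.Reach.refl _
  | step hab hbc ih => exact Sys.Reach.step hab.map_proof ih

end Pool.Agent.GNU
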