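import Pool.Agent.Lib_helper58.GNU.Defs

/-!
General lemmas on `SeqExt`.
-/

set_option autoImplicit false

namespace Pool.Agent.GNU

namespace SeqExt

variable {S : Sys} {Z : S.P → Prop} {N : ℕ} (Q : SeqExt S Z N)

theorem ev_inj {f g : Q.T.P} (h : ∀ i, Q.ev f i = Q.ev g i) : f = g :=
  le_antisymm ((Q.le f g).2 fun i => (h i).le) ((Q.le g f).2 fun i => (h i).ge)

theorem per_nat (f : Q.T.P) (i : ℤ) (q : ℕ) : Q.ev f (i + N * q) = (S.φ ^ q) (Q.ev f i) := by
  induction q with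
  | zero => simp
  | succ q ih =>
    have : i + (N : ℤ) * ((q + 1 : ℕ) : ℤ) = (i + N * q) + N := by push_cast; ring
    rw [this, Q.per, ih, pow_succ']
    rfl

theorem per_int (f : Q.T.P) (i : ℤ) (q : ℤ) : Q.ev f (i + N * q) = (S.φ ^ q) (Q.ev f i) := by
  obtain ⟨n, rfl | rfl⟩ := q.eq_nat_or_neg
  · rw [Q.per_nat f i n]; simp
  · have h := Q.per_nat f (i + N * (-(n : ℤ))) n
    have e : i + (N : ℤ) * (-(n : ℤ)) + N * n = i := by ring
    rw [e] at h
    rw [h, ← zpow_natCast, ← RelIso.mul_apply, ← zpow_add]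
    simp

/-- Every integer is in a translate of the window starting at `j`. -/
theorem window (hN : 0 < N) (j i : ℤ) : ∃ (q : ℤ) (r : ℕ), r < N ∧ i = (j + r) + N * q := by
  refine ⟨(i - j) / N, ((i - j) % N).toNat, ?_, ?_⟩
  · have h1 : 0 ≤ (i - j) % N := Int.emod_nonneg _ (by omega)
    have h2 : (i - j) % N < N := Int.emod_lt_of_pos _ (by omega)
    omega
  · have h1 : 0 ≤ (i - j) % N := Int.emod_nonneg _ (by omega)
    have h3 := Int.emod_add_mul_ediv (i - j) N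
    rw [Int.toNat_of_nonneg h1]
    linarith

theorem le_window (hN : 0 < N) (j : ℤ) {f g : Q.T.P}
    (h : ∀ r : ℕ, r < N → Q.ev f (j + r) ≤ Q.ev g (j + r)) : f ≤ g := by
  rw [Q.le]
  intro i
  obtain ⟨q, r, hr, rfl⟩ := window hN j i
  rw [Q.per_int, Q.per_int]
  exact (S.φ ^ q).monotone (h r hr)

theorem ext_window (hN : 0 < N) (j : ℤ) {f g : Q.T.P}
    (h : ∀ r : ℕ, r < N → Q.ev f (j + r) = Q.ev g (j + r)) : f = g :=
  le_antisymm (Q.le_window hN j fun r hr => (h r hr).le)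
    (Q.le_window hN j fun r hr => (h r hr).ge)

/-- A sequence from the values on a window. -/
theorem exists_window (hN : 0 < N) (hinv : ∀ u, Z (S.φ u) ↔ Z u) (w : ℕ → S.P)
    (hw : w N = S.φ (w 0)) (hmono : ∀ i, i < N → w i ≤ w (i + 1))
    (hz : ∀ i, i < N → Z (w i) → w (i + 1) ≠ w i) :
    ∃ f : Q.T.P, ∀ i : ℕ, i ≤ N → Q.ev f i = w i := by
  have hinv' : ∀ (q : ℕ) u, Z ((S.φ ^ q) u) ↔ Z u := by
    intro q
    induction q with
    | zero => intro u; simp
    | succ q ih => intro u; rw [pow_succ']; show Z (S.φ ((S.φ ^ q) u)) ↔ _; rw [hinv, ih]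
  have hinvz : ∀ (q : ℤ) u, Z ((S.φ ^ q) u) ↔ Z u := by
    intro q u
    obtain ⟨n, rfl | rfl⟩ := q.eq_nat_or_neg
    · simpa using hinv' n u
    · rw [← hinv' n ((S.φ ^ (-(n : ℤ))) u), ← zpow_natCast, ← RelIso.mul_apply, ← zpow_add]
      simp
  let F : ℤ → S.P := fun i => (S.φ ^ (i / N)) (w (i % N).toNat)
  have hF : ∀ (q : ℤ) (r : ℕ), r < N → F (N * q + r) = (S.φ ^ q) (w r) := by
    intro q r hr
    have h1 : ((N : ℤ) * q + r) / N = q := by
      rw [Int.add_comm, Int.add_mul_ediv_left _ _ (by omega)]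
      rw [Int.ediv_eq_zero_of_lt (by omega) (by omega)]; simp
    have h2 : ((N : ℤ) * q + r) % N = r := by
      rw [Int.add_comm, Int.add_mul_emod_self_left]
      exact Int.emod_eq_of_lt (by omega) (by omega)
    show (S.φ ^ (((N : ℤ) * q + r) / N)) (w (((N : ℤ) * q + r) % N).toNat) = _
    rw [h1, h2]; simp
  have hF' : ∀ (q : ℤ) (r : ℕ), r ≤ N → F (N * q + r) = (S.φ ^ q) (w r) := by
    intro q r hr
    rcases hr.lt_or_eq with h | h
    · exact hF q r h
    · subst h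
      have e : (r : ℤ) * q + r = r * (q + 1) + (0 : ℕ) := by push_cast; ring
      rw [e, hF (q + 1) 0 hN, hw, zpow_add, zpow_one]
      rfl
  have hsucc : ∀ i : ℤ, ∃ (q : ℤ) (r : ℕ), r < N ∧ F i = (S.φ ^ q) (w r) ∧
      F (i + 1) = (S.φ ^ q) (w (r + 1)) := by
    intro i
    obtain ⟨q, r, hr, hi⟩ := window hN 0 i
    refine ⟨q, r, hr, ?_, ?_⟩
    · rw [hi, ← hF q r hr]; congr 1; ring
    · rw [hi, ← hF' q (r + 1) hr]; congr 1; push_cast; ring
  obtain ⟨g, hg⟩ := Q.exists_of F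
    (monotone_int_of_le_succ fun i => by
      obtain ⟨q, r, hr, h1, h2⟩ := hsucc i
      rw [h1, h2]; exact (S.φ ^ q).monotone (hmono r hr))
    (fun i => by
      obtain ⟨q, r, hr, hi⟩ := window hN 0 i
      have e1 : F i = (S.φ ^ q) (w r) := by rw [hi, ← hF q r hr]; congr 1; ring
      have e2 : F (i + N) = (S.φ ^ (q + 1)) (w r) := by
        rw [hi, ← hF (q + 1) r hr]; congr 1; ring
      rw [e1, e2, add_comm, zpow_add, zpow_one]; rfl)
    (fun i hi => by
      obtain ⟨q, r, hr, h1, h2⟩ := hsucc i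
      rw [h1] at hi
      rw [h1, h2]
      intro h
      exact hz r hr ((hinvz q _).1 hi) ((S.φ ^ q).injective h))
  refine ⟨g, fun i hi => ?_⟩
  rw [hg]
  have := hF' 0 i hi
  simpa using this

/-- A criterion for covers: change of one entry along a cover. -/
theorem cover_of_window (hN : 0 < N) (j : ℤ) (r₀ : ℕ) (hr₀ : r₀ < N) {f g : Q.T.P}
    (h : ∀ r : ℕ, r < N → r ≠ r₀ → Q.ev f (j + r) = Q.ev g (j + r))
    (hc : Q.ev f (j + r₀) ⋖ Q.ev g (j + r₀)) : f ⋖ g := by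
  have hle : f ≤ g := by
    refine Q.le_window hN j fun r hr => ?_
    by_cases e : r = r₀
    · subst e; exact hc.1.le
    · exact (h r hr e).le
  have hne : f ≠ g := by
    rintro rfl; exact lt_irrefl _ hc.1
  refine ⟨lt_of_le_of_ne hle hne, fun k hfk hkg => ?_⟩
  have h1 := (Q.le _ _).1 hfk.le
  have h2 := (Q.le _ _).1 hkg.le
  have key : ∀ r : ℕ, r < N → r ≠ r₀ → Q.ev k (j + r) = Q.ev f (j + r) := fun r hr hne =>
    le_antisymm ((h2 _).trans (h r hr hne).ge) (h1 _)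
  rcases hc.eq_or_eq (h1 _) (h2 _) with e | e
  · apply hfk.ne'
    refine Q.ext_window hN j fun r hr => ?_
    by_cases e' : r = r₀
    · subst e'; exact e
    · exact key r hr e'
  · apply hkg.ne
    refine Q.ext_window hN j fun r hr => ?_
    by_cases e' : r = r₀
    · subst e'; exact e
    · rw [key r hr e', h r hr e']

end SeqExt

namespace InsExt

variable {S : Sys} {J : S.P → S.P → Prop} (A : InsExt S J)

theorem inl_lt_inl (x y : S.P) : A.inl x < A.inl y ↔ x < y := by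
  rw [lt_iff_le_not_ge, lt_iff_le_not_ge, A.inl_le_inl, A.inl_le_inl]

theorem inl_inj {x y : S.P} (h : A.inl x = A.inl y) : x = y :=
  le_antisymm ((A.inl_le_inl _ _).1 h.le) ((A.inl_le_inl _ _).1 h.ge)

theorem inl_lt_mid (a b : S.P) (h : J a b) : A.inl a < A.mid a b h :=
  lt_of_le_of_ne ((A.inl_le_mid _ _ _ _).2 le_rfl) (A.inl_ne_mid _ _ _ _)

theorem mid_lt_inl (a b : S.P) (h : J a b) : A.mid a b h < A.inl b :=
  lt_of_le_of_ne ((A.mid_le_inl _ _ _ _).2 le_rfl) (A.inl_ne_mid _ _ _ _).symm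

theorem inl_covBy_mid (hJ : ∀ a b, J a b → a < b) (a b : S.P) (h : J a b) :
    A.inl a ⋖ A.mid a b h := by
  refine ⟨A.inl_lt_mid a b h, fun u h1 h2 => ?_⟩
  rcases A.cases u with ⟨y, rfl⟩ | ⟨c, d, h', rfl⟩
  · have := (A.inl_le_mid _ _ _ _).1 h2.le
    exact absurd ((A.inl_lt_inl _ _).1 h1) (not_lt_of_ge this)
  · have h3 := (A.inl_le_mid _ _ _ _).1 h1.le
    rcases (A.mid_le_mid _ _ _ _ _ _).1 h2.le with ⟨rfl, rfl⟩ | h4
    · exact lt_irrefl _ h2
    · exact absurd (hJ c d h') (not_lt_of_ge (h4.trans h3))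

theorem mid_covBy_inl (hJ : ∀ a b, J a b → a < b) (a b : S.P) (h : J a b) :
    A.mid a b h ⋖ A.inl b := by
  refine ⟨A.mid_lt_inl a b h, fun u h1 h2 => ?_⟩
  rcases A.cases u with ⟨y, rfl⟩ | ⟨c, d, h', rfl⟩
  · have := (A.mid_le_inl _ _ _ _).1 h1.le
    exact absurd ((A.inl_lt_inl _ _).1 h2) (not_lt_of_ge this)
  · have h3 := (A.mid_le_inl _ _ _ _).1 h2.le
    rcases (A.mid_le_mid _ _ _ _ _ _).1 h1.le with ⟨rfl, rfl⟩ | h4
    · exact lt_irrefl _ h1
    · exact absurd (hJ c d h') (not_lt_of_ge (h3.trans h4))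

theorem inl_covBy_inl (hJ : ∀ a b, J a b → a < b) {x y : S.P} (h : x ⋖ y) (hn : ¬ J x y) :
    A.inl x ⋖ A.inl y := by
  refine ⟨(A.inl_lt_inl _ _).2 h.1, fun u h1 h2 => ?_⟩
  rcases A.cases u with ⟨y, rfl⟩ | ⟨c, d, h', rfl⟩
  · exact h.2 ((A.inl_lt_inl _ _).1 h1) ((A.inl_lt_inl _ _).1 h2)
  · have h3 := (A.inl_le_mid _ _ _ _).1 h1.le
    have h4 := (A.mid_le_inl _ _ _ _).1 h2.le
    have h5 := hJ c d h'
    have e1 : c = x := by
      rcases h.eq_or_eq h3 (h5.le.trans h4) with e | e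
      · exact e
      · exact absurd (h5.trans_le h4) (by rw [e]; exact lt_irrefl _)
    have e2 : d = y := by
      rcases h.eq_or_eq (h3.trans h5.le) h4 with e | e
      · exact absurd (h3.trans_lt h5) (by rw [e]; exact lt_irrefl _)
      · exact e
    subst e1 e2
    exact hn h'

end InsExt

/-- `φ x` for a good edge is not reached by a good cover. -/
theorem Sys.JA.not_covBy {S : Sys} {a b : S.P} (h : S.JA a b) : ¬ a ⋖ b := by
  obtain ⟨x, ⟨_, y, h1, h2⟩, rfl⟩ := h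
  exact fun hc => hc.2 h1 h2

theorem Sys.JA.lt {S : Sys} {a b : S.P} (h : S.JA a b) : a < b := by
  obtain ⟨x, ⟨_, y, h1, h2⟩, rfl⟩ := h
  exact h1.trans h2

end Pool.Agent.GNU
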