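import Pool.Agent.Lib_helper58.GNU.Shim3
import Pool.Agent.Lib_helper58.GNU.SeqLib

/-!
Block STEP.
-/

set_option autoImplicit false

namespace Pool.Agent.GNU

theorem InsExt.φ_pow_inl {S : Sys} {J : S.P → S.P → Prop} (A : InsExt S J) (n : ℕ) (x : S.P) :
    (A.T.φ ^ n) (A.inl x) = A.inl ((S.φ ^ n) x) := by
  induction n with
  | zero => rfl
  | succ n ih =>
    rw [pow_succ', pow_succ']
    show A.T.φ ((A.T.φ ^ n) (A.inl x)) = A.inl (S.φ ((S.φ ^ n) x))
    rw [ih, A.φ_inl]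

theorem SeqExt.ev_φ_pow {S : Sys} {Z : S.P → Prop} {N : ℕ} (Q : SeqExt S Z N) (n : ℕ)
    (f : Q.T.P) (i : ℤ) : Q.ev ((Q.T.φ ^ n) f) i = Q.ev f (i + n) := by
  induction n generalizing i with
  | zero => simp
  | succ n ih =>
    rw [pow_succ']
    show Q.ev (Q.T.φ ((Q.T.φ ^ n) f)) i = _
    rw [Q.shift, ih]
    congr 1
    push_cast
    ring

theorem Sys.Reach.map_pow {S : Sys} {m : ℕ} {x y : S.P} (n : ℕ) (h : S.Reach m x y) :
    S.Reach m ((S.φ ^ n) x) ((S.φ ^ n) y) := by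
  induction n with
  | zero => exact h
  | succ n ih =>
    rw [pow_succ']
    exact ih.map

theorem step_proof (S : Sys) (N : ℕ) (hN : 2 ≤ N) (n k : ℕ) (h : S.HasChain n k) :
    ∃ T : Sys, T.HasChain (n * (2 * N + 2)) (k * N + n) := by
  obtain ⟨A⟩ := (insHyp_JA S).nonempty_ext
  obtain ⟨Q⟩ := (seqHyp_Z (insHyp_JA S) A).nonempty_ext N (by omega)
  obtain ⟨B⟩ := (insHyp_JD S A N hN Q).nonempty_ext
  choose F hF using exists_F S A N hN Q
  have key : ∀ (m : ℕ) (x y : S.P), S.Reach m x y →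
      B.T.Reach (m * (2 * N + 2)) (B.inl (F x)) ((B.T.φ ^ m) (B.inl (F y))) := by
    intro m x y hm
    induction hm with
    | refl x =>
      rw [Nat.zero_mul]
      exact Sys.Reach.refl _
    | @step m x y z hg _ ih =>
      have h1 := new_path S A N hN Q B x y hg (F x) (F y) (hF x) (hF y)
      have h2 := h1.trans ih.map
      have e : 2 * N + 2 + m * (2 * N + 2) = (m + 1) * (2 * N + 2) := by ring
      rw [e] at h2
      rw [pow_succ']
      exact h2
  obtain ⟨x, hx⟩ := h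
  refine ⟨B.T, B.inl (F x), ?_⟩
  have h1 := key _ _ _ hx
  have h2 : F ((S.φ ^ k) x) = (Q.T.φ ^ (k * N)) (F x) := by
    apply Q.ext_window (by omega) 0
    intro r hr
    rw [Q.ev_φ_pow, zero_add, hF _ r hr]
    have e : ((r : ℤ) + ((k * N : ℕ) : ℤ)) = (r : ℤ) + (N : ℤ) * (k : ℕ) := by
      push_cast
      ring
    rw [e, Q.per_nat, hF _ r hr, A.φ_pow_inl]
  rw [h2, ← B.φ_pow_inl, ← RelIso.mul_apply, ← pow_add, add_comm n] at h1
  exact h1

end Pool.Agent.GNU
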