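import Pool.Agent.Lib_helper58.GNU.S0
import Pool.Agent.Lib_helper58.GNU.HYPA
import Pool.Agent.Lib_helper58.GNU.LEN

set_option autoImplicit false

namespace Pool.Agent.GNU

theorem Sys.finite_Icc (S : Sys) (x y : S.P) : (Set.Icc x y).Finite := Sys.finite_Icc_proof S x y

theorem Sys.Good.map {S : Sys} {x y : S.P} (h : S.Good x y) : S.Good (S.φ x) (S.φ y) :=
  Sys.Good.map_proof h

theorem Sys.Good.map_symm {S : Sys} {x y : S.P} (h : S.Good x y) :
    S.Good (S.φ.symm x) (S.φ.symm y) := Sys.Good.map_symm_proof h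

theorem Sys.Reach.trans {S : Sys} {m n : ℕ} {x y z : S.P} (h : S.Reach m x y)
    (h' : S.Reach n y z) : S.Reach (m + n) x z := Sys.Reach.trans_proof h h'

theorem Sys.Reach.map {S : Sys} {m : ℕ} {x y : S.P} (h : S.Reach m x y) :
    S.Reach m (S.φ x) (S.φ y) := Sys.Reach.map_proof h

theorem insHyp_JA (S : Sys) : InsHyp S S.JA := insHyp_JA_proof S

theorem seqHyp_Z {S : Sys} {J : S.P → S.P → Prop} (hJ : InsHyp S J) (A : InsExt S J) :
    SeqHyp A.T A.Z := seqHyp_Z_proof hJ A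

section LEN

variable {O : Type} (F : FG O) {D : O → O → ℤ}

theorem FG.L_one : F.L D 1 = 0 := FG.L_one_proof F

theorem FG.L_pr (h0 : ∀ a, D a a = 0) (a b : O) : F.L D (F.pr a b) = D a b :=
  FG.L_pr_proof F h0 a b

theorem FG.L_mul (h0 : ∀ a, D a a = 0) (h1 : ∀ a b c, D a c ≤ D a b + D b c) (h k : F.H) :
    F.L D (h * k) ≤ F.L D h + F.L D k := FG.L_mul_proof F h0 h1 h k

theorem FG.L_inv (h : F.H) : F.L D h⁻¹ = F.L (fun a b => D b a) h := FG.L_inv_proof F h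

theorem FG.gate (k : F.H) (o : O) : ∃ q m, k = F.pr o q * m ∧ F.Av m q := FG.gate_proof F k o

theorem FG.L_gate (h0 : ∀ a, D a a = 0) (m : F.H) (p q : O) (hm : F.Av m q) :
    F.L D (F.pr p q * m) = D p q + F.L D m := FG.L_gate_proof F h0 m p q hm

theorem FG.L_gate₂ (b m : F.H) (o q : O) (hb : F.Av b o) (hm : F.Av m q) (hq : q ≠ o) :
    F.L D (b⁻¹ * (F.pr o q * m)) = F.L D b⁻¹ + D o q + F.L D m :=
  FG.L_gate₂_proof F b m o q hb hm hq

theorem FG.ind {C : F.H → Prop} (one : C 1)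
    (mul : ∀ a b m, a ≠ b → F.Av m b → C m → C (F.pr a b * m)) (h : F.H) : C h :=
  FG.ind_proof F one mul h

theorem FG.length_le (hpos : ∀ a b, a ≠ b → 0 < D a b + D b a) (h : F.H) :
    ((F.nf h).length : ℤ) ≤ F.L D h + F.L D h⁻¹ := FG.length_le_proof F hpos h

theorem FG.nf_two (a b c d : O) (h1 : a ≠ b) (h2 : c ≠ d) (h3 : b ≠ c) :
    (F.nf (F.pr a b * F.pr c d)).length = 2 := FG.nf_two_proof F a b c d h1 h2 h3

theorem FG.eq_of_length_le_one (h : F.H) (hl : (F.nf h).length ≤ 1) :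
    h = 1 ∨ ∃ a b, a ≠ b ∧ h = F.pr a b := FG.eq_of_length_le_one_proof F h hl

end LEN

end Pool.Agent.GNU
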