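import Pool.Agent.Lib_helper58.GNU.Path

set_option autoImplicit false

namespace Pool.Agent.GNU

theorem exists_F (S : Sys) (A : InsExt S S.JA) (N : ℕ) (hN : 2 ≤ N) (Q : SeqExt A.T A.Z N)
    (x : S.P) : ∃ f : Q.T.P, ∀ i : ℕ, i < N → Q.ev f i = A.inl x := exists_F_proof S A N hN Q x

theorem new_path (S : Sys) (A : InsExt S S.JA) (N : ℕ) (hN : 2 ≤ N) (Q : SeqExt A.T A.Z N)
    (B : InsExt Q.T (JD A N Q)) (x x' : S.P) (h : S.Good x x') (f f' : Q.T.P)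
    (hf : ∀ i : ℕ, i < N → Q.ev f i = A.inl x) (hf' : ∀ i : ℕ, i < N → Q.ev f' i = A.inl x') :
    B.T.Reach (2 * N + 2) (B.inl f) (B.T.φ (B.inl f')) :=
  new_path_proof S A N hN Q B x x' h f f' hf hf'

end Pool.Agent.GNU
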