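import Pool.Agent.Lib_helper58.GNU.STEP

set_option autoImplicit false

namespace Pool.Agent.GNU

theorem step (S : Sys) (N : ℕ) (hN : 2 ≤ N) (n k : ℕ) (h : S.HasChain n k) :
    ∃ T : Sys, T.HasChain (n * (2 * N + 2)) (k * N + n) := step_proof S N hN n k h

end Pool.Agent.GNU
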