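import Pool.Agent.Lib_helper58.GNU.NUM

set_option autoImplicit false

namespace Pool.Agent.GNU

theorem exists_chain (j : ℕ) : ∃ (S : Sys) (n k : ℕ), S.HasChain n k ∧ 1 ≤ k ∧
    k ≤ 2 ^ (j ^ 2 + 2 * j) ∧ 2 ^ j * k ≤ n := exists_chain_proof j

end Pool.Agent.GNU
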