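import Pool.Agent.Lib_helper58.GNU.Shim5
import Pool.Agent.Lib_helper58.GNU.GAR

set_option autoImplicit false

namespace Pool.Agent.GNU

theorem Sys.Pres.exists_garside {S : Sys} (R : S.Pres) :
    ∃ (M : Type) (_ : Monoid M) (d : M), IsGarside M d ∧
      (∀ (n : ℕ) (f : Fin n → M), (∀ i, f i ≠ 1) → (List.ofFn f).prod = d → n ≤ 4) ∧
      ∀ (n k : ℕ) (y : ℕ → S.P), (∀ i < n, y i < y (i + 1)) → y n = (S.φ ^ k) (y 0) →
        ∃ f : Fin n → M, (∀ i, f i ≠ 1) ∧ (List.ofFn f).prod = d ^ k :=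
  Sys.Pres.exists_garside_proof R

end Pool.Agent.GNU
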